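import Pool.Agent.BMX.Bas

set_option autoImplicit false

/-! Module Vf: the model `V d M β = ∑_{m ≤ M} cw_m e(mβ)`, `d ≥ 1`.
`cw_sum`: telescoping.  `cw_anti`: concavity of `x^{1/d}`.  `V_le_one`, `V_sub_one` (`e(mβ) = e(m(β - round β))`, `|e(mx) - 1| ≤ 2π M |x|`).
`V_decay`: if `M nn β ≤ 1` trivial.  Otherwise `m0 = ⌈1/nn β⌉ ≤ M`, `m0 ≤ (3/2)/nn β`; `∑_{m ≤ m0} cw = (m0/M)^{1/d}`; Abel summation for the decreasing weights on `(m0, M]`: `≤ cw_{m0+1} / nn β` (`ex_geom`), `cw_{m0+1} ≤ (1/m0) ∑_{m ≤ m0} cw = (1/m0)(m0/M)^{1/d}`, `m0 nn β ≥ 1`.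
`V_step`: `M' = ⌈M/Q⌉` (`(M + Q - 1)/Q`), `M'' = Q M'`, `M ≤ M'' < M + Q`: `cw d M' m = ∑_{n ∈ ((m-1)Q, mQ]} cw d M'' n`, and `|e(Q m β) - e(n β)| ≤ 2π Q |β|` on the block; `cw d M'' n = (M/M'')^{1/d} cw d M n` for all `n`, so
`∑_{n ≤ M''} |cw d M'' n - 1_{n ≤ M} cw d M n| ≤ 2 (1 - (M/M'')^{1/d}) ≤ 2 (1 - M/M'') ≤ 2 Q/M`.
`V_avg`: Abel: `∑ cw_m g_m = ∑_{M'' ≤ M} (cw_{M''} - cw_{M''+1}) M'' avg_{M''}` (with `cw_{M+1}` replaced by `0`), the coefficients are `≥ 0` and sum to `∑ cw = 1`.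
`V_block`: `M = c N^d`: blocks `(c (n-1)^d, c n^d]` have total weight `n/N - (n-1)/N = 1/N`; `|e(c n^d β) - e(mβ)| ≤ 2π |β| c (n^d - (n-1)^d) ≤ 2π |β| c d N^{d-1}` on the block. -/

open Finset Filter Topology MeasureTheory Polynomial

namespace Pool.Agent.BMX

private theorem Vf_r_pos (d : ℕ) (hd : 1 ≤ d) : 0 < 1 / (d : ℝ) := by
  have : (1 : ℝ) ≤ d := by exact_mod_cast hd
  positivity

private theorem Vf_r_le (d : ℕ) (hd : 1 ≤ d) : 1 / (d : ℝ) ≤ 1 := by
  have : (1 : ℝ) ≤ d := by exact_mod_cast hd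
  rw [div_le_one (by linarith)]
  exact this

theorem cw_nonneg (d M m : ℕ) (hd : 1 ≤ d) (hm : 1 ≤ m) : 0 ≤ cw d M m := by
  unfold cw
  have hm' : (1 : ℝ) ≤ m := by exact_mod_cast hm
  have h1 : (0 : ℝ) ≤ ((m : ℝ) - 1) / M := div_nonneg (by linarith) (Nat.cast_nonneg _)
  have h2 : ((m : ℝ) - 1) / M ≤ (m : ℝ) / M :=
    div_le_div_of_nonneg_right (by linarith) (Nat.cast_nonneg _)
  have := Real.rpow_le_rpow h1 h2 (Vf_r_pos d hd).le
  linarith

theorem cw_sum (d M m : ℕ) (hd : 1 ≤ d) :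
    ∑ i ∈ Icc 1 m, cw d M i = ((m : ℝ) / M) ^ (1 / (d : ℝ)) := by
  induction m with
  | zero => simp [Real.zero_rpow (inv_pos.2 (show (0 : ℝ) < d by exact_mod_cast hd)).ne']
  | succ k ih =>
    rw [Finset.sum_Icc_succ_top (by omega), ih]
    unfold cw
    push_cast
    ring_nf

theorem cw_anti (d M m : ℕ) (hd : 1 ≤ d) (hm : 1 ≤ m) : cw d M (m + 1) ≤ cw d M m := by
  have hm' : (1 : ℝ) ≤ m := by exact_mod_cast hm
  have hc := Real.concaveOn_rpow (Vf_r_pos d hd).le (Vf_r_le d hd)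
  have hx0 : 0 ≤ ((m : ℝ) - 1) / M := div_nonneg (by linarith) (Nat.cast_nonneg _)
  have hy0 : 0 ≤ ((m : ℝ) + 1) / M := div_nonneg (by linarith) (Nat.cast_nonneg _)
  have hx : ((m : ℝ) - 1) / M ∈ Set.Ici (0 : ℝ) := hx0
  have hy : ((m : ℝ) + 1) / M ∈ Set.Ici (0 : ℝ) := hy0
  have h := hc.2 hx hy (show (0 : ℝ) ≤ 1 / 2 by norm_num) (show (0 : ℝ) ≤ 1 / 2 by norm_num)
    (by norm_num)
  simp only [smul_eq_mul] at h
  have he : 1 / 2 * (((m : ℝ) - 1) / M) + 1 / 2 * (((m : ℝ) + 1) / M) = (m : ℝ) / M := by ring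
  rw [he] at h
  unfold cw
  push_cast
  have he2 : ((m : ℝ) + 1 - 1) = m := by ring
  rw [he2]
  linarith

/-- sum of the weights over a block -/
private theorem Vf_cw_block (d M a b : ℕ) (hd : 1 ≤ d) (hab : a ≤ b) :
    ∑ i ∈ Icc (a + 1) b, cw d M i =
      ((b : ℝ) / M) ^ (1 / (d : ℝ)) - ((a : ℝ) / M) ^ (1 / (d : ℝ)) := by
  rw [← cw_sum d M b hd, ← cw_sum d M a hd]
  have h := Finset.sum_Ioc_consecutive (fun i => cw d M i) (Nat.zero_le a) hab
  have e1 : Icc 1 b = Ioc 0 b := by ext x; simp only [Finset.mem_Icc, Finset.mem_Ioc]; omega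
  have e2 : Icc 1 a = Ioc 0 a := by ext x; simp only [Finset.mem_Icc, Finset.mem_Ioc]; omega
  have e3 : Icc (a + 1) b = Ioc a b := by
    ext x; simp only [Finset.mem_Icc, Finset.mem_Ioc]; omega
  rw [e1, e2, e3]
  linarith

/-- decomposition into blocks -/
private theorem Vf_blocks {E : Type*} [AddCommMonoid E] (B : ℕ → ℕ) (hB : Monotone B)
    (h0 : B 0 = 0) (f : ℕ → E) (N : ℕ) :
    ∑ m ∈ Icc 1 (B N), f m = ∑ n ∈ Icc 1 N, ∑ m ∈ Icc (B (n - 1) + 1) (B n), f m := by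
  induction N with
  | zero => simp [h0]
  | succ k ih =>
    rw [Finset.sum_Icc_succ_top (by omega), ← ih]
    have h := Finset.sum_Ioc_consecutive f (Nat.zero_le (B k)) (hB (Nat.le_succ k))
    have e1 : Icc 1 (B (k + 1)) = Ioc 0 (B (k + 1)) := by
      ext x; simp only [Finset.mem_Icc, Finset.mem_Ioc]; omega
    have e2 : Icc 1 (B k) = Ioc 0 (B k) := by
      ext x; simp only [Finset.mem_Icc, Finset.mem_Ioc]; omega
    have e3 : Icc (B (k + 1 - 1) + 1) (B (k + 1)) = Ioc (B k) (B (k + 1)) := by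
      rw [Nat.add_sub_cancel]
      ext x; simp only [Finset.mem_Icc, Finset.mem_Ioc]; omega
    rw [e1, e2, e3]
    exact h.symm

/-- Abel summation -/
private theorem Vf_abel {R : Type*} [CommRing R] (a g : ℕ → R) (k n : ℕ) (hkn : k ≤ n) :
    ∑ m ∈ Icc (k + 1) n, a m * g m =
      a (n + 1) * ∑ i ∈ Icc (k + 1) n, g i +
        ∑ m ∈ Icc (k + 1) n, (a m - a (m + 1)) * ∑ i ∈ Icc (k + 1) m, g i := by
  induction n, hkn using Nat.le_induction with
  | base => simp
  | succ n hn ih =>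
    rw [Finset.sum_Icc_succ_top (by omega), Finset.sum_Icc_succ_top (by omega),
      Finset.sum_Icc_succ_top (by omega), ih, Finset.sum_Icc_succ_top (by omega)]
    ring

theorem V_le_one (d M : ℕ) (hd : 1 ≤ d) (β : ℝ) : ‖V d M β‖ ≤ 1 := by
  unfold V
  refine (norm_sum_le _ _).trans ?_
  have h : ∀ m ∈ Icc 1 M, ‖(cw d M m : ℂ) * ex (m * β)‖ ≤ cw d M m := by
    intro m hm
    rw [norm_mul, norm_ex, mul_one, Complex.norm_real, Real.norm_eq_abs,
      abs_of_nonneg (cw_nonneg d M m hd (Finset.mem_Icc.1 hm).1)]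
  refine (Finset.sum_le_sum h).trans ?_
  rw [cw_sum d M M hd]
  apply Real.rpow_le_one (by positivity) _ (Vf_r_pos d hd).le
  exact div_self_le_one _

theorem V_add_int (d M : ℕ) (β : ℝ) (n : ℤ) : V d M (β + n) = V d M β := by
  unfold V
  apply Finset.sum_congr rfl
  intro m _
  have : (m : ℝ) * (β + n) = m * β + ((m * n : ℤ) : ℝ) := by push_cast; ring
  rw [this, ex_add, ex_int, mul_one]

private theorem Vf_sum_one (d M : ℕ) (hd : 1 ≤ d) (hM : 1 ≤ M) :
    ∑ i ∈ Icc 1 M, cw d M i = 1 := by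
  rw [cw_sum d M M hd, div_self (by positivity), Real.one_rpow]

theorem V_sub_one (d M : ℕ) (hd : 1 ≤ d) (hM : 1 ≤ M) (β : ℝ) :
    ‖V d M β - 1‖ ≤ 2 * Real.pi * M * nn β := by
  have h1 : (1 : ℂ) = ∑ m ∈ Icc 1 M, (cw d M m : ℂ) := by
    rw [← Complex.ofReal_sum, Vf_sum_one d M hd hM, Complex.ofReal_one]
  have h2 : V d M β - 1 = ∑ m ∈ Icc 1 M, (cw d M m : ℂ) * (ex (m * β) - 1) := by
    rw [h1]
    unfold V
    rw [← Finset.sum_sub_distrib]
    apply Finset.sum_congr rfl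
    intro m _
    rw [← h1]
    ring
  rw [h2]
  refine (norm_sum_le _ _).trans ?_
  have h3 : ∀ m ∈ Icc 1 M, ‖(cw d M m : ℂ) * (ex (m * β) - 1)‖ ≤
      cw d M m * (2 * Real.pi * M * nn β) := by
    intro m hm
    obtain ⟨hm1, hm2⟩ := Finset.mem_Icc.1 hm
    rw [norm_mul, Complex.norm_real, Real.norm_eq_abs,
      abs_of_nonneg (cw_nonneg d M m hd hm1)]
    apply mul_le_mul_of_nonneg_left _ (cw_nonneg d M m hd hm1)
    have e1 : (m : ℝ) * β = m * (β - round β) + ((m * round β : ℤ) : ℝ) := by push_cast; ring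
    rw [e1, ex_add, ex_int, mul_one, ← ex_zero]
    refine (ex_sub_le _ _).trans ?_
    rw [sub_zero, abs_mul, abs_of_nonneg (Nat.cast_nonneg m)]
    have e2 : |β - round β| = nn β := rfl
    rw [e2]
    have e3 : (m : ℝ) ≤ M := by exact_mod_cast hm2
    have := nn_nonneg β
    have hpi := Real.pi_pos
    calc 2 * Real.pi * (m * nn β) = (2 * Real.pi * nn β) * m := by ring
      _ ≤ (2 * Real.pi * nn β) * M := by
          apply mul_le_mul_of_nonneg_left e3; positivity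
      _ = 2 * Real.pi * M * nn β := by ring
  refine (Finset.sum_le_sum h3).trans ?_
  rw [← Finset.sum_mul, Vf_sum_one d M hd hM, one_mul]

theorem V_decay (d M : ℕ) (hd : 1 ≤ d) (hM : 1 ≤ M) (β : ℝ) (hβ : 0 < nn β) :
    ‖V d M β‖ ≤ 4 * ((M : ℝ) * nn β) ^ (-(1 / (d : ℝ))) := by
  have hr := Vf_r_pos d hd
  have hr1 := Vf_r_le d hd
  have hM' : (0 : ℝ) < M := by exact_mod_cast (by omega : 0 < M)
  have hx : 0 < (M : ℝ) * nn β := by positivity
  by_cases hc : (M : ℝ) * nn β ≤ 1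
  · have h1 : 1 ≤ ((M : ℝ) * nn β) ^ (-(1 / (d : ℝ))) :=
      Real.one_le_rpow_of_pos_of_le_one_of_nonpos hx hc (by linarith)
    have := V_le_one d M hd β
    linarith
  · push Not at hc
    have hhalf := nn_le_half β
    set m0 : ℕ := ⌈1 / nn β⌉₊ with hm0
    have h2 : 2 ≤ 1 / nn β := by
      rw [le_div_iff₀ hβ]; linarith
    have hm0l : 1 / nn β ≤ m0 := Nat.le_ceil _
    have hm0u : (m0 : ℝ) ≤ (3 / 2) / nn β := by
      have := Nat.ceil_lt_add_one (show 0 ≤ 1 / nn β by positivity)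
      have e : (3 / 2) / nn β = 1 / nn β + (1 / 2) * (1 / nn β) := by ring
      rw [e]
      have : (m0 : ℝ) < 1 / nn β + 1 := this
      linarith
    have hm0M : m0 ≤ M := by
      apply Nat.ceil_le.2
      rw [div_le_iff₀ hβ]
      linarith
    have hm0pos : (0 : ℝ) < m0 := by linarith
    have hm0pos' : 1 ≤ m0 := by
      have : (0 : ℕ) < m0 := by exact_mod_cast hm0pos
      omega
    -- the power
    have hpow : ((m0 : ℝ) / M) ^ (1 / (d : ℝ)) ≤
        (3 / 2) * ((M : ℝ) * nn β) ^ (-(1 / (d : ℝ))) := by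
      have h3 : (m0 : ℝ) / M ≤ (3 / 2) * ((M : ℝ) * nn β)⁻¹ := by
        rw [div_le_iff₀ hM']
        calc (m0 : ℝ) ≤ (3 / 2) / nn β := hm0u
          _ = (3 / 2) * ((M : ℝ) * nn β)⁻¹ * M := by field_simp
      refine (Real.rpow_le_rpow (by positivity) h3 hr.le).trans ?_
      rw [Real.mul_rpow (by norm_num) (by positivity), Real.inv_rpow hx.le, ← Real.rpow_neg hx.le]
      apply mul_le_mul_of_nonneg_right _ (by positivity)
      calc (3 / 2 : ℝ) ^ (1 / (d : ℝ)) ≤ (3 / 2 : ℝ) ^ (1 : ℝ) :=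
            Real.rpow_le_rpow_of_exponent_le (by norm_num) hr1
        _ = 3 / 2 := by simp
    -- split
    have hsplit : V d M β = ∑ m ∈ Icc 1 m0, (cw d M m : ℂ) * ex (m * β) +
        ∑ m ∈ Icc (m0 + 1) M, (cw d M m : ℂ) * ex (m * β) := by
      unfold V
      have h := Finset.sum_Ioc_consecutive (fun m : ℕ => (cw d M m : ℂ) * ex (m * β))
        (Nat.zero_le m0) hm0M
      have e1 : Icc 1 M = Ioc 0 M := by
        ext x; simp only [Finset.mem_Icc, Finset.mem_Ioc]; omega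
      have e2 : Icc 1 m0 = Ioc 0 m0 := by
        ext x; simp only [Finset.mem_Icc, Finset.mem_Ioc]; omega
      have e3 : Icc (m0 + 1) M = Ioc m0 M := by
        ext x; simp only [Finset.mem_Icc, Finset.mem_Ioc]; omega
      rw [e1, e2, e3, h]
    have hA : ‖∑ m ∈ Icc 1 m0, (cw d M m : ℂ) * ex (m * β)‖ ≤ ((m0 : ℝ) / M) ^ (1 / (d : ℝ)) := by
      refine (norm_sum_le _ _).trans ?_
      rw [← cw_sum d M m0 hd]
      apply Finset.sum_le_sum
      intro m hm
      rw [norm_mul, norm_ex, mul_one, Complex.norm_real, Real.norm_eq_abs,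
        abs_of_nonneg (cw_nonneg d M m hd (Finset.mem_Icc.1 hm).1)]
    have hB : ‖∑ m ∈ Icc (m0 + 1) M, (cw d M m : ℂ) * ex (m * β)‖ ≤
        cw d M (m0 + 1) * (1 / (2 * nn β)) := by
      rw [Vf_abel (fun m => (cw d M m : ℂ)) (fun m : ℕ => ex (m * β)) m0 M hm0M]
      have hbd : ∀ b, ‖∑ m ∈ Icc (m0 + 1) b, ex (m * β)‖ ≤ 1 / (2 * nn β) :=
        fun b => ex_geom β hβ m0 b
      have hK : 0 ≤ 1 / (2 * nn β) := by positivity
      calc ‖(cw d M (M + 1) : ℂ) * ∑ i ∈ Icc (m0 + 1) M, ex (i * β) +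
            ∑ m ∈ Icc (m0 + 1) M, ((cw d M m : ℂ) - (cw d M (m + 1) : ℂ)) *
              ∑ i ∈ Icc (m0 + 1) m, ex (i * β)‖
          ≤ cw d M (M + 1) * (1 / (2 * nn β)) +
            ∑ m ∈ Icc (m0 + 1) M, (cw d M m - cw d M (m + 1)) * (1 / (2 * nn β)) := by
            refine (norm_add_le _ _).trans (add_le_add ?_ ?_)
            · rw [norm_mul, Complex.norm_real, Real.norm_eq_abs,
                abs_of_nonneg (cw_nonneg d M (M + 1) hd (by omega))]
              exact mul_le_mul_of_nonneg_left (hbd M) (cw_nonneg d M (M + 1) hd (by omega))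
            · refine (norm_sum_le _ _).trans (Finset.sum_le_sum ?_)
              intro m hm
              have hm1 : 1 ≤ m := by have := (Finset.mem_Icc.1 hm).1; omega
              have hmn : 0 ≤ cw d M m - cw d M (m + 1) := by
                have := cw_anti d M m hd hm1
                linarith
              rw [norm_mul, ← Complex.ofReal_sub, Complex.norm_real, Real.norm_eq_abs,
                abs_of_nonneg hmn]
              exact mul_le_mul_of_nonneg_left (hbd m) hmn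
        _ = cw d M (m0 + 1) * (1 / (2 * nn β)) := by
            rw [← Finset.sum_mul, ← add_mul]
            congr 1
            have key : ∀ n, m0 ≤ n → ∑ m ∈ Icc (m0 + 1) n, (cw d M m - cw d M (m + 1)) =
                cw d M (m0 + 1) - cw d M (n + 1) := by
              intro n hn
              induction n, hn using Nat.le_induction with
              | base => simp
              | succ n hn ih =>
                rw [Finset.sum_Icc_succ_top (by omega), ih]
                ring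
            rw [key M hm0M]
            ring
    have hC : cw d M (m0 + 1) * m0 ≤ ((m0 : ℝ) / M) ^ (1 / (d : ℝ)) := by
      rw [← cw_sum d M m0 hd]
      have hle : ∀ j, ∀ i, 1 ≤ i → cw d M (i + j) ≤ cw d M i := by
        intro j
        induction j with
        | zero => intro i _; simp
        | succ j ih =>
          intro i hi
          have := cw_anti d M (i + j) hd (by omega)
          have e : i + (j + 1) = i + j + 1 := by ring
          rw [e]
          exact this.trans (ih i hi)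
      have : ∑ i ∈ Icc 1 m0, cw d M (m0 + 1) ≤ ∑ i ∈ Icc 1 m0, cw d M i := by
        apply Finset.sum_le_sum
        intro i hi
        obtain ⟨h1, h2⟩ := Finset.mem_Icc.1 hi
        have := hle (m0 + 1 - i) i h1
        have e : i + (m0 + 1 - i) = m0 + 1 := by omega
        rwa [e] at this
      rw [Finset.sum_const, Nat.card_Icc, nsmul_eq_mul] at this
      simp only [Nat.add_sub_cancel] at this
      linarith
    have hD : cw d M (m0 + 1) * (1 / (2 * nn β)) ≤ (1 / 2) * ((m0 : ℝ) / M) ^ (1 / (d : ℝ)) := by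
      have h0 := cw_nonneg d M (m0 + 1) hd (by omega)
      calc cw d M (m0 + 1) * (1 / (2 * nn β)) = (1 / 2) * (cw d M (m0 + 1) * (1 / nn β)) := by ring
        _ ≤ (1 / 2) * (cw d M (m0 + 1) * m0) := by
            apply mul_le_mul_of_nonneg_left _ (by norm_num)
            exact mul_le_mul_of_nonneg_left hm0l h0
        _ ≤ _ := by
            apply mul_le_mul_of_nonneg_left hC (by norm_num)
    rw [hsplit]
    refine (norm_add_le _ _).trans ?_
    have hpos : 0 ≤ ((M : ℝ) * nn β) ^ (-(1 / (d : ℝ))) := by positivity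
    linarith

theorem V_step (d M Q : ℕ) (hd : 1 ≤ d) (hM : 1 ≤ M) (hQ : 1 ≤ Q) (β : ℝ) :
    ‖V d ((M + Q - 1) / Q) (Q * β) - V d M β‖ ≤ 2 * Real.pi * Q * |β| + 2 * Q / M := by
  have hr := Vf_r_pos d hd
  have hr1 := Vf_r_le d hd
  set M' := (M + Q - 1) / Q with hM'
  set M'' := Q * M' with hM''
  have hlt : (M + Q - 1) % Q < Q := Nat.mod_lt _ hQ
  have hdm : M'' + (M + Q - 1) % Q = M + Q - 1 := Nat.div_add_mod (M + Q - 1) Q
  have h1 : M ≤ M'' := by omega
  have h2 : M'' < M + Q := by omega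
  have hM'pos : 1 ≤ M' := by
    rcases Nat.eq_zero_or_pos M' with h | h
    · rw [h, mul_zero] at hM''; omega
    · exact h
  have hQr : (0 : ℝ) < Q := by exact_mod_cast hQ
  have hMr : (0 : ℝ) < M := by exact_mod_cast hM
  have hM'r : (0 : ℝ) < M' := by exact_mod_cast hM'pos
  have hM''r : (0 : ℝ) < M'' := by
    have : 0 < M'' := by omega
    exact_mod_cast this
  -- first part
  have hfirst : ‖V d M' (Q * β) - V d M'' β‖ ≤ 2 * Real.pi * Q * |β| := by
    have hmono : Monotone fun n : ℕ => Q * n := fun a b h => Nat.mul_le_mul_left Q h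
    have e2 : V d M'' β = ∑ m ∈ Icc 1 M', ∑ n ∈ Icc (Q * (m - 1) + 1) (Q * m),
        (cw d M'' n : ℂ) * ex (n * β) := by
      unfold V
      exact Vf_blocks (fun n => Q * n) hmono (by simp) _ M'
    have hcw : ∀ m ∈ Icc 1 M', cw d M' m = ∑ n ∈ Icc (Q * (m - 1) + 1) (Q * m), cw d M'' n := by
      intro m hm
      have hm1 := (Finset.mem_Icc.1 hm).1
      rw [Vf_cw_block d M'' _ _ hd (Nat.mul_le_mul_left Q (by omega))]
      unfold cw
      have c1 : (((Q * m : ℕ) : ℝ)) / (M'' : ℝ) = (m : ℝ) / M' := by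
        rw [hM'']; push_cast; field_simp
      have c2 : (((Q * (m - 1) : ℕ) : ℝ)) / (M'' : ℝ) = ((m : ℝ) - 1) / M' := by
        rw [hM'', Nat.cast_mul, Nat.cast_mul, Nat.cast_sub hm1]; push_cast; field_simp
      rw [c1, c2]
    have e1 : V d M' (Q * β) = ∑ m ∈ Icc 1 M', ∑ n ∈ Icc (Q * (m - 1) + 1) (Q * m),
        (cw d M'' n : ℂ) * ex (m * (Q * β)) := by
      unfold V
      apply Finset.sum_congr rfl
      intro m hm
      rw [hcw m hm, Complex.ofReal_sum, Finset.sum_mul]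
    rw [e1, e2, ← Finset.sum_sub_distrib]
    have hbound : ∀ m ∈ Icc 1 M', ‖∑ n ∈ Icc (Q * (m - 1) + 1) (Q * m),
        (cw d M'' n : ℂ) * ex (m * (Q * β)) - ∑ n ∈ Icc (Q * (m - 1) + 1) (Q * m),
        (cw d M'' n : ℂ) * ex (n * β)‖ ≤ cw d M' m * (2 * Real.pi * Q * |β|) := by
      intro m hm
      have hm1 := (Finset.mem_Icc.1 hm).1
      rw [← Finset.sum_sub_distrib, hcw m hm, Finset.sum_mul]
      refine (norm_sum_le _ _).trans (Finset.sum_le_sum ?_)
      intro n hn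
      obtain ⟨hn1, hn2⟩ := Finset.mem_Icc.1 hn
      rw [← mul_sub, norm_mul, Complex.norm_real, Real.norm_eq_abs,
        abs_of_nonneg (cw_nonneg d M'' n hd (by omega))]
      apply mul_le_mul_of_nonneg_left _ (cw_nonneg d M'' n hd (by omega))
      refine (ex_sub_le _ _).trans ?_
      have e4 : (m : ℝ) * (Q * β) - n * β = ((Q * m : ℕ) - (n : ℝ)) * β := by push_cast; ring
      rw [e4, abs_mul]
      have e5 : |((Q * m : ℕ) : ℝ) - (n : ℝ)| ≤ Q := by
        rw [abs_le]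
        have q1 : (n : ℝ) ≤ ((Q * m : ℕ) : ℝ) := by exact_mod_cast hn2
        have q2 : ((Q * m : ℕ) : ℝ) ≤ n + Q := by
          have : Q * m ≤ n + Q := by
            have : Q * m = Q * (m - 1) + Q := by
              obtain ⟨k, rfl⟩ := Nat.exists_eq_add_of_le hm1
              rw [Nat.add_sub_cancel_left]; ring
            omega
          exact_mod_cast this
        constructor <;> linarith
      have hpi := Real.pi_pos
      calc 2 * Real.pi * (|((Q * m : ℕ) : ℝ) - (n : ℝ)| * |β|)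
          = (2 * Real.pi * |β|) * |((Q * m : ℕ) : ℝ) - (n : ℝ)| := by ring
        _ ≤ (2 * Real.pi * |β|) * Q := by
            apply mul_le_mul_of_nonneg_left e5; positivity
        _ = 2 * Real.pi * Q * |β| := by ring
    refine (norm_sum_le _ _).trans ((Finset.sum_le_sum hbound).trans ?_)
    rw [← Finset.sum_mul, Vf_sum_one d M' hd hM'pos, one_mul]
  -- second part
  have hsecond : ‖V d M'' β - V d M β‖ ≤ 2 * Q / M := by
    set t : ℝ := ((M : ℝ) / M'') ^ (1 / (d : ℝ)) with ht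
    have hcw : ∀ n, 1 ≤ n → cw d M'' n = t * cw d M n := by
      intro n hn
      have hn1 : (1 : ℝ) ≤ n := by exact_mod_cast hn
      unfold cw
      rw [mul_sub, ht, ← Real.mul_rpow (by positivity) (by positivity),
        ← Real.mul_rpow (by positivity) (div_nonneg (by linarith) (by positivity))]
      congr 2 <;> field_simp
    have ht1 : t ≤ 1 := by
      apply Real.rpow_le_one (by positivity) _ hr.le
      rw [div_le_one hM''r]
      exact_mod_cast h1
    have htl : (M : ℝ) / M'' ≤ t := by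
      have hx1 : (M : ℝ) / M'' ≤ 1 := by
        rw [div_le_one hM''r]
        exact_mod_cast h1
      calc (M : ℝ) / M'' = ((M : ℝ) / M'') ^ (1 : ℝ) := by simp
        _ ≤ ((M : ℝ) / M'') ^ (1 / (d : ℝ)) :=
            Real.rpow_le_rpow_of_exponent_ge (by positivity) hx1 hr1
    have hsplit : V d M'' β = ∑ m ∈ Icc 1 M, (cw d M'' m : ℂ) * ex (m * β) +
        ∑ m ∈ Icc (M + 1) M'', (cw d M'' m : ℂ) * ex (m * β) := by
      unfold V
      have h := Finset.sum_Ioc_consecutive (fun m : ℕ => (cw d M'' m : ℂ) * ex (m * β))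
        (Nat.zero_le M) h1
      have e1 : Icc 1 M'' = Ioc 0 M'' := by
        ext x; simp only [Finset.mem_Icc, Finset.mem_Ioc]; omega
      have e2 : Icc 1 M = Ioc 0 M := by
        ext x; simp only [Finset.mem_Icc, Finset.mem_Ioc]; omega
      have e3 : Icc (M + 1) M'' = Ioc M M'' := by
        ext x; simp only [Finset.mem_Icc, Finset.mem_Ioc]; omega
      rw [e1, e2, e3, h]
    have hdiff : V d M'' β - V d M β = ∑ m ∈ Icc 1 M, ((t - 1 : ℝ) : ℂ) * ((cw d M m : ℂ) * ex (m * β)) +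
        ∑ m ∈ Icc (M + 1) M'', (cw d M'' m : ℂ) * ex (m * β) := by
      rw [hsplit]
      unfold V
      have : ∑ m ∈ Icc 1 M, (cw d M'' m : ℂ) * ex (m * β) =
          ∑ m ∈ Icc 1 M, ((t - 1 : ℝ) : ℂ) * ((cw d M m : ℂ) * ex (m * β)) +
            ∑ m ∈ Icc 1 M, (cw d M m : ℂ) * ex (m * β) := by
        rw [← Finset.sum_add_distrib]
        apply Finset.sum_congr rfl
        intro m hm
        rw [hcw m (Finset.mem_Icc.1 hm).1]
        push_cast
        ring
      rw [this]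
      ring
    rw [hdiff, ← Finset.mul_sum]
    have hA : ‖((t - 1 : ℝ) : ℂ) * ∑ m ∈ Icc 1 M, (cw d M m : ℂ) * ex (m * β)‖ ≤ 1 - t := by
      rw [norm_mul, Complex.norm_real, Real.norm_eq_abs, abs_of_nonpos (by linarith)]
      have hV : ‖∑ m ∈ Icc 1 M, (cw d M m : ℂ) * ex (m * β)‖ ≤ 1 := V_le_one d M hd β
      calc -(t - 1) * ‖∑ m ∈ Icc 1 M, (cw d M m : ℂ) * ex (m * β)‖ ≤ -(t - 1) * 1 :=
            mul_le_mul_of_nonneg_left hV (by linarith)
        _ = 1 - t := by ring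
    have hB : ‖∑ m ∈ Icc (M + 1) M'', (cw d M'' m : ℂ) * ex (m * β)‖ ≤ 1 - t := by
      refine (norm_sum_le _ _).trans ?_
      have hb : ∀ m ∈ Icc (M + 1) M'', ‖(cw d M'' m : ℂ) * ex (m * β)‖ ≤ cw d M'' m := by
        intro m hm
        rw [norm_mul, norm_ex, mul_one, Complex.norm_real, Real.norm_eq_abs,
          abs_of_nonneg (cw_nonneg d M'' m hd (by have := (Finset.mem_Icc.1 hm).1; omega))]
      refine (Finset.sum_le_sum hb).trans ?_
      rw [Vf_cw_block d M'' M M'' hd h1, div_self hM''r.ne', Real.one_rpow]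
    refine (norm_add_le _ _).trans ?_
    have hfin : 1 - t ≤ Q / M := by
      have : 1 - (M : ℝ) / M'' ≤ Q / M := by
        have e : 1 - (M : ℝ) / M'' = (M'' - M) / M'' := by field_simp
        rw [e]
        have h2' : (M'' : ℝ) ≤ M + Q := by exact_mod_cast h2.le
        have h1' : (M : ℝ) ≤ M'' := by exact_mod_cast h1
        exact div_le_div₀ (by linarith) (by linarith) hMr h1'
      linarith
    calc _ ≤ (1 - t) + (1 - t) := add_le_add hA hB
      _ ≤ Q / M + Q / M := add_le_add hfin hfin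
      _ = 2 * Q / M := by ring
  calc ‖V d M' (Q * β) - V d M β‖ = ‖(V d M' (Q * β) - V d M'' β) + (V d M'' β - V d M β)‖ := by
        congr 1; ring
    _ ≤ _ := (norm_add_le _ _).trans (add_le_add hfirst hsecond)

theorem V_avg (d M : ℕ) (hd : 1 ≤ d) (hM : 1 ≤ M) (g : ℕ → ℝ) (hg : ∀ m, 0 ≤ g m) :
    ∃ M' : ℕ, 1 ≤ M' ∧ M' ≤ M ∧
      ∑ m ∈ Icc 1 M, cw d M m * g m ≤ (1 / (M' : ℝ)) * ∑ m ∈ Icc 1 M', g m := by
  obtain ⟨M', hM'mem, hmax⟩ := Finset.exists_max_image (Icc 1 M)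
    (fun m : ℕ => (1 / (m : ℝ)) * ∑ i ∈ Icc 1 m, g i) ⟨1, by simp [hM]⟩
  obtain ⟨h1, h2⟩ := Finset.mem_Icc.1 hM'mem
  refine ⟨M', h1, h2, ?_⟩
  set K : ℝ := (1 / (M' : ℝ)) * ∑ m ∈ Icc 1 M', g m with hK
  have hpart : ∀ m, 1 ≤ m → m ≤ M → 0 ≤ ∑ i ∈ Icc 1 m, (K - g i) := by
    intro m hm1 hm2
    have h := hmax m (Finset.mem_Icc.2 ⟨hm1, hm2⟩)
    have hm0 : (0 : ℝ) < m := by exact_mod_cast hm1
    rw [Finset.sum_sub_distrib, Finset.sum_const, Nat.card_Icc, nsmul_eq_mul]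
    simp only [Nat.add_sub_cancel]
    have : ∑ i ∈ Icc 1 m, g i ≤ m * K := by
      calc ∑ i ∈ Icc 1 m, g i = m * ((1 / (m : ℝ)) * ∑ i ∈ Icc 1 m, g i) := by field_simp
        _ ≤ m * K := mul_le_mul_of_nonneg_left h hm0.le
    linarith
  have hab := Vf_abel (fun m => cw d M m) (fun m => K - g m) 0 M (Nat.zero_le M)
  simp only [zero_add] at hab
  have hnn : 0 ≤ ∑ m ∈ Icc 1 M, cw d M m * (K - g m) := by
    rw [hab]
    apply add_nonneg
    · exact mul_nonneg (cw_nonneg d M (M + 1) hd (by omega)) (hpart M hM le_rfl)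
    · apply Finset.sum_nonneg
      intro m hm
      obtain ⟨a1, a2⟩ := Finset.mem_Icc.1 hm
      apply mul_nonneg _ (hpart m a1 a2)
      have := cw_anti d M m hd a1
      linarith
  have e : ∑ m ∈ Icc 1 M, cw d M m * (K - g m) =
      K * ∑ m ∈ Icc 1 M, cw d M m - ∑ m ∈ Icc 1 M, cw d M m * g m := by
    rw [Finset.mul_sum, ← Finset.sum_sub_distrib]
    apply Finset.sum_congr rfl
    intro m _
    ring
  rw [e, Vf_sum_one d M hd hM] at hnn
  linarith

private theorem Vf_pow (m d : ℕ) (hd : 1 ≤ d) : (m + 1) ^ d ≤ m ^ d + d * (m + 1) ^ (d - 1) := by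
  induction d, hd using Nat.le_induction with
  | base => simp
  | succ d hd ih =>
    have e : (m + 1) ^ (d - 1) * (m + 1) = (m + 1) ^ d := by
      rw [← pow_succ]; congr 1; omega
    calc (m + 1) ^ (d + 1) = (m + 1) ^ d * (m + 1) := pow_succ _ _
      _ ≤ (m ^ d + d * (m + 1) ^ (d - 1)) * (m + 1) := Nat.mul_le_mul_right _ ih
      _ = m ^ (d + 1) + (m ^ d + d * ((m + 1) ^ (d - 1) * (m + 1))) := by ring
      _ = m ^ (d + 1) + (m ^ d + d * (m + 1) ^ d) := by rw [e]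
      _ ≤ m ^ (d + 1) + ((m + 1) ^ d + d * (m + 1) ^ d) := by
          have := Nat.pow_le_pow_left (Nat.le_succ m) d
          simp only [Nat.succ_eq_add_one] at this
          omega
      _ = m ^ (d + 1) + (d + 1) * (m + 1) ^ (d + 1 - 1) := by
          rw [Nat.add_sub_cancel]; ring

theorem V_block (d c N : ℕ) (hd : 1 ≤ d) (hc : 1 ≤ c) (hN : 1 ≤ N) (β : ℝ) :
    ‖(1 / (N : ℂ)) * ∑ n ∈ Icc 1 N, ex ((c * n ^ d : ℕ) * β) - V d (c * N ^ d) β‖ ≤
      2 * Real.pi * |β| * (c * d * N ^ (d - 1) : ℕ) := by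
  have hr := Vf_r_pos d hd
  have hNr : (0 : ℝ) < N := by exact_mod_cast hN
  have hcr : (0 : ℝ) < c := by exact_mod_cast hc
  have hmono : Monotone fun n : ℕ => c * n ^ d :=
    fun a b h => Nat.mul_le_mul_left c (Nat.pow_le_pow_left h d)
  have e2 : V d (c * N ^ d) β = ∑ n ∈ Icc 1 N, ∑ m ∈ Icc (c * (n - 1) ^ d + 1) (c * n ^ d),
      (cw d (c * N ^ d) m : ℂ) * ex (m * β) := by
    unfold V
    exact Vf_blocks (fun n => c * n ^ d) hmono (by simp; omega) _ N
  have hroot : ∀ n : ℕ, (((c * n ^ d : ℕ) : ℝ) / ((c * N ^ d : ℕ) : ℝ)) ^ (1 / (d : ℝ)) =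
      (n : ℝ) / N := by
    intro n
    have : ((c * n ^ d : ℕ) : ℝ) / ((c * N ^ d : ℕ) : ℝ) = ((n : ℝ) / N) ^ d := by
      push_cast
      rw [div_pow]
      field_simp
    rw [this, ← Real.rpow_natCast, ← Real.rpow_mul (by positivity)]
    have : (d : ℝ) * (1 / (d : ℝ)) = 1 := by
      have : (d : ℝ) ≠ 0 := by
        have : d ≠ 0 := by omega
        exact_mod_cast this
      field_simp
    rw [this, Real.rpow_one]
  have hw : ∀ n ∈ Icc 1 N, ∑ m ∈ Icc (c * (n - 1) ^ d + 1) (c * n ^ d), cw d (c * N ^ d) m =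
      1 / (N : ℝ) := by
    intro n hn
    have hn1 := (Finset.mem_Icc.1 hn).1
    rw [Vf_cw_block d _ _ _ hd (hmono (by omega : n - 1 ≤ n)), hroot, hroot, Nat.cast_sub hn1]
    push_cast
    ring
  have e1 : (1 / (N : ℂ)) * ∑ n ∈ Icc 1 N, ex ((c * n ^ d : ℕ) * β) =
      ∑ n ∈ Icc 1 N, ∑ m ∈ Icc (c * (n - 1) ^ d + 1) (c * n ^ d),
        (cw d (c * N ^ d) m : ℂ) * ex ((c * n ^ d : ℕ) * β) := by
    rw [Finset.mul_sum]
    apply Finset.sum_congr rfl
    intro n hn
    rw [← Finset.sum_mul, ← Complex.ofReal_sum, hw n hn]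
    push_cast
    ring
  rw [e1, e2, ← Finset.sum_sub_distrib]
  have hb : ∀ n ∈ Icc 1 N, ‖∑ m ∈ Icc (c * (n - 1) ^ d + 1) (c * n ^ d),
        (cw d (c * N ^ d) m : ℂ) * ex ((c * n ^ d : ℕ) * β) -
        ∑ m ∈ Icc (c * (n - 1) ^ d + 1) (c * n ^ d), (cw d (c * N ^ d) m : ℂ) * ex (m * β)‖ ≤
      (1 / (N : ℝ)) * (2 * Real.pi * |β| * (c * d * N ^ (d - 1) : ℕ)) := by
    intro n hn
    obtain ⟨hn1, hn2⟩ := Finset.mem_Icc.1 hn
    rw [← Finset.sum_sub_distrib, ← hw n hn, Finset.sum_mul]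
    refine (norm_sum_le _ _).trans (Finset.sum_le_sum ?_)
    intro m hm
    obtain ⟨hm1, hm2⟩ := Finset.mem_Icc.1 hm
    rw [← mul_sub, norm_mul, Complex.norm_real, Real.norm_eq_abs,
      abs_of_nonneg (cw_nonneg d _ m hd (by omega))]
    apply mul_le_mul_of_nonneg_left _ (cw_nonneg d _ m hd (by omega))
    refine (ex_sub_le _ _).trans ?_
    rw [← sub_mul, abs_mul]
    have hdist : |((c * n ^ d : ℕ) : ℝ) - (m : ℝ)| ≤ (c * d * N ^ (d - 1) : ℕ) := by
      have q1 : (m : ℝ) ≤ ((c * n ^ d : ℕ) : ℝ) := by exact_mod_cast hm2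
      have q2 : c * n ^ d ≤ m + c * d * N ^ (d - 1) := by
        have a1 := Vf_pow (n - 1) d hd
        have a2 : n - 1 + 1 = n := by omega
        rw [a2] at a1
        have a3 : n ^ (d - 1) ≤ N ^ (d - 1) := Nat.pow_le_pow_left hn2 _
        calc c * n ^ d ≤ c * ((n - 1) ^ d + d * n ^ (d - 1)) := Nat.mul_le_mul_left c a1
          _ = c * (n - 1) ^ d + c * d * n ^ (d - 1) := by ring
          _ ≤ m + c * d * N ^ (d - 1) := by
              apply add_le_add (by omega)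
              exact Nat.mul_le_mul_left _ a3
      have q3 : ((c * n ^ d : ℕ) : ℝ) ≤ m + (c * d * N ^ (d - 1) : ℕ) := by exact_mod_cast q2
      rw [abs_of_nonneg (by linarith)]
      linarith
    have hpi := Real.pi_pos
    calc 2 * Real.pi * (|((c * n ^ d : ℕ) : ℝ) - (m : ℝ)| * |β|)
        = (2 * Real.pi * |β|) * |((c * n ^ d : ℕ) : ℝ) - (m : ℝ)| := by ring
      _ ≤ (2 * Real.pi * |β|) * (c * d * N ^ (d - 1) : ℕ) := by
          apply mul_le_mul_of_nonneg_left hdist; positivity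
  refine (norm_sum_le _ _).trans ((Finset.sum_le_sum hb).trans ?_)
  rw [Finset.sum_const, Nat.card_Icc, nsmul_eq_mul]
  simp only [Nat.add_sub_cancel]
  apply le_of_eq
  field_simp

end Pool.Agent.BMX
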