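import Pool.Agent.BMX.Fou
import Pool.Agent.BMX.Vf
import Pool.Agent.CAM.Mxe

set_option autoImplicit false

/-! Module HLm: Hardy-Littlewood maximal inequality in `ℓ²(ZMod L)` along multiples of `a`.
`hl`: let `g ≥ 0`, `g*(x) = max_{1 ≤ M ≤ M0} (1/M) ∑_{m=1}^{M} g(x + m a)` (`M0` = max of `Mx`).  Hopf's lemma (`CAM.hopf`, for the uniform probability measure on `ZMod L` and `T x = x + a`, or a direct finite proof): `λ #{g* > λ} ≤ ∑_{g*>λ} g(x + a)..`:
apply it to `x ↦ g (x + a)` so that the sums are over `m = 1..M`.  Then `∑ g*² = ∑_x ∫_0^{g*(x)} 2λ dλ = ∫ 2λ #{g* > λ} dλ ≤ 2 ∫ ∑_x g(x+a) 1[g*(x) > λ] dλ = 2 ∑ g(x + a) g*(x) ≤ 2 ‖g‖₂ ‖g*‖₂`, so `‖g*‖₂ ≤ 2 ‖g‖₂`.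
(Alternatively a discrete layer-cake over the finitely many values of `g*`.)
`hl_V`: `tm_V` and `V_avg` with `g m = ‖f(x + m Q)‖`. -/

open Finset Filter Topology MeasureTheory Polynomial

namespace Pool.Agent.BMX

/-- finite Hopf lemma -/
theorem HLm_hopf {Ω : Type*} [Fintype Ω] (T : Equiv.Perm Ω) (u : Ω → ℝ) (N : ℕ) :
    0 ≤ ∑ x : Ω, (if 0 < CAM.Mxe_M T u N x then u x else 0) := by
  have h1 : ∑ x : Ω, (CAM.Mxe_M T u N x - CAM.Mxe_M T u N (T x)) = 0 := by
    rw [Finset.sum_sub_distrib, Equiv.sum_comp T (fun x => CAM.Mxe_M T u N x), sub_self]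
  refine h1.symm.le.trans ?_
  refine Finset.sum_le_sum fun x _ => ?_
  split_ifs with h
  · exact CAM.Mxe_key T u N x h
  · have h2 := CAM.Mxe_nonneg T u N (T x)
    have h3 : CAM.Mxe_M T u N x ≤ 0 := not_lt.1 h
    linarith

theorem HLm_iter (L : ℕ) [NeZero L] (a : ZMod L) (n : ℕ) (x : ZMod L) :
    (⇑(Equiv.addRight a))^[n] x = x + (n : ZMod L) * a := by
  induction n with
  | zero => simp
  | succ n ih =>
    rw [Function.iterate_succ_apply', ih, Equiv.coe_addRight]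
    push_cast
    ring

theorem HLm_Icc (n : ℕ) (f : ℕ → ℝ) : ∑ m ∈ Icc 1 n, f m = ∑ i ∈ range n, f (i + 1) := by
  induction n with
  | zero => simp
  | succ n ih => rw [Finset.sum_Icc_succ_top (by omega), ih, Finset.sum_range_succ]

theorem HLm_S (L : ℕ) [NeZero L] (a : ZMod L) (g : ZMod L → ℝ) (l : ℝ) (n : ℕ) (x : ZMod L) :
    CAM.Mxe_S (Equiv.addRight a) (fun y => g (y + a) - l) n x =
      (∑ m ∈ Icc 1 n, g (x + (m : ZMod L) * a)) - n * l := by
  unfold CAM.Mxe_S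
  rw [HLm_Icc, Finset.sum_sub_distrib, Finset.sum_const, Finset.card_range, nsmul_eq_mul]
  congr 1
  refine Finset.sum_congr rfl fun i _ => ?_
  rw [HLm_iter]
  congr 1
  push_cast
  ring

/-- the maximal function -/
noncomputable def HLm_star (L : ℕ) [NeZero L] (a : ZMod L) (g : ZMod L → ℝ) (N : ℕ) (hN : 1 ≤ N)
    (x : ZMod L) : ℝ :=
  (Icc 1 N).sup' (Finset.nonempty_Icc.mpr hN) fun n => (1 / (n : ℝ)) * ∑ m ∈ Icc 1 n, g (x + (m : ZMod L) * a)

theorem HLm_lt (L : ℕ) [NeZero L] (a : ZMod L) (g : ZMod L → ℝ) (N : ℕ) (hN : 1 ≤ N) (l : ℝ)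
    (x : ZMod L) :
    l < HLm_star L a g N hN x ↔
      0 < CAM.Mxe_M (Equiv.addRight a) (fun y => g (y + a) - l) N x := by
  rw [CAM.Mxe_pos_iff]
  unfold HLm_star
  rw [Finset.lt_sup'_iff]
  constructor
  · rintro ⟨n, hn, h⟩
    rw [Finset.mem_Icc] at hn
    refine ⟨n, hn.2, ?_⟩
    rw [HLm_S]
    have hn0 : (0 : ℝ) < n := by exact_mod_cast hn.1
    rw [one_div, inv_mul_eq_div, lt_div_iff₀ hn0] at h
    linarith
  · rintro ⟨n, hn, h⟩
    rw [HLm_S] at h
    rcases Nat.eq_zero_or_pos n with h0 | h0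
    · subst h0
      simp at h
    · refine ⟨n, Finset.mem_Icc.mpr ⟨h0, hn⟩, ?_⟩
      have hn0 : (0 : ℝ) < n := by exact_mod_cast h0
      rw [one_div, inv_mul_eq_div, lt_div_iff₀ hn0]
      linarith

theorem HLm_weak (L : ℕ) [NeZero L] (a : ZMod L) (g : ZMod L → ℝ) (N : ℕ) (hN : 1 ≤ N) (l : ℝ) :
    ∑ x : ZMod L, (if l < HLm_star L a g N hN x then l else 0) ≤
      ∑ x : ZMod L, (if l < HLm_star L a g N hN x then g (x + a) else 0) := by
  have h := HLm_hopf (Equiv.addRight a) (fun y => g (y + a) - l) N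
  have h2 : ∑ x : ZMod L, (if 0 < CAM.Mxe_M (Equiv.addRight a) (fun y => g (y + a) - l) N x
      then (fun y => g (y + a) - l) x else 0) =
      ∑ x : ZMod L, ((if l < HLm_star L a g N hN x then g (x + a) else 0) -
        (if l < HLm_star L a g N hN x then l else 0)) := by
    refine Finset.sum_congr rfl fun x _ => ?_
    by_cases hx : l < HLm_star L a g N hN x
    · rw [if_pos hx, if_pos hx, if_pos ((HLm_lt L a g N hN l x).mp hx)]
    · rw [if_neg hx, if_neg hx, if_neg (fun h => hx ((HLm_lt L a g N hN l x).mpr h)), sub_zero]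
  rw [h2, Finset.sum_sub_distrib] at h
  linarith

theorem HLm_int (v K c : ℝ) (hv : 0 ≤ v) (hK : v ≤ K) (f : ℝ → ℝ) (hf : Continuous f)
    (hc : ∫ l in (0 : ℝ)..v, f l = c) :
    IntervalIntegrable (fun l => if l < v then f l else 0) volume 0 K ∧
      ∫ l in (0 : ℝ)..K, (if l < v then f l else 0) = c := by
  have e1 : (fun l => if l < v then f l else 0) = Set.indicator (Set.Iio v) f := by
    funext l
    rw [Set.indicator_apply]
    rfl
  have hi : ∀ x y : ℝ, IntervalIntegrable (fun l => if l < v then f l else 0) volume x y := by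
    intro x y
    rw [e1, intervalIntegrable_iff]
    exact ((intervalIntegrable_iff.mp (hf.intervalIntegrable x y)).indicator measurableSet_Iio)
  refine ⟨hi 0 K, ?_⟩
  rw [← intervalIntegral.integral_add_adjacent_intervals (hi 0 v) (hi v K)]
  have h1 : ∫ l in (0 : ℝ)..v, (if l < v then f l else 0) = ∫ l in (0 : ℝ)..v, f l := by
    refine intervalIntegral.integral_congr_ae ?_
    have : ∀ᵐ l : ℝ, l ≠ v := by
      rw [ae_iff]
      simp only [ne_eq, not_not]
      exact measure_singleton v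
    filter_upwards [this] with l hl hl2
    rw [Set.uIoc_of_le hv] at hl2
    rw [if_pos (lt_of_le_of_ne hl2.2 hl)]
  have h2 : ∫ l in v..K, (if l < v then f l else 0) = 0 := by
    have : ∫ l in v..K, (if l < v then f l else 0) = ∫ l in v..K, (0 : ℝ) := by
      refine intervalIntegral.integral_congr fun l hl => ?_
      rw [Set.uIcc_of_le hK] at hl
      exact if_neg (not_lt.mpr hl.1)
    rw [this]
    simp
  rw [h1, h2, hc, add_zero]

theorem HLm_strong (L : ℕ) [NeZero L] (a : ZMod L) (g : ZMod L → ℝ) (hg : ∀ x, 0 ≤ g x) (N : ℕ)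
    (hN : 1 ≤ N) :
    ∑ x : ZMod L, HLm_star L a g N hN x ^ 2 ≤ 4 * ∑ x : ZMod L, g x ^ 2 := by
  set v : ZMod L → ℝ := HLm_star L a g N hN with hv
  have hv0 : ∀ x, 0 ≤ v x := by
    intro x
    have : (1 / ((1 : ℕ) : ℝ)) * ∑ m ∈ Icc (1 : ℕ) 1, g (x + (m : ZMod L) * a) ≤ v x :=
      Finset.le_sup' (fun n : ℕ => (1 / (n : ℝ)) * ∑ m ∈ Icc 1 n, g (x + (m : ZMod L) * a))
        (Finset.mem_Icc.mpr ⟨le_rfl, hN⟩)
    refine le_trans ?_ this
    exact mul_nonneg (by positivity) (Finset.sum_nonneg fun m _ => hg _)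
  set K : ℝ := ∑ x, v x with hK
  have hvK : ∀ x, v x ≤ K := fun x => Finset.single_le_sum (fun y _ => hv0 y) (Finset.mem_univ x)
  have hK0 : 0 ≤ K := Finset.sum_nonneg fun x _ => hv0 x
  have hA : ∀ x, IntervalIntegrable (fun l => if l < v x then 2 * l else 0) volume 0 K ∧
      ∫ l in (0 : ℝ)..K, (if l < v x then 2 * l else 0) = v x ^ 2 := by
    intro x
    refine HLm_int (v x) K _ (hv0 x) (hvK x) (fun l => 2 * l) (by fun_prop) ?_
    rw [intervalIntegral.integral_const_mul, integral_id]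
    ring
  have hB : ∀ x, IntervalIntegrable (fun l => if l < v x then 2 * g (x + a) else 0) volume 0 K ∧
      ∫ l in (0 : ℝ)..K, (if l < v x then 2 * g (x + a) else 0) = 2 * g (x + a) * v x := by
    intro x
    refine HLm_int (v x) K _ (hv0 x) (hvK x) (fun _ => 2 * g (x + a)) (by fun_prop) ?_
    rw [intervalIntegral.integral_const]
    simp only [smul_eq_mul, sub_zero]
    ring
  have h1 : ∑ x, v x ^ 2 ≤ ∑ x, 2 * g (x + a) * v x := by
    calc ∑ x, v x ^ 2 = ∑ x, ∫ l in (0 : ℝ)..K, (if l < v x then 2 * l else 0) :=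
          Finset.sum_congr rfl fun x _ => (hA x).2.symm
      _ = ∫ l in (0 : ℝ)..K, ∑ x, (if l < v x then 2 * l else 0) :=
          (intervalIntegral.integral_finsetSum fun x _ => (hA x).1).symm
      _ ≤ ∫ l in (0 : ℝ)..K, ∑ x, (if l < v x then 2 * g (x + a) else 0) := by
          have iA := IntervalIntegrable.sum Finset.univ fun x _ => (hA x).1
          have iB := IntervalIntegrable.sum Finset.univ fun x _ => (hB x).1
          rw [Finset.sum_fn] at iA iB
          refine intervalIntegral.integral_mono_on hK0 iA iB fun l _ => ?_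
          have hw := HLm_weak L a g N hN l
          have e1 : ∑ x : ZMod L, (if l < v x then 2 * l else 0) =
              2 * ∑ x : ZMod L, (if l < v x then l else 0) := by
            rw [Finset.mul_sum]
            exact Finset.sum_congr rfl fun x _ => by split_ifs <;> ring
          have e2 : ∑ x : ZMod L, (if l < v x then 2 * g (x + a) else 0) =
              2 * ∑ x : ZMod L, (if l < v x then g (x + a) else 0) := by
            rw [Finset.mul_sum]
            exact Finset.sum_congr rfl fun x _ => by split_ifs <;> ring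
          rw [e1, e2]
          exact mul_le_mul_of_nonneg_left hw (by norm_num)
      _ = ∑ x, ∫ l in (0 : ℝ)..K, (if l < v x then 2 * g (x + a) else 0) :=
          intervalIntegral.integral_finsetSum fun x _ => (hB x).1
      _ = ∑ x, 2 * g (x + a) * v x := Finset.sum_congr rfl fun x _ => (hB x).2
  have h2 : ∑ x, 2 * g (x + a) * v x ≤ ∑ x, (2 * g (x + a) ^ 2 + v x ^ 2 / 2) :=
    Finset.sum_le_sum fun x _ => by nlinarith [sq_nonneg (2 * g (x + a) - v x)]
  rw [Finset.sum_add_distrib, ← Finset.mul_sum, ← Finset.sum_div] at h2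
  have h3 : ∑ x : ZMod L, g (x + a) ^ 2 = ∑ x : ZMod L, g x ^ 2 :=
    Equiv.sum_comp (Equiv.addRight a) (fun x => g x ^ 2)
  rw [h3] at h2
  linarith

theorem hl (L : ℕ) [NeZero L] (a : ZMod L) (g : ZMod L → ℝ) (hg : ∀ x, 0 ≤ g x)
    (Mx : ZMod L → ℕ) (hM : ∀ x, 1 ≤ Mx x) :
    ∑ x : ZMod L, ((1 / (Mx x : ℝ)) * ∑ m ∈ Icc 1 (Mx x), g (x + (m : ZMod L) * a)) ^ 2 ≤
      4 * ∑ x : ZMod L, g x ^ 2 := by
  set N : ℕ := ∑ x, Mx x with hNdef
  have hle : ∀ x, Mx x ≤ N := fun x =>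
    Finset.single_le_sum (f := Mx) (fun y _ => Nat.zero_le _) (Finset.mem_univ x)
  have hN : 1 ≤ N := (hM 0).trans (hle 0)
  refine le_trans ?_ (HLm_strong L a g hg N hN)
  refine Finset.sum_le_sum fun x _ => ?_
  refine pow_le_pow_left₀ (mul_nonneg (by positivity) (Finset.sum_nonneg fun m _ => hg _)) ?_ 2
  exact Finset.le_sup' (fun n : ℕ => (1 / (n : ℝ)) * ∑ m ∈ Icc 1 n, g (x + (m : ZMod L) * a))
    (Finset.mem_Icc.mpr ⟨hM x, hle x⟩)

theorem hl_V (L : ℕ) [NeZero L] (d : ℕ) (hd : 1 ≤ d) (Q : ℤ) (Ms : ℕ → ℕ) (hMs : ∀ j, 1 ≤ Ms j)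
    (f : ZMod L → ℂ) (σ : ZMod L → ℕ) :
    l2 L (sel (fun j => Tm L (fun k => V d (Ms j) ((Q : ℝ) * th L k)) f) σ) ≤ 2 * l2 L f := by
  have key : ∀ x : ZMod L, ∃ M' : ℕ, 1 ≤ M' ∧
      ‖sel (fun j => Tm L (fun k => V d (Ms j) ((Q : ℝ) * th L k)) f) σ x‖ ≤
        (1 / (M' : ℝ)) * ∑ m ∈ Icc 1 M', ‖f (x + (m : ZMod L) * (Q : ZMod L))‖ := by
    intro x
    obtain ⟨M', h1, -, h3⟩ := V_avg d (Ms (σ x)) hd (hMs _)
      (fun m => ‖f (x + (m : ZMod L) * (Q : ZMod L))‖) (fun m => norm_nonneg _)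
    refine ⟨M', h1, le_trans ?_ h3⟩
    unfold sel
    simp only
    rw [tm_V]
    refine (norm_sum_le _ _).trans (le_of_eq ?_)
    refine Finset.sum_congr rfl fun m hm => ?_
    rw [Finset.mem_Icc] at hm
    rw [norm_mul, Complex.norm_real, Real.norm_eq_abs, abs_of_nonneg (cw_nonneg d _ m hd hm.1)]
    push_cast
    rfl
  choose Mx hM1 hM2 using key
  have h := hl L (Q : ZMod L) (fun x => ‖f x‖) (fun x => norm_nonneg _) Mx hM1
  unfold l2
  have e : (2 : ℝ) * √(∑ x : ZMod L, ‖f x‖ ^ 2) = √(4 * ∑ x : ZMod L, ‖f x‖ ^ 2) := by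
    rw [Real.sqrt_mul (by norm_num), show (4 : ℝ) = 2 ^ 2 by norm_num,
      Real.sqrt_sq (by norm_num)]
  rw [e]
  refine Real.sqrt_le_sqrt (le_trans ?_ h)
  exact Finset.sum_le_sum fun x _ => pow_le_pow_left₀ (norm_nonneg _) (hM2 x) 2

end Pool.Agent.BMX
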