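import Pool.Agent.BMX.Err
import Pool.Agent.BMX.HLm

set_option autoImplicit false

/-! Module Lrg: large scales.  `Qs s = 2^(2s+2) (2^(s+1))!`: every `q < 2^(s+1)` divides it, and `1/(4 Qs) ≤ ws s`.  `σ = sg p = ±1`, `M_j = MN p (2^j) = |c| 2^{jd}`, `M'_j = (M_j + Q - 1)/Q`.
`Nar s θ` = number (0 or 1) of `x ∈ Rs s` with `nn (θ - fr x) ≤ 1/(4Q)`.
`large_mult`: for `2^j ≥ Q = Qs s`: `‖Psi p s (2^j) θ - Nar s θ * V d M'_j (sg p * Q * θ)‖ ≤ C (Q 2^{-j} + 2^{-j/2})`.
 Case `nn(θ - a/q) ≤ 1/(4Q)`: `β = θ - a/q - round(..)`, `|β| = nn ≤ 1/(4Q)`; `Q θ ≡ Q β` mod `1` as `q ∣ Q`; so the difference is `‖V d M_j (σβ) - V d M'_j (σQβ)‖`, `≤ 2πQ|β| + 2Q/M_j` (`V_step`) and also `≤ 4 (M_j |β|)^{-1/d} + 4 (M'_j Q |β|)^{-1/d} ≤ 8 (M_j |β|)^{-1/d}`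
  (`V_decay`, `nn (Qβ) = Q|β|`, `Q M'_j ≥ M_j`).  For `|β| ≤ 2^{-jd/2}` use the first (`≤ 2πQ 2^{-j} + 2Q 2^{-j}`), otherwise the second: `8 · 2^{-j/2}`.
 Case `1/(4Q) < nn(θ - a/q) ≤ ws s`: `‖VV‖ ≤ 4 (M_j/(4Q))^{-1/d} ≤ 4 (4Q)^{1/d} 2^{-j} ≤ 16 Q 2^{-j}`.  Otherwise both are `0`.
`large`: `Tm (Psi_j) g = Tm (Psi_j - Nar V_j) g + Tm (V_j) (Tm Nar g)`; the first: `l2_sel_le`, `tm_sq` with `∑_{j : 2^j ≥ Q} (C(Q 2^{-j} + 2^{-j/2}))² ≤ B²`; the second: `hl_V` (`sg p * Q` integer), `l2 (Tm Nar g) ≤ l2 g`. -/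

open Finset Filter Topology MeasureTheory Polynomial

namespace Pool.Agent.BMX

/-- common denominator -/
def Qs (s : ℕ) : ℕ := 2 ^ (2 * s + 2) * (2 ^ (s + 1)).factorial

/-- indicator of the narrow neighbourhoods -/
noncomputable def Nar (s : ℕ) (θ : ℝ) : ℂ :=
  open Classical in ∑ x ∈ Rs s, if nn (θ - fr x) ≤ 1 / (4 * Qs s) then 1 else 0

private theorem Qs_pos (s : ℕ) : 1 ≤ Qs s := Nat.mul_pos (by positivity) (Nat.factorial_pos _)

private theorem Qs_ge (s : ℕ) : 2 ^ (2 * s + 2) ≤ Qs s :=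
  Nat.le_mul_of_pos_right _ (Nat.factorial_pos _)

private theorem narrow_le (s : ℕ) : 1 / (4 * (Qs s : ℝ)) ≤ ws s := by
  unfold ws
  apply one_div_le_one_div_of_le (by positivity)
  have h : ((2 : ℝ) ^ (2 * s + 2)) ≤ Qs s := by exact_mod_cast Qs_ge s
  calc (2 : ℝ) ^ (2 * s + 4) = 4 * 2 ^ (2 * s + 2) := by ring
    _ ≤ 4 * Qs s := by linarith

private theorem Nar_one (s : ℕ) (θ : ℝ) {x : ℕ × ℕ} (hx : x ∈ Rs s)
    (hx' : nn (θ - fr x) ≤ 1 / (4 * Qs s)) : Nar s θ = 1 := by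
  classical
  unfold Nar
  rw [Finset.sum_eq_single x]
  · rw [if_pos hx']
  · intro y hy hyx
    rw [if_neg]
    intro hy'
    exact hyx (near_unique s θ hy hx (hy'.trans (narrow_le s)) (hx'.trans (narrow_le s)))
  · intro h
    exact absurd hx h

private theorem Nar_zero (s : ℕ) (θ : ℝ) (h : ∀ x ∈ Rs s, ¬ nn (θ - fr x) ≤ 1 / (4 * Qs s)) :
    Nar s θ = 0 := by
  classical
  unfold Nar
  exact Finset.sum_eq_zero fun x hx => if_neg (h x hx)

private theorem Nar_le (s : ℕ) (θ : ℝ) : ‖Nar s θ‖ ≤ 1 := by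
  by_cases h : ∃ x ∈ Rs s, nn (θ - fr x) ≤ 1 / (4 * Qs s)
  · obtain ⟨x, hx, hx'⟩ := h
    rw [Nar_one s θ hx hx', norm_one]
  · push Not at h
    rw [Nar_zero s θ (fun x hx hx' => absurd hx' (not_le.2 (h x hx))), norm_zero]
    exact zero_le_one

private theorem root_le {d : ℕ} (hd : 1 ≤ d) {w z : ℝ} (hw : 0 < w) (h : w ^ d ≤ z) :
    z ^ (-(1 / (d : ℝ))) ≤ w⁻¹ := by
  have hd0 : (d : ℝ) ≠ 0 := by exact_mod_cast (by omega : d ≠ 0)
  have h1 : z ^ (-(1 / (d : ℝ))) ≤ (w ^ d) ^ (-(1 / (d : ℝ))) := by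
    apply Real.rpow_le_rpow_of_nonpos (by positivity) h
    simp
  refine h1.trans (le_of_eq ?_)
  rw [← Real.rpow_natCast, ← Real.rpow_mul hw.le]
  have : (d : ℝ) * -(1 / (d : ℝ)) = -1 := by field_simp
  rw [this, Real.rpow_neg_one]

private theorem lead_ne (p : ℤ[X]) (hd : 2 ≤ p.natDegree) : p.leadingCoeff ≠ 0 := by
  intro h
  rw [leadingCoeff_eq_zero] at h
  rw [h, natDegree_zero] at hd
  omega

private theorem MN_ge (p : ℤ[X]) (hd : 2 ≤ p.natDegree) (j : ℕ) :
    ((2 : ℝ) ^ j) ^ p.natDegree ≤ (MN p (2 ^ j) : ℝ) := by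
  unfold MN
  push_cast
  have h1 : (1 : ℝ) ≤ (p.leadingCoeff.natAbs : ℝ) := by
    have := Int.natAbs_pos.2 (lead_ne p hd)
    exact_mod_cast this
  have h2 : (0 : ℝ) ≤ ((2 : ℝ) ^ j) ^ p.natDegree := by positivity
  nlinarith

private theorem sg_eq (p : ℤ[X]) (hd : 2 ≤ p.natDegree) : sg p = 1 ∨ sg p = -1 := by
  unfold sg
  rcases lt_trichotomy p.leadingCoeff 0 with h | h | h
  · right; rw [Int.sign_eq_neg_one_of_neg h]; norm_num
  · exact absurd h (lead_ne p hd)
  · left; rw [Int.sign_eq_one_of_pos h]; norm_num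

private theorem nn_sg (p : ℤ[X]) (hd : 2 ≤ p.natDegree) (y : ℝ) : nn (sg p * y) = nn y := by
  rcases sg_eq p hd with h | h
  · rw [h, one_mul]
  · rw [h, neg_one_mul, nn_neg]

private theorem abs_sg (p : ℤ[X]) (hd : 2 ≤ p.natDegree) (y : ℝ) : |sg p * y| = |y| := by
  rcases sg_eq p hd with h | h
  · rw [h, one_mul]
  · rw [h, neg_one_mul, abs_neg]

theorem large_mult (p : ℤ[X]) (hd : 2 ≤ p.natDegree) : ∃ C : ℝ, 1 ≤ C ∧ ∀ (s j : ℕ) (θ : ℝ),
    Qs s ≤ 2 ^ j →
    ‖Psi p s (2 ^ j) θ - Nar s θ *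
      V p.natDegree ((MN p (2 ^ j) + Qs s - 1) / Qs s) (sg p * Qs s * θ)‖ ≤
      C * (Qs s * 2 ^ (-(j : ℝ)) + 2 ^ (-(j : ℝ) / 2)) := by
  refine ⟨16, by norm_num, ?_⟩
  intro s j θ hQj
  set d := p.natDegree with hdd
  set Q := Qs s with hQ
  have hQ1 : 1 ≤ Q := Qs_pos s
  have hQ1' : (1 : ℝ) ≤ Q := by exact_mod_cast hQ1
  have hd1 : 1 ≤ d := by omega
  have hp1 : (0 : ℝ) < 2 ^ (-(j : ℝ)) := by positivity
  have hp2 : (0 : ℝ) < 2 ^ (-(j : ℝ) / 2) := by positivity
  have hpow : (2 : ℝ) ^ (-(j : ℝ)) = ((2 : ℝ) ^ j)⁻¹ := by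
    rw [Real.rpow_neg (by norm_num), Real.rpow_natCast]
  have hRHS : 0 ≤ 16 * (Q * (2 : ℝ) ^ (-(j : ℝ)) + 2 ^ (-(j : ℝ) / 2)) := by positivity
  have hM := MN_ge p hd j
  rw [← hdd] at hM
  have hMpos : (1 : ℝ) ≤ (MN p (2 ^ j) : ℝ) := by
    refine le_trans ?_ hM
    apply one_le_pow₀
    exact one_le_pow₀ (by norm_num)
  have hMpos' : 1 ≤ MN p (2 ^ j) := by exact_mod_cast hMpos
  by_cases hex : ∃ x ∈ Rs s, nn (θ - fr x) ≤ ws s
  · obtain ⟨x, hx, hxw⟩ := hex
    have hPsi := (chi_psi p s (2 ^ j) θ hx hxw).2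
    rw [hPsi]
    by_cases hn : nn (θ - fr x) ≤ 1 / (4 * Q)
    · -- narrow
      rw [Nar_one s θ hx hn, one_mul]
      set y := θ - fr x with hy
      set β := y - round y with hβ
      have hβnn : |β| = nn y := rfl
      have hβle : |β| ≤ 1 / (4 * Q) := by rw [hβnn]; exact hn
      -- `V` at `sg * y`
      have e1 : VV p (2 ^ j) y = V d (MN p (2 ^ j)) (sg p * β) := by
        unfold VV
        rw [← hdd]
        have : sg p * y = sg p * β + ((p.leadingCoeff.sign * round y : ℤ) : ℝ) := by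
          rw [hβ]
          unfold sg
          push_cast
          ring
        rw [this, V_add_int]
      have hqQ : x.2 ∣ Q := by
        rw [hQ]
        unfold Qs
        apply Dvd.dvd.mul_left
        have hx2 := hx
        unfold Rs at hx2
        rw [Finset.mem_filter, Finset.mem_product, Finset.mem_range, Finset.mem_Ico] at hx2
        exact Nat.dvd_factorial (by omega) (by omega)
      have hx20 : (x.2 : ℝ) ≠ 0 := by
        intro h0
        have h0' : x.2 = 0 := by exact_mod_cast h0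
        rw [h0', zero_dvd_iff] at hqQ
        omega
      obtain ⟨r, hr⟩ := hqQ
      have hfr : (Q : ℝ) * fr x = ((r * x.1 : ℕ) : ℝ) := by
        unfold fr
        rw [hr]
        push_cast
        field_simp
      have e2 : V d ((MN p (2 ^ j) + Q - 1) / Q) (sg p * Q * θ) =
          V d ((MN p (2 ^ j) + Q - 1) / Q) (Q * (sg p * β)) := by
        have : sg p * Q * θ = Q * (sg p * β) +
            ((p.leadingCoeff.sign * (Q * round y + (r * x.1 : ℕ)) : ℤ) : ℝ) := by
          have h1 : θ = β + round y + fr x := by rw [hβ, hy]; ring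
          have h2 : sg p * Q * θ = Q * (sg p * β) + sg p * (Q * round y + Q * fr x) := by
            conv_lhs => rw [h1]
            ring
          rw [h2, hfr]
          unfold sg
          push_cast
          ring
        rw [this, V_add_int]
      rw [e1, e2]
      -- powers
      set w : ℝ := (2 : ℝ) ^ ((j : ℝ) / 2) with hw
      have hw0 : 0 < w := by positivity
      have hw1 : 1 ≤ w := Real.one_le_rpow (by norm_num) (by positivity)
      have hw2 : w ^ 2 = 2 ^ j := by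
        rw [hw, ← Real.rpow_natCast, ← Real.rpow_mul (by norm_num)]
        push_cast
        rw [div_mul_cancel₀ _ (by norm_num : (2 : ℝ) ≠ 0), Real.rpow_natCast]
      have hwinv : (2 : ℝ) ^ (-(j : ℝ) / 2) = w⁻¹ := by
        rw [hw, ← Real.rpow_neg (by norm_num)]
        congr 1
        ring
      by_cases hsmall : |β| ≤ (w ^ d)⁻¹
      · -- first bound
        have h1 := V_step d (MN p (2 ^ j)) Q hd1 hMpos' hQ1 (sg p * β)
        rw [abs_sg p hd] at h1
        rw [← norm_neg, neg_sub]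
        refine h1.trans ?_
        have h2 : |β| ≤ ((2 : ℝ) ^ j)⁻¹ := by
          refine hsmall.trans ?_
          rw [← hw2]
          apply inv_anti₀ (by positivity)
          exact pow_le_pow_right₀ hw1 hd
        have h3 : 2 * (Q : ℝ) / MN p (2 ^ j) ≤ 2 * Q * ((2 : ℝ) ^ j)⁻¹ := by
          rw [div_eq_mul_inv]
          apply mul_le_mul_of_nonneg_left _ (by positivity)
          apply inv_anti₀ (by positivity)
          refine le_trans ?_ hM
          exact le_self_pow₀ (one_le_pow₀ (by norm_num)) (by omega)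
        have h4 : 2 * Real.pi * Q * |β| ≤ 2 * Real.pi * Q * ((2 : ℝ) ^ j)⁻¹ :=
          mul_le_mul_of_nonneg_left h2 (by positivity)
        have hpi := Real.pi_lt_four
        rw [hpow]
        have h5 : 0 ≤ (Q : ℝ) * ((2 : ℝ) ^ j)⁻¹ := by positivity
        have h6 : 2 * Real.pi * Q * ((2 : ℝ) ^ j)⁻¹ ≤ 8 * (Q * ((2 : ℝ) ^ j)⁻¹) := by
          have : 2 * Real.pi * Q * ((2 : ℝ) ^ j)⁻¹ = (2 * Real.pi) * (Q * ((2 : ℝ) ^ j)⁻¹) := by
            ring
          rw [this]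
          exact mul_le_mul_of_nonneg_right (by linarith) h5
        nlinarith
      · -- second bound
        rw [not_le] at hsmall
        have hβ0 : 0 < |β| := lt_trans (by positivity) hsmall
        have h14 : (1 : ℝ) / (4 * Q) ≤ 1 / 4 := by
          apply one_div_le_one_div_of_le (by norm_num)
          linarith
        have hnn1 : nn (sg p * β) = |β| := by
          rw [nn_sg p hd, nn_eq_abs (by linarith)]
        have hQβ : (Q : ℝ) * |β| ≤ 1 / 4 := by
          calc (Q : ℝ) * |β| ≤ Q * (1 / (4 * Q)) := by gcongr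
            _ = 1 / 4 := by field_simp
        have hnn2 : nn (Q * (sg p * β)) = Q * |β| := by
          have : (Q : ℝ) * (sg p * β) = sg p * (Q * β) := by ring
          rw [this, nn_sg p hd, nn_eq_abs]
          · rw [abs_mul, abs_of_nonneg (by positivity)]
          · rw [abs_mul, abs_of_nonneg (by positivity)]
            linarith
        have hMβ : w ^ d ≤ (MN p (2 ^ j) : ℝ) * |β| := by
          have h1 : w ^ d = (w ^ 2) ^ d * (w ^ d)⁻¹ := by
            rw [← pow_mul, mul_comm 2 d, pow_mul, sq]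
            field_simp
          rw [h1, hw2]
          exact mul_le_mul hM hsmall.le (by positivity) (by linarith)
        have hM'1 : 1 ≤ (MN p (2 ^ j) + Q - 1) / Q := by
          rw [Nat.le_div_iff_mul_le (by omega)]
          omega
        have hM'Q : (MN p (2 ^ j) : ℝ) ≤ (((MN p (2 ^ j) + Q - 1) / Q : ℕ) : ℝ) * Q := by
          have : MN p (2 ^ j) ≤ ((MN p (2 ^ j) + Q - 1) / Q) * Q := by
            have h1 := Nat.div_add_mod (MN p (2 ^ j) + Q - 1) Q
            have h2 := Nat.mod_lt (MN p (2 ^ j) + Q - 1) (by omega : Q > 0)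
            rw [mul_comm] at h1
            omega
          exact_mod_cast this
        have b1 := V_decay d (MN p (2 ^ j)) hd1 hMpos' (sg p * β) (by rw [hnn1]; exact hβ0)
        have b2 := V_decay d ((MN p (2 ^ j) + Q - 1) / Q) hd1 hM'1 (Q * (sg p * β))
          (by rw [hnn2]; positivity)
        rw [hnn1] at b1
        rw [hnn2] at b2
        have r1 := root_le hd1 hw0 hMβ
        have r2 : ((((MN p (2 ^ j) + Q - 1) / Q : ℕ) : ℝ) * (Q * |β|)) ^ (-(1 / (d : ℝ))) ≤ w⁻¹ := by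
          apply root_le hd1 hw0
          refine hMβ.trans ?_
          rw [← mul_assoc]
          exact mul_le_mul_of_nonneg_right hM'Q hβ0.le
        rw [hwinv]
        have hwi : 0 < w⁻¹ := by positivity
        calc ‖V d (MN p (2 ^ j)) (sg p * β) - V d ((MN p (2 ^ j) + Q - 1) / Q) (Q * (sg p * β))‖
            ≤ ‖V d (MN p (2 ^ j)) (sg p * β)‖ +
              ‖V d ((MN p (2 ^ j) + Q - 1) / Q) (Q * (sg p * β))‖ := norm_sub_le _ _
          _ ≤ 4 * w⁻¹ + 4 * w⁻¹ := by linarith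
          _ ≤ 16 * (Q * (2 : ℝ) ^ (-(j : ℝ)) + w⁻¹) := by
              have : 0 ≤ (Q : ℝ) * (2 : ℝ) ^ (-(j : ℝ)) := by positivity
              linarith
    · -- intermediate
      have hNar : Nar s θ = 0 := by
        apply Nar_zero
        intro x' hx' hxn
        have : x' = x := near_unique s θ hx' hx (hxn.trans (narrow_le s)) hxw
        rw [this] at hxn
        exact hn hxn
      rw [hNar, zero_mul, sub_zero]
      rw [not_le] at hn
      have hnpos : 0 < nn (θ - fr x) := lt_trans (by positivity) hn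
      unfold VV
      rw [← hdd]
      have b1 := V_decay d (MN p (2 ^ j)) hd1 hMpos' (sg p * (θ - fr x))
        (by rw [nn_sg p hd]; exact hnpos)
      rw [nn_sg p hd] at b1
      have hr : ((MN p (2 ^ j) : ℝ) * nn (θ - fr x)) ^ (-(1 / (d : ℝ))) ≤
          ((2 : ℝ) ^ j / (4 * Q))⁻¹ := by
        apply root_le hd1 (by positivity)
        rw [div_pow]
        calc ((2 : ℝ) ^ j) ^ d / (4 * Q) ^ d ≤ ((2 : ℝ) ^ j) ^ d / (4 * Q) := by
              apply div_le_div_of_nonneg_left (by positivity) (by positivity)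
              exact le_self_pow₀ (by linarith) (by omega)
          _ = ((2 : ℝ) ^ j) ^ d * (1 / (4 * Q)) := by ring
          _ ≤ _ := mul_le_mul hM hn.le (by positivity) (by linarith)
      rw [inv_div] at hr
      rw [hpow]
      calc ‖V d (MN p (2 ^ j)) (sg p * (θ - fr x))‖ ≤ 4 * (4 * Q / 2 ^ j) := by linarith
        _ = 16 * (Q * ((2 : ℝ) ^ j)⁻¹) := by ring
        _ ≤ 16 * (Q * ((2 : ℝ) ^ j)⁻¹ + 2 ^ (-(j : ℝ) / 2)) := by linarith
  · have hex' : ∀ x ∈ Rs s, ¬ nn (θ - fr x) ≤ ws s := fun x hx hxw => hex ⟨x, hx, hxw⟩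
    rw [(chi_psi_zero p s (2 ^ j) θ hex').2]
    have hNar : Nar s θ = 0 := by
      apply Nar_zero
      intro x' hx' hxn
      exact hex' x' hx' (hxn.trans (narrow_le s))
    rw [hNar, zero_mul, sub_zero, norm_zero]
    exact hRHS

private theorem geo_sum (S : Finset ℕ) (j1 : ℕ) (h : ∀ j ∈ S, j1 ≤ j) :
    ∑ j ∈ S, ((1 : ℝ) / 2) ^ (j - j1) ≤ 2 := by
  classical
  have hinj : Set.InjOn (fun j => j - j1) S := by
    intro a ha b hb hab
    have h1 := h a ha
    have h2 := h b hb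
    simp only at hab
    omega
  rw [← Finset.sum_image (f := fun i => ((1 : ℝ) / 2) ^ i) hinj]
  have h1 := summable_geometric_two.sum_le_tsum (S.image (fun j => j - j1))
    (fun i _ => by positivity)
  rw [tsum_geometric_two] at h1
  exact h1

theorem large (p : ℤ[X]) (hd : 2 ≤ p.natDegree) : ∃ B : ℝ, 1 ≤ B ∧ ∀ (L : ℕ) [NeZero L]
    (s : ℕ) (g : ZMod L → ℂ) (σ : ZMod L → ℕ), (∀ x, Qs s ≤ 2 ^ (σ x)) →
    l2 L (sel (fun j => Tm L (fun k => Psi p s (2 ^ j) (th L k)) g) σ) ≤ B * l2 L g := by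
  classical
  obtain ⟨C, hC1, hC⟩ := large_mult p hd
  refine ⟨3 * C + 2, by linarith, ?_⟩
  intro L _ s g σ hσ
  set W : ℕ → ZMod L → ℂ := fun j k =>
    V p.natDegree ((MN p (2 ^ j) + Qs s - 1) / Qs s) (sg p * Qs s * th L k) with hW
  set D : ℕ → ZMod L → ℂ := fun j k =>
    Psi p s (2 ^ j) (th L k) - W j k * Nar s (th L k) with hD
  have hQ1 : 1 ≤ Qs s := Qs_pos s
  -- decomposition
  have hdec : ∀ j x, Tm L (fun k => Psi p s (2 ^ j) (th L k)) g x =
      Tm L (D j) g x + Tm L (W j) (Tm L (fun k => Nar s (th L k)) g) x := by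
    intro j x
    rw [tm_comp, ← tm_add]
    congr 1
    funext k
    simp only [hD]
    ring
  have hsel : l2 L (sel (fun j => Tm L (fun k => Psi p s (2 ^ j) (th L k)) g) σ) ≤
      l2 L (sel (fun j => Tm L (D j) g) σ) +
      l2 L (sel (fun j => Tm L (W j) (Tm L (fun k => Nar s (th L k)) g)) σ) := by
    have := l2_add L (sel (fun j => Tm L (D j) g) σ)
      (sel (fun j => Tm L (W j) (Tm L (fun k => Nar s (th L k)) g)) σ)
    refine le_trans (le_of_eq ?_) this
    congr 1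
    funext x
    exact hdec (σ x) x
  have hg0 := l2_nonneg L g
  -- first part
  have h1 : l2 L (sel (fun j => Tm L (D j) g) σ) ≤ 3 * C * l2 L g := by
    set S : Finset ℕ := Finset.univ.image σ with hS
    refine (l2_sel_le L S _ σ (fun x => Finset.mem_image_of_mem σ (Finset.mem_univ x))).trans ?_
    apply tm_sq L S D (3 * C) (by linarith)
    intro k
    have hSj : ∀ j ∈ S, Nat.clog 2 (Qs s) ≤ j := by
      intro j hj
      obtain ⟨x, _, rfl⟩ := Finset.mem_image.1 hj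
      exact Nat.clog_le_of_le_pow (hσ x)
    have hterm : ∀ j ∈ S, ‖D j k‖ ^ 2 ≤ 4 * C ^ 2 * ((1 : ℝ) / 2) ^ (j - Nat.clog 2 (Qs s)) := by
      intro j hj
      have hj1 := hSj j hj
      have hQj : Qs s ≤ 2 ^ j := by
        obtain ⟨x, _, rfl⟩ := Finset.mem_image.1 hj
        exact hσ x
      have hb := hC s j (th L k) hQj
      have hDn : ‖D j k‖ ≤ C * (Qs s * (2 : ℝ) ^ (-(j : ℝ)) + 2 ^ (-(j : ℝ) / 2)) := by
        refine le_trans (le_of_eq ?_) hb
        congr 1
        simp only [hD, hW]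
        ring
      have hpow : (2 : ℝ) ^ (-(j : ℝ)) = ((2 : ℝ) ^ j)⁻¹ := by
        rw [Real.rpow_neg (by norm_num), Real.rpow_natCast]
      have hhalf : ((2 : ℝ) ^ (-(j : ℝ) / 2)) ^ 2 = ((2 : ℝ) ^ j)⁻¹ := by
        rw [← hpow, ← Real.rpow_natCast, ← Real.rpow_mul (by norm_num)]
        congr 1
        push_cast
        ring
      set a : ℝ := Qs s * (2 : ℝ) ^ (-(j : ℝ)) with ha
      set b : ℝ := (2 : ℝ) ^ (-(j : ℝ) / 2) with hb'
      set t : ℝ := ((1 : ℝ) / 2) ^ (j - Nat.clog 2 (Qs s)) with ht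
      have ht1 : t ≤ 1 := pow_le_one₀ (by norm_num) (by norm_num)
      have ht0 : 0 < t := by positivity
      have ht' : t = 2 ^ (Nat.clog 2 (Qs s)) * ((2 : ℝ) ^ j)⁻¹ := by
        rw [ht, one_div, inv_pow, pow_sub₀ _ (by norm_num) hj1]
        field_simp
      have ha0 : 0 ≤ a := by positivity
      have hat : a ≤ t := by
        rw [ha, hpow, ht']
        apply mul_le_mul_of_nonneg_right _ (by positivity)
        exact_mod_cast Nat.le_pow_clog (by norm_num) (Qs s)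
      have hbt : b ^ 2 ≤ t := by
        rw [hhalf, ht']
        have : (1 : ℝ) ≤ 2 ^ (Nat.clog 2 (Qs s)) := one_le_pow₀ (by norm_num)
        have h0 : (0 : ℝ) < ((2 : ℝ) ^ j)⁻¹ := by positivity
        nlinarith
      have hat2 : a ^ 2 ≤ t := by nlinarith
      calc ‖D j k‖ ^ 2 ≤ (C * (a + b)) ^ 2 := by
            apply pow_le_pow_left₀ (norm_nonneg _) hDn
        _ = C ^ 2 * (a + b) ^ 2 := by ring
        _ ≤ C ^ 2 * (4 * t) := by
            apply mul_le_mul_of_nonneg_left _ (by positivity)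
            nlinarith [sq_nonneg (a - b)]
        _ = 4 * C ^ 2 * t := by ring
    calc ∑ j ∈ S, ‖D j k‖ ^ 2
        ≤ ∑ j ∈ S, 4 * C ^ 2 * ((1 : ℝ) / 2) ^ (j - Nat.clog 2 (Qs s)) :=
          Finset.sum_le_sum hterm
      _ = 4 * C ^ 2 * ∑ j ∈ S, ((1 : ℝ) / 2) ^ (j - Nat.clog 2 (Qs s)) := by
          rw [Finset.mul_sum]
      _ ≤ 4 * C ^ 2 * 2 :=
          mul_le_mul_of_nonneg_left (geo_sum S _ hSj) (by positivity)
      _ ≤ (3 * C) ^ 2 := by nlinarith
  -- second part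
  have h2 : l2 L (sel (fun j => Tm L (W j) (Tm L (fun k => Nar s (th L k)) g)) σ) ≤
      2 * l2 L g := by
    have hW' : W = fun j k => V p.natDegree ((MN p (2 ^ j) + Qs s - 1) / Qs s)
        (((p.leadingCoeff.sign * (Qs s : ℤ) : ℤ) : ℝ) * th L k) := by
      funext j k
      simp only [hW, sg]
      push_cast
      rfl
    have hMs : ∀ j, 1 ≤ (MN p (2 ^ j) + Qs s - 1) / Qs s := by
      intro j
      have hMpos' : 1 ≤ MN p (2 ^ j) := by
        have hM := MN_ge p hd j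
        have : (1 : ℝ) ≤ (MN p (2 ^ j) : ℝ) := by
          refine le_trans ?_ hM
          apply one_le_pow₀
          exact one_le_pow₀ (by norm_num)
        exact_mod_cast this
      rw [Nat.le_div_iff_mul_le (by omega)]
      omega
    have h3 := hl_V L p.natDegree (by omega) (p.leadingCoeff.sign * (Qs s : ℤ))
      (fun j => (MN p (2 ^ j) + Qs s - 1) / Qs s) hMs (Tm L (fun k => Nar s (th L k)) g) σ
    have h4 := tm_bd L (fun k => Nar s (th L k)) 1 zero_le_one (fun k => Nar_le s _) g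
    rw [hW']
    refine h3.trans ?_
    linarith
  refine hsel.trans ?_
  linarith

end Pool.Agent.BMX
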