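import Pool.Agent.BMX.Sml
import Pool.Agent.BMX.Lrg

set_option autoImplicit false

/-! Module Asm: the dyadic maximal inequality on `ZMod L`.
`one_s`: `m = 2s + 5`: if `2^m < j` then `Qs s ≤ 2^j` (`(2^(s+1))! ≤ 2^{(s+1) 2^(s+1)}`, `(s+1) 2^(s+1) + 2s + 2 ≤ 2^(2s+5)`).  Split `σ` into the points with `σ x ≤ 2^m` and the others: `σ1 = min σ (2^m)`, `σ2 = max σ (2^m + 1)`;
`‖F (σ x) x‖² ≤ ‖F (σ1 x) x‖² + ‖F (σ2 x) x‖²`; `small`, `large`: bound `B (2s + 8) l2 g`.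
`dyadic`: `Tm (mm_j) f = Tm (E_j) f + ∑_{s ≤ j/4} Tm (Psi_{s,j}) (Tm Chi_s f)`, `E_j` the error multiplier (`err`).  `sel` of the first: `l2_sel_le`, `tm_sq`: `(∑_j C² 2^{-2δj})^{1/2}`.  The sum over `s`: pointwise
`‖∑_{s ≤ σ(x)/4} ...‖ ≤ ∑_{s ≤ S} ‖sel (..) σ x‖` with `S = max σ`, `l2_sum`, `one_s`, and `l2 (Tm Chi_s f) ≤ C 2^{-δs} l2 f` (`chi_bd`, `tm_bd`); `∑_s (2s + 8) 2^{-δs} < ∞`.  Then `tm_avg`. -/

open Finset Filter Topology MeasureTheory Polynomial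

namespace Pool.Agent.BMX

theorem Asm_norm (L : ℕ) [NeZero L] (f : ZMod L → ℂ) : l2 L (fun x => ((‖f x‖ : ℝ) : ℂ)) = l2 L f := by
  unfold l2
  congr 1
  refine Finset.sum_congr rfl fun x _ => ?_
  rw [Complex.norm_real, Real.norm_eq_abs, abs_of_nonneg (norm_nonneg _)]

/-- pointwise bound by a sum of norms -/
theorem Asm_add (L : ℕ) [NeZero L] (h f g : ZMod L → ℂ) (H : ∀ x, ‖h x‖ ≤ ‖f x‖ + ‖g x‖) :
    l2 L h ≤ l2 L f + l2 L g := by
  calc l2 L h ≤ l2 L (fun x => ((‖f x‖ : ℝ) : ℂ) + ((‖g x‖ : ℝ) : ℂ)) := by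
        refine l2_mono L _ _ fun x => (H x).trans (le_of_eq ?_)
        rw [← Complex.ofReal_add, Complex.norm_real, Real.norm_eq_abs,
          abs_of_nonneg (add_nonneg (norm_nonneg _) (norm_nonneg _))]
    _ ≤ l2 L (fun x => ((‖f x‖ : ℝ) : ℂ)) + l2 L (fun x => ((‖g x‖ : ℝ) : ℂ)) := l2_add L _ _
    _ = l2 L f + l2 L g := by rw [Asm_norm, Asm_norm]

theorem Asm_sum (L : ℕ) [NeZero L] {ι : Type*} (S : Finset ι) (h : ZMod L → ℂ)
    (F : ι → ZMod L → ℂ) (H : ∀ x, ‖h x‖ ≤ ∑ i ∈ S, ‖F i x‖) :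
    l2 L h ≤ ∑ i ∈ S, l2 L (F i) := by
  calc l2 L h ≤ l2 L (fun x => ∑ i ∈ S, ((‖F i x‖ : ℝ) : ℂ)) := by
        refine l2_mono L _ _ fun x => (H x).trans (le_of_eq ?_)
        rw [← Complex.ofReal_sum, Complex.norm_real, Real.norm_eq_abs,
          abs_of_nonneg (Finset.sum_nonneg fun i _ => norm_nonneg _)]
    _ ≤ ∑ i ∈ S, l2 L (fun x => ((‖F i x‖ : ℝ) : ℂ)) :=
        l2_sum L S (fun i x => ((‖F i x‖ : ℝ) : ℂ))
    _ = ∑ i ∈ S, l2 L (F i) := Finset.sum_congr rfl fun i _ => Asm_norm L (F i)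

theorem Asm_Qs (s j : ℕ) (hj : 2 ^ (2 * s + 5) < j) : Qs s ≤ 2 ^ j := by
  unfold Qs
  have h1 : (2 ^ (s + 1)).factorial ≤ 2 ^ ((s + 1) * 2 ^ (s + 1)) := by
    rw [pow_mul]
    exact Nat.factorial_le_pow _
  have h2 : s + 1 ≤ 2 ^ (s + 1) := Nat.lt_two_pow_self.le
  have h3 : (s + 1) * 2 ^ (s + 1) ≤ 2 ^ (2 * s + 2) := by
    calc (s + 1) * 2 ^ (s + 1) ≤ 2 ^ (s + 1) * 2 ^ (s + 1) := Nat.mul_le_mul_right _ h2
      _ = 2 ^ (2 * s + 2) := by rw [← pow_add]; congr 1; ring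
  have h4 : 2 * s + 2 ≤ 2 * 2 ^ (2 * s + 2) := by
    have : 2 ^ (s + 1) ≤ 2 ^ (2 * s + 2) := Nat.pow_le_pow_right (by norm_num) (by omega)
    omega
  have h5 : 2 ^ (2 * s + 5) = 8 * 2 ^ (2 * s + 2) := by
    rw [show 2 * s + 5 = (2 * s + 2) + 3 by ring, pow_add]
    ring
  calc 2 ^ (2 * s + 2) * (2 ^ (s + 1)).factorial
      ≤ 2 ^ (2 * s + 2) * 2 ^ ((s + 1) * 2 ^ (s + 1)) := Nat.mul_le_mul_left _ h1
    _ = 2 ^ (2 * s + 2 + (s + 1) * 2 ^ (s + 1)) := (pow_add _ _ _).symm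
    _ ≤ 2 ^ j := Nat.pow_le_pow_right (by norm_num) (by omega)

theorem one_s (p : ℤ[X]) (hd : 2 ≤ p.natDegree) : ∃ B : ℝ, 1 ≤ B ∧ ∀ (L : ℕ) [NeZero L]
    (s : ℕ) (g : ZMod L → ℂ) (σ : ZMod L → ℕ),
    l2 L (sel (fun j => Tm L (fun k => Psi p s (2 ^ j) (th L k)) g) σ) ≤
      B * (s + 1) * l2 L g := by
  obtain ⟨B1, hB1, h1⟩ := small p hd
  obtain ⟨B2, hB2, h2⟩ := large p hd
  refine ⟨7 * B1 + B2, by linarith, ?_⟩
  intro L _ s g σ
  have hs := h1 L s (2 * s + 5) g (fun x => min (σ x) (2 ^ (2 * s + 5))) (fun x => min_le_right _ _)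
  have hl := h2 L s g (fun x => max (σ x) (2 ^ (2 * s + 5) + 1))
    (fun x => Asm_Qs s _ (lt_of_lt_of_le (Nat.lt_succ_self _) (le_max_right _ _)))
  have hadd := Asm_add L (sel (fun j => Tm L (fun k => Psi p s (2 ^ j) (th L k)) g) σ)
    (sel (fun j => Tm L (fun k => Psi p s (2 ^ j) (th L k)) g)
      (fun x => min (σ x) (2 ^ (2 * s + 5))))
    (sel (fun j => Tm L (fun k => Psi p s (2 ^ j) (th L k)) g)
      (fun x => max (σ x) (2 ^ (2 * s + 5) + 1))) (by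
      intro x
      by_cases hx : σ x ≤ 2 ^ (2 * s + 5)
      · have : min (σ x) (2 ^ (2 * s + 5)) = σ x := min_eq_left hx
        simp only [sel, this]
        exact le_add_of_nonneg_right (norm_nonneg _)
      · have : max (σ x) (2 ^ (2 * s + 5) + 1) = σ x := max_eq_left (by omega)
        simp only [sel, this]
        exact le_add_of_nonneg_left (norm_nonneg _))
  have hg : 0 ≤ l2 L g := l2_nonneg L g
  have hs0 : (0 : ℝ) ≤ s := Nat.cast_nonneg s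
  calc l2 L (sel (fun j => Tm L (fun k => Psi p s (2 ^ j) (th L k)) g) σ)
      ≤ B1 * (((2 * s + 5 : ℕ) : ℝ) + 2) * l2 L g + B2 * l2 L g := by linarith
    _ = (B1 * (2 * s + 7) + B2) * l2 L g := by push_cast; ring
    _ ≤ (7 * B1 + B2) * (s + 1) * l2 L g := by
        refine mul_le_mul_of_nonneg_right ?_ hg
        nlinarith [mul_nonneg (show (0:ℝ) ≤ B1 by linarith) hs0,
          mul_nonneg (show (0:ℝ) ≤ B2 by linarith) hs0]

theorem Asm_Icc (N : ℕ) (F : ℤ → ℂ) :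
    ∑ n ∈ Icc (1 : ℤ) (N : ℤ), F n = ∑ n ∈ Icc 1 N, F (n : ℤ) := by
  refine Finset.sum_bij' (fun n _ => n.toNat) (fun n _ => (n : ℤ)) ?_ ?_ ?_ ?_ ?_
  · intro n hn
    rw [Finset.mem_Icc] at hn ⊢
    omega
  · intro n hn
    rw [Finset.mem_Icc] at hn ⊢
    omega
  · intro n hn
    rw [Finset.mem_Icc] at hn
    show ((n.toNat : ℕ) : ℤ) = n
    omega
  · intro n hn
    exact Int.toNat_natCast n
  · intro n hn
    rw [Finset.mem_Icc] at hn
    congr 1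
    omega

theorem dyadic (p : ℤ[X]) (hd : 2 ≤ p.natDegree) : ∃ B : ℝ, 1 ≤ B ∧ ∀ (L : ℕ) [NeZero L]
    (f : ZMod L → ℂ) (σ : ZMod L → ℕ),
    √(∑ x : ZMod L, ‖(1 / ((2 : ℂ) ^ (σ x))) *
      ∑ n ∈ Icc 1 (2 ^ (σ x)), f (x + ((p.eval (n : ℤ) : ℤ) : ZMod L))‖ ^ 2) ≤ B * l2 L f := by
  obtain ⟨B1, hB1, h1⟩ := one_s p hd
  obtain ⟨C, δ, hC1, hδ0, hδ1, hchi⟩ := chi_bd p hd
  obtain ⟨C', δ', hC'1, hδ'0, herr⟩ := err p hd
  set r : ℝ := (2 : ℝ) ^ (-δ) with hr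
  have hr0 : 0 < r := by positivity
  have hr1 : r < 1 := Real.rpow_lt_one_of_one_lt_of_neg (by norm_num) (by linarith)
  set r' : ℝ := (2 : ℝ) ^ (-δ') with hr'
  have hr'0 : 0 < r' := by positivity
  have hr'1 : r' < 1 := Real.rpow_lt_one_of_one_lt_of_neg (by norm_num) (by linarith)
  have hpow : ∀ (e : ℝ) (j : ℕ), (2 : ℝ) ^ (-(e * j)) = ((2 : ℝ) ^ (-e)) ^ j := by
    intro e j
    rw [← Real.rpow_natCast, ← Real.rpow_mul (by norm_num)]
    congr 1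
    ring
  have hZs : Summable fun s : ℕ => ((s : ℝ) + 1) * r ^ s := by
    have e1 : Summable fun s : ℕ => (s : ℝ) ^ 1 * r ^ s :=
      summable_pow_mul_geometric_of_norm_lt_one 1 (by rw [Real.norm_eq_abs, abs_of_pos hr0]; exact hr1)
    have e2 : Summable fun s : ℕ => r ^ s := summable_geometric_of_lt_one hr0.le hr1
    refine (e1.add e2).congr fun s => ?_
    ring
  set Z : ℝ := ∑' s : ℕ, ((s : ℝ) + 1) * r ^ s with hZ
  have hZ0 : 0 ≤ Z := tsum_nonneg fun s => by positivity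
  have hr2 : r' ^ 2 < 1 := by nlinarith
  set D : ℝ := C' / (1 - r' ^ 2) with hD
  have hD0 : 0 ≤ D := div_nonneg (by linarith) (by linarith)
  refine ⟨1 + D + B1 * C * Z, ?_, ?_⟩
  · have : 0 ≤ B1 * C * Z := mul_nonneg (mul_nonneg (by linarith) (by linarith)) hZ0
    linarith
  intro L _ f σ
  have hf : 0 ≤ l2 L f := l2_nonneg L f
  set n : ℕ := (∑ x, σ x) + 1 with hn
  have hσn : ∀ x, σ x < n := by
    intro x
    have : σ x ≤ ∑ x, σ x :=
      Finset.single_le_sum (f := σ) (fun y _ => Nat.zero_le _) (Finset.mem_univ x)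
    omega
  set E : ℕ → ZMod L → ℂ := fun j k => mm p (2 ^ j) (th L k) -
    ∑ s ∈ range (j / 4 + 1), Chi p s (th L k) * Psi p s (2 ^ j) (th L k) with hE
  set P : ℕ → ℕ → ZMod L → ℂ := fun s j => Tm L (fun k => Psi p s (2 ^ j) (th L k))
    (Tm L (fun k => Chi p s (th L k)) f) with hP
  have hmain : ∀ x, (1 / ((2 : ℂ) ^ (σ x))) *
      ∑ n ∈ Icc 1 (2 ^ (σ x)), f (x + ((p.eval (n : ℤ) : ℤ) : ZMod L)) =
      sel (fun j => Tm L (E j) f) σ x + ∑ s ∈ range (σ x / 4 + 1), P s (σ x) x := by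
    intro x
    have e1 := tm_avg L p (2 ^ (σ x)) f x
    have e2 : (((2 ^ (σ x) : ℕ) : ℂ)) = (2 : ℂ) ^ (σ x) := by push_cast; rfl
    rw [e2] at e1
    have e4 := Asm_Icc (2 ^ (σ x)) fun n => f (x + ((p.eval n : ℤ) : ZMod L))
    have e5 : (((2 ^ (σ x) : ℕ) : ℤ)) = (2 : ℤ) ^ (σ x) := by push_cast; rfl
    rw [e5] at e4
    rw [e4, ← e1]
    have e3 : ∑ s ∈ range (σ x / 4 + 1), P s (σ x) x =
        Tm L (fun k => ∑ s ∈ range (σ x / 4 + 1),
          Chi p s (th L k) * Psi p s (2 ^ (σ x)) (th L k)) f x := by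
      rw [tm_sum]
      refine Finset.sum_congr rfl fun s _ => ?_
      simp only [hP]
      rw [tm_comp]
      congr 1
      funext k
      ring
    rw [e3]
    simp only [sel]
    rw [← tm_add]
    congr 1
    funext k
    simp only [hE]
    ring
  have hA : l2 L (sel (fun j => Tm L (E j) f) σ) ≤ D * l2 L f := by
    refine (l2_sel_le L (range n) _ σ fun x => Finset.mem_range.mpr (hσn x)).trans ?_
    refine tm_sq L (range n) E D hD0 (fun k => ?_) f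
    have e1 : ∀ j, ‖E j k‖ ^ 2 ≤ C' ^ 2 * (r' ^ 2) ^ j := by
      intro j
      have := herr j (th L k)
      rw [hpow] at this
      calc ‖E j k‖ ^ 2 ≤ (C' * r' ^ j) ^ 2 := pow_le_pow_left₀ (norm_nonneg _) this 2
        _ = C' ^ 2 * (r' ^ 2) ^ j := by ring
    calc ∑ j ∈ range n, ‖E j k‖ ^ 2 ≤ ∑ j ∈ range n, C' ^ 2 * (r' ^ 2) ^ j :=
          Finset.sum_le_sum fun j _ => e1 j
      _ = C' ^ 2 * ∑ j ∈ range n, (r' ^ 2) ^ j := by rw [Finset.mul_sum]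
      _ ≤ C' ^ 2 * (1 - r' ^ 2)⁻¹ := by
          refine mul_le_mul_of_nonneg_left ?_ (by positivity)
          rw [← tsum_geometric_of_lt_one (by positivity) hr2]
          exact (summable_geometric_of_lt_one (by positivity) hr2).sum_le_tsum _
            fun j _ => by positivity
      _ ≤ D ^ 2 := by
          rw [hD, div_pow, div_eq_mul_inv]
          refine mul_le_mul_of_nonneg_left ?_ (by positivity)
          have h0 : 0 < 1 - r' ^ 2 := by linarith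
          refine inv_anti₀ (by positivity) ?_
          have : 0 ≤ r' ^ 2 := by positivity
          nlinarith
  have hB : ∀ s, l2 L (sel (P s) σ) ≤ B1 * C * (((s : ℝ) + 1) * r ^ s) * l2 L f := by
    intro s
    have e1 := h1 L s (Tm L (fun k => Chi p s (th L k)) f) σ
    have e2 : l2 L (Tm L (fun k => Chi p s (th L k)) f) ≤ C * r ^ s * l2 L f := by
      refine tm_bd L _ (C * r ^ s) (by positivity) (fun k => ?_) f
      have := hchi s (th L k)
      rw [hpow] at this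
      exact this
    refine e1.trans ?_
    calc B1 * ((s : ℝ) + 1) * l2 L (Tm L (fun k => Chi p s (th L k)) f)
        ≤ B1 * ((s : ℝ) + 1) * (C * r ^ s * l2 L f) :=
          mul_le_mul_of_nonneg_left e2 (by positivity)
      _ = B1 * C * (((s : ℝ) + 1) * r ^ s) * l2 L f := by ring
  have hC' : l2 L (fun x => ∑ s ∈ range (σ x / 4 + 1), P s (σ x) x) ≤ B1 * C * Z * l2 L f := by
    refine (Asm_sum L (range n) _ (fun s => sel (P s) σ) fun x => ?_).trans ?_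
    · refine (norm_sum_le _ _).trans ?_
      have : range (σ x / 4 + 1) ⊆ range n := by
        intro s hs
        rw [Finset.mem_range] at hs ⊢
        have := hσn x
        omega
      exact Finset.sum_le_sum_of_subset_of_nonneg this fun s _ _ => norm_nonneg _
    · calc ∑ s ∈ range n, l2 L (sel (P s) σ)
          ≤ ∑ s ∈ range n, B1 * C * (((s : ℝ) + 1) * r ^ s) * l2 L f :=
            Finset.sum_le_sum fun s _ => hB s
        _ = B1 * C * (∑ s ∈ range n, ((s : ℝ) + 1) * r ^ s) * l2 L f := by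
            rw [Finset.mul_sum, Finset.sum_mul]
        _ ≤ B1 * C * Z * l2 L f := by
            refine mul_le_mul_of_nonneg_right ?_ hf
            refine mul_le_mul_of_nonneg_left ?_ (mul_nonneg (by linarith) (by linarith))
            exact hZs.sum_le_tsum _ fun s _ => by positivity
  have hfinal : √(∑ x : ZMod L, ‖(1 / ((2 : ℂ) ^ (σ x))) *
      ∑ n ∈ Icc 1 (2 ^ (σ x)), f (x + ((p.eval (n : ℤ) : ℤ) : ZMod L))‖ ^ 2) =
      l2 L (fun x => sel (fun j => Tm L (E j) f) σ x + ∑ s ∈ range (σ x / 4 + 1), P s (σ x) x) := by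
    unfold l2
    congr 1
    exact Finset.sum_congr rfl fun x _ => by rw [hmain x]
  rw [hfinal]
  refine (l2_add L _ _).trans ?_
  calc l2 L (fun x => sel (fun j => Tm L (E j) f) σ x) +
        l2 L (fun x => ∑ s ∈ range (σ x / 4 + 1), P s (σ x) x)
      ≤ D * l2 L f + B1 * C * Z * l2 L f := add_le_add hA hC'
    _ ≤ (1 + D + B1 * C * Z) * l2 L f := by nlinarith

end Pool.Agent.BMX
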