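import Pool.Agent.BMX.Defs

set_option autoImplicit false

/-! Module Bas: elementary facts on `ex`, `nn`, `l2`, `sel`.
`ex_geom`: geometric sum `∑_{m=a+1}^{b} e(mβ)`, `|1 - e(β)| = 2 |sin πβ| ≥ 4 nn β` (Jordan), so the sum is `≤ 2/(4 nn β)`.
`l2_add`: Minkowski (e.g. through `EuclideanSpace`/`PiLp`, or Cauchy-Schwarz).  `l2_sel_le`: `‖F (σ x) x‖² ≤ ∑_{j ∈ S} ‖F j x‖²`. -/

open Finset Filter Topology MeasureTheory Polynomial

namespace Pool.Agent.BMX

theorem ex_zero : ex 0 = 1 := by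
  simp [ex]

theorem ex_add (x y : ℝ) : ex (x + y) = ex x * ex y := by
  unfold ex
  rw [← Complex.exp_add]
  congr 1
  push_cast
  ring

theorem ex_int (n : ℤ) : ex (n : ℝ) = 1 := by
  unfold ex
  rw [Complex.exp_eq_one_iff]
  exact ⟨n, by push_cast; ring⟩

theorem norm_ex (x : ℝ) : ‖ex x‖ = 1 := by
  unfold ex
  have : (2 * Real.pi * x * Complex.I : ℂ) = ((2 * Real.pi * x : ℝ) : ℂ) * Complex.I := by
    push_cast
    ring
  rw [this, Complex.norm_exp_ofReal_mul_I]

theorem ex_neg (x : ℝ) : ex (-x) = (starRingEnd ℂ) (ex x) := by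
  unfold ex
  rw [← Complex.exp_conj]
  congr 1
  rw [map_mul, map_mul, map_mul, Complex.conj_I, Complex.conj_ofReal, Complex.conj_ofReal, map_ofNat]
  push_cast
  ring

theorem ex_sub_le (x y : ℝ) : ‖ex x - ex y‖ ≤ 2 * Real.pi * |x - y| := by
  have h1 : ex x - ex y = ex y * (ex (x - y) - 1) := by
    rw [mul_sub, mul_one, ← ex_add]
    congr 2
    ring
  rw [h1, norm_mul, norm_ex, one_mul]
  have h2 : ex (x - y) = Complex.exp (Complex.I * ((2 * Real.pi * (x - y) : ℝ) : ℂ)) := by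
    unfold ex
    congr 1
    push_cast
    ring
  rw [h2]
  refine (Real.norm_exp_I_mul_ofReal_sub_one_le).trans (le_of_eq ?_)
  rw [Real.norm_eq_abs, abs_mul, abs_of_pos (by positivity : 0 < 2 * Real.pi)]

theorem Bas_ex_sub_one (β : ℝ) : 4 * nn β ≤ ‖ex β - 1‖ := by
  set t : ℝ := β - round β with ht
  have h1 : ex β = ex t := by
    have h0 : ex β = ex (t + (round β : ℤ)) := by
      congr 1
      rw [ht]
      ring
    rw [h0, ex_add, ex_int, mul_one]
  have h2 : ex t = Complex.exp (Complex.I * ((2 * Real.pi * t : ℝ) : ℂ)) := by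
    unfold ex
    congr 1
    push_cast
    ring
  have h3 : nn β = |t| := rfl
  have h4 : |t| ≤ 1 / 2 := abs_sub_round β
  rw [h1, h2, Complex.norm_exp_I_mul_ofReal_sub_one, h3, norm_mul]
  have h6 : 2 * Real.pi * t / 2 = Real.pi * t := by ring
  rw [h6]
  have h7 : ‖Real.sin (Real.pi * t)‖ = Real.sin (Real.pi * |t|) := by
    rw [Real.norm_eq_abs]
    have hp := Real.pi_pos
    have hs : 0 ≤ Real.sin (Real.pi * |t|) :=
      Real.sin_nonneg_of_nonneg_of_le_pi (by positivity) (by nlinarith)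
    rcases le_or_gt 0 t with h | h
    · rw [abs_of_nonneg h] at hs ⊢
      exact abs_of_nonneg hs
    · rw [abs_of_neg h] at hs ⊢
      rw [mul_neg, Real.sin_neg] at hs ⊢
      exact abs_of_nonpos (by linarith)
  rw [h7]
  have h8 := Real.mul_le_sin (x := Real.pi * |t|) (by positivity)
    (by have := Real.pi_pos; nlinarith)
  have h9 : 2 / Real.pi * (Real.pi * |t|) = 2 * |t| := by
    field_simp
  rw [h9] at h8
  have h10 : ‖(2 : ℝ)‖ = 2 := by norm_num
  rw [h10]
  linarith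

theorem ex_geom (β : ℝ) (hβ : 0 < nn β) (a b : ℕ) :
    ‖∑ m ∈ Icc (a + 1) b, ex (m * β)‖ ≤ 1 / (2 * nn β) := by
  have hz := Bas_ex_sub_one β
  have hne : ex β - 1 ≠ 0 := by
    intro h
    rw [h, norm_zero] at hz
    linarith
  have hpow : ∀ m : ℕ, ex (m * β) = ex β ^ m := by
    intro m
    induction m with
    | zero => simp [ex_zero]
    | succ k ih =>
      rw [pow_succ, ← ih, ← ex_add]
      congr 1
      push_cast
      ring
  by_cases hab : a ≤ b
  · have h1 : (∑ m ∈ Icc (a + 1) b, ex (m * β)) * (ex β - 1) = ex β ^ (b + 1) - ex β ^ (a + 1) := by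
      have h2 : ∑ m ∈ Icc (a + 1) b, ex (m * β) = ∑ m ∈ Ico (a + 1) (b + 1), ex β ^ m := by
        refine Finset.sum_congr ?_ (fun m _ => hpow m)
        ext m
        simp only [Finset.mem_Icc, Finset.mem_Ico]
        omega
      rw [h2]
      exact geom_sum_Ico_mul (ex β) (by omega)
    have h3 : ‖∑ m ∈ Icc (a + 1) b, ex (m * β)‖ * ‖ex β - 1‖ ≤ 2 := by
      rw [← norm_mul, h1]
      refine (norm_sub_le _ _).trans ?_
      rw [norm_pow, norm_pow, norm_ex, one_pow, one_pow]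
      norm_num
    rw [le_div_iff₀ (by positivity)]
    nlinarith [norm_nonneg (∑ m ∈ Icc (a + 1) b, ex (m * β))]
  · rw [Finset.Icc_eq_empty (by omega), Finset.sum_empty, norm_zero]
    positivity

theorem nn_nonneg (x : ℝ) : 0 ≤ nn x := by
  exact abs_nonneg _

theorem nn_le_half (x : ℝ) : nn x ≤ 1 / 2 := by
  exact abs_sub_round x

theorem nn_add_int (x : ℝ) (n : ℤ) : nn (x + n) = nn x := by
  unfold nn
  rw [round_add_intCast]
  push_cast
  congr 1
  ring

theorem nn_neg (x : ℝ) : nn (-x) = nn x := by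
  have h : ∀ y : ℝ, nn (-y) ≤ nn y := by
    intro y
    have h1 : nn (-y) ≤ |(-y) - ((-round y : ℤ) : ℝ)| := round_le _ _
    refine h1.trans (le_of_eq ?_)
    unfold nn
    rw [← abs_neg]
    congr 1
    push_cast
    ring
  refine le_antisymm (h x) ?_
  have := h (-x)
  rwa [neg_neg] at this

theorem nn_le (x : ℝ) (n : ℤ) : nn x ≤ |x - n| := by
  exact round_le x n

/-- triangle inequality -/
theorem nn_sub_le (x y : ℝ) : nn (x - y) ≤ nn x + nn y := by
  have h1 : nn (x - y) ≤ |(x - y) - ((round x - round y : ℤ) : ℝ)| := round_le _ _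
  refine h1.trans ?_
  unfold nn
  have : (x - y) - ((round x - round y : ℤ) : ℝ) = (x - round x) - (y - round y) := by
    push_cast
    ring
  rw [this]
  exact abs_sub _ _

/-- `nn x = |x|` for small `x` -/
theorem nn_eq_abs {x : ℝ} (h : |x| ≤ 1 / 2) : nn x = |x| := by
  refine le_antisymm ?_ ?_
  · have := round_le x 0
    simpa [nn] using this
  · unfold nn
    by_cases h0 : round x = 0
    · rw [h0]
      simp
    · have h1 : (1 : ℝ) ≤ |(round x : ℝ)| := by
        have := Int.one_le_abs h0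
        exact_mod_cast this
      have h2 : |(round x : ℝ)| ≤ |x| + |x - round x| := by
        have : (round x : ℝ) = x - (x - round x) := by ring
        calc |(round x : ℝ)| = |x - (x - round x)| := by rw [← this]
          _ ≤ |x| + |x - round x| := abs_sub _ _
      linarith

theorem l2_nonneg (L : ℕ) [NeZero L] (f : ZMod L → ℂ) : 0 ≤ l2 L f := by
  exact Real.sqrt_nonneg _

theorem l2_add (L : ℕ) [NeZero L] (f g : ZMod L → ℂ) :
    l2 L (fun x => f x + g x) ≤ l2 L f + l2 L g := by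
  have h : ∀ u : ZMod L → ℂ, l2 L u = ‖(WithLp.toLp 2 u : EuclideanSpace ℂ (ZMod L))‖ := by
    intro u
    rw [EuclideanSpace.norm_eq]
    rfl
  rw [h, h, h]
  exact norm_add_le (WithLp.toLp 2 f : EuclideanSpace ℂ (ZMod L)) (WithLp.toLp 2 g)

theorem l2_sum (L : ℕ) [NeZero L] {ι : Type*} (S : Finset ι) (F : ι → ZMod L → ℂ) :
    l2 L (fun x => ∑ i ∈ S, F i x) ≤ ∑ i ∈ S, l2 L (F i) := by
  classical
  induction S using Finset.induction_on with
  | empty => simp [l2]
  | insert i S hi ih =>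
    simp only [Finset.sum_insert hi]
    exact (l2_add L (F i) (fun x => ∑ i ∈ S, F i x)).trans (by linarith)

theorem l2_mono (L : ℕ) [NeZero L] (f g : ZMod L → ℂ) (h : ∀ x, ‖f x‖ ≤ ‖g x‖) :
    l2 L f ≤ l2 L g := by
  exact Real.sqrt_le_sqrt (Finset.sum_le_sum fun x _ => pow_le_pow_left₀ (norm_nonneg _) (h x) 2)

theorem l2_smul (L : ℕ) [NeZero L] (c : ℝ) (f : ZMod L → ℂ) :
    l2 L (fun x => (c : ℂ) * f x) = |c| * l2 L f := by
  unfold l2
  have h1 : ∑ x : ZMod L, ‖(c : ℂ) * f x‖ ^ 2 = |c| ^ 2 * ∑ x : ZMod L, ‖f x‖ ^ 2 := by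
    rw [Finset.mul_sum]
    refine Finset.sum_congr rfl fun x _ => ?_
    rw [norm_mul, mul_pow, Complex.norm_real, Real.norm_eq_abs]
  rw [h1, Real.sqrt_mul (by positivity), Real.sqrt_sq (abs_nonneg _)]

theorem l2_sel_le (L : ℕ) [NeZero L] (S : Finset ℕ) (F : ℕ → ZMod L → ℂ) (σ : ZMod L → ℕ)
    (hσ : ∀ x, σ x ∈ S) : l2 L (sel F σ) ≤ √(∑ j ∈ S, l2 L (F j) ^ 2) := by
  refine Real.sqrt_le_sqrt ?_
  have h1 : ∀ j, l2 L (F j) ^ 2 = ∑ x : ZMod L, ‖F j x‖ ^ 2 := fun j =>
    Real.sq_sqrt (Finset.sum_nonneg fun x _ => by positivity)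
  simp_rw [h1]
  rw [Finset.sum_comm]
  refine Finset.sum_le_sum fun x _ => ?_
  exact Finset.single_le_sum (f := fun j => ‖F j x‖ ^ 2) (fun j _ => by positivity) (hσ x)

end Pool.Agent.BMX
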