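import Mathlib

set_option autoImplicit false

/-! Common definitions for squad BMX: Bourgain's L² maximal inequality for averages along
polynomial values. -/

open Finset Filter Topology MeasureTheory Polynomial

namespace Pool.Agent.BMX

/-- `e(x) = exp(2πix)` -/
noncomputable def ex (x : ℝ) : ℂ := Complex.exp (2 * Real.pi * x * Complex.I)

/-- distance to the nearest integer -/
noncomputable def nn (x : ℝ) : ℝ := |x - round x|

/-- exponential sum averages `(1/N) ∑_{n ≤ N} e(p(n) θ)`; for `N = q`, `θ = a/q` the complete sum -/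
noncomputable def mm (p : ℤ[X]) (N : ℕ) (θ : ℝ) : ℂ :=
  (1 / (N : ℂ)) * ∑ n ∈ Icc 1 N, ex (((p.eval (n : ℤ) : ℤ) : ℝ) * θ)

/-- weights `(m/M)^{1/d} - ((m-1)/M)^{1/d}` -/
noncomputable def cw (d M m : ℕ) : ℝ :=
  ((m : ℝ) / M) ^ (1 / (d : ℝ)) - (((m : ℝ) - 1) / M) ^ (1 / (d : ℝ))

/-- the smooth model `∑_{m ≤ M} cw_m e(m β)` -/
noncomputable def V (d M : ℕ) (β : ℝ) : ℂ := ∑ m ∈ Icc 1 M, (cw d M m : ℂ) * ex (m * β)

/-- `M_N = |c| N^d` -/
def MN (p : ℤ[X]) (N : ℕ) : ℕ := p.leadingCoeff.natAbs * N ^ p.natDegree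

/-- sign of the leading coefficient -/
def sg (p : ℤ[X]) : ℝ := (p.leadingCoeff.sign : ℝ)

/-- the model for the averages of `p` -/
noncomputable def VV (p : ℤ[X]) (N : ℕ) (β : ℝ) : ℂ := V p.natDegree (MN p N) (sg p * β)

/-- reduced fractions `a/q` in `[0,1)` with `2^s ≤ q < 2^(s+1)` -/
def Rs (s : ℕ) : Finset (ℕ × ℕ) :=
  ((range (2 ^ (s + 1))) ×ˢ (Ico (2 ^ s) (2 ^ (s + 1)))).filter
    (fun x => x.1 < x.2 ∧ Nat.Coprime x.1 x.2)

/-- width of the neighbourhoods -/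
noncomputable def ws (s : ℕ) : ℝ := 1 / 2 ^ (2 * s + 4)

/-- the fraction -/
noncomputable def fr (x : ℕ × ℕ) : ℝ := (x.1 : ℝ) / x.2

/-- `∑_{a/q ∈ R_s, near θ} V_N(θ - a/q)` -/
noncomputable def Psi (p : ℤ[X]) (s N : ℕ) (θ : ℝ) : ℂ :=
  open Classical in
  ∑ x ∈ Rs s, if nn (θ - fr x) ≤ ws s then VV p N (θ - fr x) else 0

/-- `∑_{a/q ∈ R_s, near θ} S(a/q)` -/
noncomputable def Chi (p : ℤ[X]) (s : ℕ) (θ : ℝ) : ℂ :=
  open Classical in
  ∑ x ∈ Rs s, if nn (θ - fr x) ≤ ws s then mm p x.2 (fr x) else 0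

/-- characters of `ZMod L` -/
noncomputable def chr (L : ℕ) (k x : ZMod L) : ℂ := ex ((k.val : ℝ) * x.val / L)

/-- Fourier multiplier operators on `ZMod L` -/
noncomputable def Tm (L : ℕ) [NeZero L] (μ : ZMod L → ℂ) (f : ZMod L → ℂ) (x : ZMod L) : ℂ :=
  (1 / (L : ℂ)) * ∑ k : ZMod L, μ k *
    (∑ y : ZMod L, f y * (starRingEnd ℂ) (chr L k y)) * chr L k x

/-- the frequency of `k` -/
noncomputable def th (L : ℕ) (k : ZMod L) : ℝ := (k.val : ℝ) / L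

/-- `ℓ²` norm on `ZMod L` -/
noncomputable def l2 (L : ℕ) [NeZero L] (f : ZMod L → ℂ) : ℝ := √(∑ x : ZMod L, ‖f x‖ ^ 2)

/-- linearised maximal function -/
def sel {L : ℕ} (F : ℕ → ZMod L → ℂ) (σ : ZMod L → ℕ) (x : ZMod L) : ℂ := F (σ x) x

end Pool.Agent.BMX
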