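import Pool.Agent.BMX.Maj

set_option autoImplicit false

/-! Module Err: `m_{2^j} = ∑_{s ≤ j/4} Chi_s Psi_{s,2^j} + O(2^{-δ j})`.
`near_unique`: two different fractions of `Rs s` are at distance (mod 1) at least `1/(q q') > 2^{-2s-2}`, `2 ws s = 2^{-2s-3}`: at most one `x ∈ Rs s` with `nn (θ - fr x) ≤ ws s`.  So `Chi_s Psi_s` is `S(a/q) VV(θ - a/q)` if there is such an `x`, and `0` otherwise (`chi_psi`).
`err`: `N = 2^j`, `sj = j/4`.  `j` large (small `j`: trivial bound `2 + j`).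
(i) there are `q < 2^{sj+1}`, `a` with `|θ - a/q| ≤ N^{-d+1/4}`: reduce the fraction, `s0 = ⌊log₂ q⌋ ≤ sj`; `nn(θ - a/q) ≤ ws s0`; `major`: the difference of `mm p N θ` and the term `s0` is `≤ C q (1 + 2^{j/4})/2^j ≤ C 2^{-j/4}`.  For `s ≠ s0`, `s ≤ sj`, a fraction `a'/q' ∈ Rs s` is different from `a/q`
mod 1, so `nn(θ - a'/q') ≥ 1/(q q') - N^{-d+1/4} ≥ 2^{-j/2-3}` and `‖VV‖ ≤ 4 (MN · 2^{-j/2-3})^{-1/d} ≤ C 2^{-j/2}` (`V_decay`, `MN ≥ 2^{jd}`, `d ≥ 2`): total `≤ C j 2^{-j/2}`.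
(ii) otherwise: `weyl` (`q ≤ N^{1/4}` implies `q < 2^{sj+1}`) gives `‖mm‖ ≤ C 2^{-δj}`; every term: `nn(θ - a'/q') > N^{-d+1/4}` (in case (ii), for all `q' < 2^{sj+1}`), `‖VV‖ ≤ 4 (2^{jd} 2^{-jd + j/4})^{-1/d} = 4 · 2^{-j/(4d)}`: total `≤ C j 2^{-j/(4d)}`. -/

open Finset Filter Topology MeasureTheory Polynomial

namespace Pool.Agent.BMX

lemma Err_mem {s : ℕ} {x : ℕ × ℕ} (hx : x ∈ Rs s) :
    2 ^ s ≤ x.2 ∧ x.2 < 2 ^ (s + 1) ∧ x.1 < x.2 ∧ Nat.Coprime x.1 x.2 := by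
  unfold Rs at hx
  rw [Finset.mem_filter, Finset.mem_product, Finset.mem_Ico] at hx
  exact ⟨hx.1.2.1, hx.1.2.2, hx.2.1, hx.2.2⟩

lemma Err_mem' {s : ℕ} {x : ℕ × ℕ} (h1 : 2 ^ s ≤ x.2) (h2 : x.2 < 2 ^ (s + 1)) (h3 : x.1 < x.2)
    (h4 : Nat.Coprime x.1 x.2) : x ∈ Rs s := by
  unfold Rs
  rw [Finset.mem_filter, Finset.mem_product, Finset.mem_Ico, Finset.mem_range]
  exact ⟨⟨by omega, h1, h2⟩, h3, h4⟩

/-- different reduced fractions are separated modulo one -/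
lemma Err_sep {x y : ℕ × ℕ} (hx1 : x.1 < x.2) (hx2 : Nat.Coprime x.1 x.2) (hy1 : y.1 < y.2)
    (hy2 : Nat.Coprime y.1 y.2) (hne : x ≠ y) : 1 / ((x.2 : ℝ) * y.2) ≤ nn (fr x - fr y) := by
  obtain ⟨a, q⟩ := x
  obtain ⟨b, r⟩ := y
  simp only at *
  have hq : (0 : ℝ) < q := by
    have : 0 < q := by omega
    exact_mod_cast this
  have hr : (0 : ℝ) < r := by
    have : 0 < r := by omega
    exact_mod_cast this
  unfold nn fr
  simp only
  set k := round ((a : ℝ) / q - b / r) with hk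
  have h0 : (a : ℤ) * r - b * q - k * (q * r) ≠ 0 := by
    intro h
    have h1 : (q : ℤ) ∣ (a : ℤ) * r := ⟨b + k * r, by linear_combination h⟩
    have h2 : q ∣ a * r := by exact_mod_cast h1
    have h3 : q ∣ r := (Nat.Coprime.symm hx2).dvd_of_dvd_mul_left h2
    have h4 : (r : ℤ) ∣ (b : ℤ) * q := ⟨a - k * q, by linear_combination -h⟩
    have h5 : r ∣ b * q := by exact_mod_cast h4
    have h6 : r ∣ q := (Nat.Coprime.symm hy2).dvd_of_dvd_mul_left h5
    have h7 : q = r := Nat.dvd_antisymm h3 h6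
    subst h7
    have hq0 : (q : ℤ) ≠ 0 := by
      have : 0 < q := by omega
      exact_mod_cast this.ne'
    have h8 : (a : ℤ) - b - k * q = 0 := by
      have : (q : ℤ) * ((a : ℤ) - b - k * q) = 0 := by linear_combination h
      rcases mul_eq_zero.1 this with h9 | h9
      · exact absurd h9 hq0
      · exact h9
    have h9 : k = 0 := by
      by_contra hk0
      have h10 : 1 ≤ |k| := Int.one_le_abs hk0
      have h11 : |k * (q : ℤ)| = |k| * q := by rw [abs_mul, Nat.abs_cast]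
      have h12 : |k * (q : ℤ)| < q := by
        have : k * (q : ℤ) = a - b := by linarith
        rw [this, abs_lt]
        constructor <;> omega
      have h13 : (q : ℤ) ≤ |k| * q := by nlinarith
      omega
    rw [h9] at h8
    apply hne
    have : (a : ℤ) = b := by linarith
    have : a = b := by exact_mod_cast this
    rw [this]
  have h1 : (1 : ℝ) ≤ |((a : ℝ) * r - b * q - k * (q * r))| := by
    have := Int.one_le_abs h0
    exact_mod_cast this
  have e1 : (a : ℝ) / q - b / r - k = ((a : ℝ) * r - b * q - k * (q * r)) / (q * r) := by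
    field_simp
  rw [e1, abs_div, abs_of_pos (mul_pos hq hr)]
  exact div_le_div_of_nonneg_right h1 (by positivity)

lemma Err_nn_tri (θ x y : ℝ) : nn (x - y) ≤ nn (θ - y) + nn (θ - x) := by
  have : x - y = (θ - y) - (θ - x) := by ring
  rw [this]
  exact nn_sub_le _ _

theorem near_unique (s : ℕ) (θ : ℝ) {x y : ℕ × ℕ} (hx : x ∈ Rs s) (hy : y ∈ Rs s)
    (hx' : nn (θ - fr x) ≤ ws s) (hy' : nn (θ - fr y) ≤ ws s) : x = y := by
  by_contra hne
  obtain ⟨a1, a2, a3, a4⟩ := Err_mem hx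
  obtain ⟨b1, b2, b3, b4⟩ := Err_mem hy
  have h1 := Err_sep a3 a4 b3 b4 hne
  have h2 := Err_nn_tri θ (fr x) (fr y)
  have h3 : 1 / ((2 : ℝ) ^ (s + 1) * 2 ^ (s + 1)) ≤ 1 / ((x.2 : ℝ) * y.2) := by
    apply one_div_le_one_div_of_le
    · have hx0 : 0 < x.2 := by omega
      have hy0 : 0 < y.2 := by omega
      positivity
    · have hx2 : (x.2 : ℝ) ≤ 2 ^ (s + 1) := by exact_mod_cast a2.le
      have hy2 : (y.2 : ℝ) ≤ 2 ^ (s + 1) := by exact_mod_cast b2.le
      gcongr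
  have h4 : ws s + ws s < 1 / ((2 : ℝ) ^ (s + 1) * 2 ^ (s + 1)) := by
    unfold ws
    have : (2 : ℝ) ^ (2 * s + 4) = 4 * ((2 : ℝ) ^ (s + 1) * 2 ^ (s + 1)) := by ring
    rw [this]
    have h5 : (0 : ℝ) < (2 : ℝ) ^ (s + 1) * 2 ^ (s + 1) := by positivity
    rw [← add_div, div_lt_div_iff₀ (by positivity) h5]
    nlinarith
  linarith

theorem chi_psi (p : ℤ[X]) (s N : ℕ) (θ : ℝ) {x : ℕ × ℕ} (hx : x ∈ Rs s)
    (hx' : nn (θ - fr x) ≤ ws s) :
    Chi p s θ = mm p x.2 (fr x) ∧ Psi p s N θ = VV p N (θ - fr x) := by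
  constructor
  · unfold Chi
    rw [Finset.sum_eq_single x]
    · rw [if_pos hx']
    · intro y hy hne
      rw [if_neg]
      intro hy'
      exact hne (near_unique s θ hy hx hy' hx')
    · intro h; exact absurd hx h
  · unfold Psi
    rw [Finset.sum_eq_single x]
    · rw [if_pos hx']
    · intro y hy hne
      rw [if_neg]
      intro hy'
      exact hne (near_unique s θ hy hx hy' hx')
    · intro h; exact absurd hx h

theorem chi_psi_zero (p : ℤ[X]) (s N : ℕ) (θ : ℝ)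
    (h : ∀ x ∈ Rs s, ¬ nn (θ - fr x) ≤ ws s) : Chi p s θ = 0 ∧ Psi p s N θ = 0 := by
  constructor
  · unfold Chi
    exact Finset.sum_eq_zero fun x hx => if_neg (h x hx)
  · unfold Psi
    exact Finset.sum_eq_zero fun x hx => if_neg (h x hx)

theorem chi_bd (p : ℤ[X]) (hd : 2 ≤ p.natDegree) : ∃ C δ : ℝ, 1 ≤ C ∧ 0 < δ ∧ δ ≤ 1 ∧
    ∀ (s : ℕ) (θ : ℝ), ‖Chi p s θ‖ ≤ C * 2 ^ (-(δ * s)) := by
  obtain ⟨C, δ, hC, hδ, hδ1, hg⟩ := gauss p hd
  refine ⟨C, δ, hC, hδ, hδ1, fun s θ => ?_⟩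
  by_cases h : ∃ x ∈ Rs s, nn (θ - fr x) ≤ ws s
  · obtain ⟨x, hx, hx'⟩ := h
    rw [(chi_psi p s 1 θ hx hx').1]
    obtain ⟨a1, a2, a3, a4⟩ := Err_mem hx
    have h1 := hg x.1 x.2 (by omega) a4
    refine h1.trans (mul_le_mul_of_nonneg_left ?_ (by linarith))
    have h2 : ((2 : ℝ) ^ s) ^ (-δ) = 2 ^ (-(δ * s)) := by
      rw [← Real.rpow_natCast, ← Real.rpow_mul (by norm_num)]
      congr 1
      ring
    rw [← h2]
    apply Real.rpow_le_rpow_of_nonpos (by positivity) _ (by linarith)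
    exact_mod_cast a1
  · push Not at h
    rw [(chi_psi_zero p s 1 θ fun x hx => not_le.2 (h x hx)).1, norm_zero]
    positivity

lemma Err_chi_le_one (p : ℤ[X]) (s : ℕ) (θ : ℝ) : ‖Chi p s θ‖ ≤ 1 := by
  by_cases h : ∃ x ∈ Rs s, nn (θ - fr x) ≤ ws s
  · obtain ⟨x, hx, hx'⟩ := h
    rw [(chi_psi p s 1 θ hx hx').1]
    exact mm_le_one _ _ _
  · push Not at h
    rw [(chi_psi_zero p s 1 θ fun x hx => not_le.2 (h x hx)).1, norm_zero]
    exact zero_le_one

lemma Err_psi_le_one (p : ℤ[X]) (hd : 2 ≤ p.natDegree) (s N : ℕ) (θ : ℝ) : ‖Psi p s N θ‖ ≤ 1 := by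
  by_cases h : ∃ x ∈ Rs s, nn (θ - fr x) ≤ ws s
  · obtain ⟨x, hx, hx'⟩ := h
    rw [(chi_psi p s N θ hx hx').2]
    exact V_le_one _ _ (by omega) _
  · push Not at h
    rw [(chi_psi_zero p s N θ fun x hx => not_le.2 (h x hx)).2, norm_zero]
    exact zero_le_one

lemma Err_nn_sg (p : ℤ[X]) (hp : p ≠ 0) (β : ℝ) : nn (sg p * β) = nn β := by
  unfold sg
  have hc : p.leadingCoeff ≠ 0 := Polynomial.leadingCoeff_ne_zero.2 hp
  rcases lt_trichotomy p.leadingCoeff 0 with h | h | h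
  · rw [Int.sign_eq_neg_one_of_neg h]
    push_cast
    rw [neg_one_mul, nn_neg]
  · exact absurd h hc
  · rw [Int.sign_eq_one_of_pos h]
    push_cast
    rw [one_mul]

/-- the threshold `N^{-d+1/4}`, `N = 2^j` -/
noncomputable def Err_thr (d j : ℕ) : ℝ := (2 : ℝ) ^ ((j : ℝ) * (-(d : ℝ) + 1 / 4))

lemma Err_thr_pos (d j : ℕ) : 0 < Err_thr d j := by unfold Err_thr; positivity

lemma Err_decay (p : ℤ[X]) (hd : 2 ≤ p.natDegree) (j : ℕ) (β : ℝ)
    (hβ : Err_thr p.natDegree j ≤ nn β) :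
    ‖VV p (2 ^ j) β‖ ≤ 4 * 2 ^ (-((j : ℝ) / (4 * p.natDegree))) := by
  have hp : p ≠ 0 := by
    rintro rfl
    simp at hd
  have hc : p.leadingCoeff ≠ 0 := Polynomial.leadingCoeff_ne_zero.2 hp
  have hcpos : 1 ≤ p.leadingCoeff.natAbs := Nat.one_le_iff_ne_zero.2 (Int.natAbs_ne_zero.2 hc)
  set d := p.natDegree with hdd
  have hdr : (2 : ℝ) ≤ d := by exact_mod_cast hd
  have hM : 1 ≤ MN p (2 ^ j) := by
    unfold MN
    exact Nat.mul_pos hcpos (by positivity)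
  have hnn : 0 < nn (sg p * β) := by
    rw [Err_nn_sg p hp]
    exact (Err_thr_pos _ _).trans_le hβ
  have h1 := V_decay d (MN p (2 ^ j)) (by omega) hM (sg p * β) hnn
  rw [Err_nn_sg p hp] at h1
  unfold VV
  refine h1.trans (mul_le_mul_of_nonneg_left ?_ (by norm_num))
  have h2 : (2 : ℝ) ^ ((j : ℝ) / 4) ≤ (MN p (2 ^ j) : ℝ) * nn β := by
    have h3 : (2 : ℝ) ^ ((j : ℝ) * d) ≤ (MN p (2 ^ j) : ℝ) := by
      have h4 : (2 ^ j) ^ d ≤ MN p (2 ^ j) := by
        unfold MN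
        exact Nat.le_mul_of_pos_left _ hcpos
      have h5 : (((2 ^ j) ^ d : ℕ) : ℝ) ≤ (MN p (2 ^ j) : ℝ) := by exact_mod_cast h4
      refine le_trans (le_of_eq ?_) h5
      push_cast
      rw [← Real.rpow_natCast, ← Real.rpow_natCast, ← Real.rpow_mul (by norm_num)]
    calc (2 : ℝ) ^ ((j : ℝ) / 4) = (2 : ℝ) ^ ((j : ℝ) * d) * Err_thr d j := by
          unfold Err_thr
          rw [← Real.rpow_add (by norm_num)]
          congr 1
          ring
      _ ≤ (MN p (2 ^ j) : ℝ) * nn β :=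
          mul_le_mul h3 hβ (Err_thr_pos _ _).le (by positivity)
  calc ((MN p (2 ^ j) : ℝ) * nn β) ^ (-(1 / (d : ℝ))) ≤ ((2 : ℝ) ^ ((j : ℝ) / 4)) ^ (-(1 / (d : ℝ))) := by
        apply Real.rpow_le_rpow_of_nonpos (by positivity) h2
        have : 0 ≤ 1 / (d : ℝ) := by positivity
        linarith
    _ = 2 ^ (-((j : ℝ) / (4 * d))) := by
        rw [← Real.rpow_mul (by norm_num)]
        congr 1
        field_simp

/-- bound for one term -/
lemma Err_term (p : ℤ[X]) (hd : 2 ≤ p.natDegree) (j s : ℕ) (θ : ℝ)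
    (h : ∀ x ∈ Rs s, nn (θ - fr x) ≤ ws s → Err_thr p.natDegree j ≤ nn (θ - fr x)) :
    ‖Chi p s θ * Psi p s (2 ^ j) θ‖ ≤ 4 * 2 ^ (-((j : ℝ) / (4 * p.natDegree))) := by
  by_cases hex : ∃ x ∈ Rs s, nn (θ - fr x) ≤ ws s
  · obtain ⟨x, hx, hx'⟩ := hex
    rw [norm_mul]
    have h1 := Err_chi_le_one p s θ
    have h2 : ‖Psi p s (2 ^ j) θ‖ ≤ 4 * 2 ^ (-((j : ℝ) / (4 * p.natDegree))) := by
      rw [(chi_psi p s (2 ^ j) θ hx hx').2]
      exact Err_decay p hd j _ (h x hx hx')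
    calc ‖Chi p s θ‖ * ‖Psi p s (2 ^ j) θ‖ ≤ 1 * ‖Psi p s (2 ^ j) θ‖ :=
          mul_le_mul_of_nonneg_right h1 (norm_nonneg _)
      _ ≤ _ := by rw [one_mul]; exact h2
  · push Not at hex
    rw [(chi_psi_zero p s 1 θ fun x hx => not_le.2 (hex x hx)).1, zero_mul, norm_zero]
    positivity

lemma Err_poly_exp (d j : ℕ) (hd : 2 ≤ d) :
    ((j : ℝ) + 1) * 2 ^ (-((j : ℝ) / (8 * d))) ≤ 16 * d := by
  have hdr : (2 : ℝ) ≤ d := by exact_mod_cast hd
  have hd0 : (0 : ℝ) < d := by linarith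
  set x : ℝ := (j : ℝ) / (8 * d) with hx
  have hx0 : 0 ≤ x := by positivity
  have hj : (j : ℝ) = 8 * d * x := by rw [hx]; field_simp
  have h2 : (1 + x) / 2 ≤ (2 : ℝ) ^ x := by
    rw [Real.rpow_def_of_pos (by norm_num)]
    have h3 := Real.add_one_le_exp (Real.log 2 * x)
    have h4 : (1 / 2 : ℝ) ≤ Real.log 2 := by linarith [Real.log_two_gt_d9]
    nlinarith
  rw [Real.rpow_neg (by norm_num), ← div_eq_mul_inv, div_le_iff₀ (by positivity)]
  have h5 : 16 * (d : ℝ) * ((1 + x) / 2) ≤ 16 * d * 2 ^ x :=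
    mul_le_mul_of_nonneg_left h2 (by positivity)
  rw [hj]
  nlinarith

lemma Err_pow_le {j s : ℕ} (hs : s ≤ j / 4) : (2 : ℝ) ^ s ≤ 2 ^ ((j : ℝ) / 4) := by
  rw [← Real.rpow_natCast]
  apply Real.rpow_le_rpow_of_exponent_le (by norm_num)
  have h1 : s * 4 ≤ j := by omega
  have h2 : (s : ℝ) * 4 ≤ j := by exact_mod_cast h1
  linarith

lemma Err_lower (d j s s0 : ℕ) (hd : 2 ≤ d) (hj : 4 ≤ j) (hs : s ≤ j / 4) (hs0 : s0 ≤ j / 4)
    (θ : ℝ) {x x0 : ℕ × ℕ} (hx : x ∈ Rs s) (hx0 : x0 ∈ Rs s0) (hne : s ≠ s0)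
    (h0 : nn (θ - fr x0) ≤ Err_thr d j) : Err_thr d j ≤ nn (θ - fr x) := by
  obtain ⟨a1, a2, a3, a4⟩ := Err_mem hx
  obtain ⟨b1, b2, b3, b4⟩ := Err_mem hx0
  have hne' : x0 ≠ x := by
    rintro rfl
    rcases Nat.lt_or_gt_of_ne hne with h | h
    · have : 2 ^ (s + 1) ≤ 2 ^ s0 := Nat.pow_le_pow_right (by norm_num) h
      omega
    · have : 2 ^ (s0 + 1) ≤ 2 ^ s := Nat.pow_le_pow_right (by norm_num) h
      omega
  have h1 := Err_sep b3 b4 a3 a4 hne'
  have h2 := Err_nn_tri θ (fr x0) (fr x)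
  have h3 : (2 : ℝ) * Err_thr d j ≤ 1 / ((x0.2 : ℝ) * x.2) := by
    have hx2 : (x.2 : ℝ) ≤ 2 * 2 ^ ((j : ℝ) / 4) := by
      have : (x.2 : ℝ) ≤ 2 ^ (s + 1) := by exact_mod_cast a2.le
      have h4 := Err_pow_le hs
      rw [pow_succ] at this
      linarith
    have hx02 : (x0.2 : ℝ) ≤ 2 * 2 ^ ((j : ℝ) / 4) := by
      have : (x0.2 : ℝ) ≤ 2 ^ (s0 + 1) := by exact_mod_cast b2.le
      have h4 := Err_pow_le hs0
      rw [pow_succ] at this
      linarith
    have hpos : (0 : ℝ) < (x0.2 : ℝ) * x.2 := by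
      have hx0 : 0 < x.2 := by omega
      have hy0 : 0 < x0.2 := by omega
      positivity
    rw [le_div_iff₀ hpos]
    calc 2 * Err_thr d j * ((x0.2 : ℝ) * x.2) ≤
          2 * Err_thr d j * ((2 * 2 ^ ((j : ℝ) / 4)) * (2 * 2 ^ ((j : ℝ) / 4))) := by
            have := Err_thr_pos d j
            gcongr
      _ = 2 ^ (3 : ℝ) * (Err_thr d j * (2 ^ ((j : ℝ) / 4) * 2 ^ ((j : ℝ) / 4))) := by
          norm_num
          ring
      _ = 2 ^ (3 + (j : ℝ) * (-(d : ℝ) + 1 / 4) + (j : ℝ) / 2) := by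
          unfold Err_thr
          rw [← Real.rpow_add (by norm_num), ← Real.rpow_add (by norm_num),
            ← Real.rpow_add (by norm_num)]
          congr 1
          ring
      _ ≤ 1 := by
          apply Real.rpow_le_one_of_one_le_of_nonpos (by norm_num)
          have hdr : (2 : ℝ) ≤ d := by exact_mod_cast hd
          have hjr : (4 : ℝ) ≤ j := by exact_mod_cast hj
          nlinarith
  linarith

/-- an arbitrary fraction is a reduced one plus an integer -/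
lemma Err_reduce (q : ℕ) (a : ℤ) (hq : 1 ≤ q) : ∃ (x : ℕ × ℕ) (k : ℤ), x.1 < x.2 ∧
    Nat.Coprime x.1 x.2 ∧ x.2 ≤ q ∧ (a : ℝ) / q = fr x + k := by
  set r : ℚ := (a : ℚ) / q with hr
  have hden : r.den ∣ q := by
    have h2 := Rat.den_dvd a q
    rw [Rat.divInt_eq_div] at h2
    have h3 : (r.den : ℤ) ∣ (q : ℤ) := by
      rw [hr]
      simpa using h2
    exact_mod_cast h3
  have hdpos : 0 < r.den := r.den_pos
  refine ⟨((r.num % r.den).toNat, r.den), r.num / r.den, ?_, ?_, Nat.le_of_dvd (by omega) hden, ?_⟩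
  · simp only
    have h1 : r.num % r.den < r.den := Int.emod_lt_of_pos _ (by exact_mod_cast hdpos)
    have h2 : 0 ≤ r.num % r.den := Int.emod_nonneg _ (by exact_mod_cast hdpos.ne')
    omega
  · simp only
    have h2 : 0 ≤ r.num % r.den := Int.emod_nonneg _ (by exact_mod_cast hdpos.ne')
    have h3 : IsCoprime (r.num % r.den) (r.den : ℤ) := by
      have h4 : IsCoprime r.num (r.den : ℤ) := by
        rw [Int.isCoprime_iff_gcd_eq_one, Int.gcd, Int.natAbs_natCast]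
        exact r.reduced
      have h5 : r.num % r.den = r.num + r.den * (-(r.num / r.den)) := by
        have := Int.emod_add_mul_ediv r.num r.den
        linarith
      rw [h5]
      exact IsCoprime.add_mul_left_left h4 _
    have h6 : ((r.num % r.den).toNat : ℤ) = r.num % r.den := Int.toNat_of_nonneg h2
    rw [← h6] at h3
    exact Nat.isCoprime_iff_coprime.1 h3
  · unfold fr
    simp only
    have h2 : 0 ≤ r.num % r.den := Int.emod_nonneg _ (by exact_mod_cast hdpos.ne')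
    have h6 : ((r.num % r.den).toNat : ℤ) = r.num % r.den := Int.toNat_of_nonneg h2
    have h7 : (((r.num % r.den).toNat : ℕ) : ℝ) = ((r.num % r.den : ℤ) : ℝ) := by
      have : (((r.num % r.den).toNat : ℤ) : ℝ) = ((r.num % r.den : ℤ) : ℝ) := by rw [h6]
      exact_mod_cast this
    rw [h7]
    have h8 : ((r.num % r.den : ℤ) : ℝ) = (r.num : ℝ) - r.den * ((r.num / r.den : ℤ) : ℝ) := by
      have h9 := Int.emod_add_mul_ediv r.num r.den
      have h10 : ((r.num % r.den : ℤ) : ℝ) + (r.den : ℝ) * ((r.num / r.den : ℤ) : ℝ) = (r.num : ℝ) := by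
        exact_mod_cast h9
      linarith
    rw [h8]
    have hd0 : (r.den : ℝ) ≠ 0 := by exact_mod_cast hdpos.ne'
    have h11 : (a : ℝ) / q = (r : ℝ) := by
      rw [hr]; push_cast; rfl
    rw [h11]
    have h12 : (r : ℝ) = (r.num : ℝ) / r.den := by
      exact_mod_cast (Rat.cast_def r : (r : ℝ) = (r.num : ℝ) / r.den)
    rw [h12]
    field_simp
    ring

theorem err (p : ℤ[X]) (hd : 2 ≤ p.natDegree) : ∃ C δ : ℝ, 1 ≤ C ∧ 0 < δ ∧
    ∀ (j : ℕ) (θ : ℝ), ‖mm p (2 ^ j) θ - ∑ s ∈ range (j / 4 + 1), Chi p s θ * Psi p s (2 ^ j) θ‖ ≤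
      C * 2 ^ (-(δ * j)) := by
  obtain ⟨Cw, δw, hCw, hδw, hδw1, hw⟩ := weyl p hd
  obtain ⟨Cm, hCm, hm⟩ := major p (by omega)
  set d := p.natDegree with hdd
  have hdr : (2 : ℝ) ≤ d := by exact_mod_cast hd
  have hd0 : (0 : ℝ) < d := by linarith
  set δ := min δw (1 / (8 * d)) with hδdef
  have hδ : 0 < δ := lt_min hδw (by positivity)
  have hδ1 : δ ≤ δw := min_le_left _ _
  have hδ2 : δ ≤ 1 / (8 * d) := min_le_right _ _
  have hδ3 : δ ≤ 1 / 16 := hδ2.trans (by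
    rw [div_le_div_iff₀ (by positivity) (by norm_num)]; linarith)
  refine ⟨32 + Cw + 4 * Cm + 64 * d, δ, by linarith, hδ, fun j θ => ?_⟩
  have hE : 0 < (2 : ℝ) ^ (-(δ * j)) := by positivity
  rcases Nat.lt_or_ge j 4 with hj | hj
  · -- small `j`
    have h1 : ‖mm p (2 ^ j) θ - ∑ s ∈ range (j / 4 + 1), Chi p s θ * Psi p s (2 ^ j) θ‖ ≤ 2 := by
      have h0 : j / 4 + 1 = 1 := by omega
      rw [h0, Finset.sum_range_one]
      have h2 := mm_le_one p (2 ^ j) θ
      have h3 : ‖Chi p 0 θ * Psi p 0 (2 ^ j) θ‖ ≤ 1 := by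
        rw [norm_mul]
        exact mul_le_one₀ (Err_chi_le_one p 0 θ) (norm_nonneg _) (Err_psi_le_one p hd 0 _ θ)
      exact (norm_sub_le _ _).trans (by linarith)
    have h2 : (1 / 16 : ℝ) ≤ 2 ^ (-(δ * j)) := by
      have h3 : (1 / 16 : ℝ) = 2 ^ (-4 : ℝ) := by
        rw [Real.rpow_neg (by norm_num)]
        norm_num
      rw [h3]
      apply Real.rpow_le_rpow_of_exponent_le (by norm_num)
      have : (j : ℝ) ≤ 4 := by exact_mod_cast hj.le
      have hj0 : (0 : ℝ) ≤ j := by positivity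
      nlinarith
    nlinarith
  have hjr : (4 : ℝ) ≤ j := by exact_mod_cast hj
  have hNr : (((2 ^ j : ℕ)) : ℝ) = (2 : ℝ) ^ (j : ℝ) := by
    push_cast
    rw [Real.rpow_natCast]
  have hthr : (((2 ^ j : ℕ)) : ℝ) ^ (-(d : ℝ) + 1 / 4) = Err_thr d j := by
    rw [hNr, ← Real.rpow_mul (by norm_num)]; rfl
  -- the total of the small terms
  have hsmall : 4 * ((j : ℝ) + 1) * 2 ^ (-((j : ℝ) / (4 * d))) ≤ 64 * d * 2 ^ (-(δ * j)) := by
    have h1 : (2 : ℝ) ^ (-((j : ℝ) / (4 * d))) =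
        2 ^ (-((j : ℝ) / (8 * d))) * 2 ^ (-((j : ℝ) / (8 * d))) := by
      rw [← Real.rpow_add (by norm_num)]
      congr 1
      field_simp
      ring
    have h2 : (2 : ℝ) ^ (-((j : ℝ) / (8 * d))) ≤ 2 ^ (-(δ * j)) := by
      apply Real.rpow_le_rpow_of_exponent_le (by norm_num)
      have : δ * j ≤ 1 / (8 * d) * j := mul_le_mul_of_nonneg_right hδ2 (by positivity)
      have h3 : 1 / (8 * (d : ℝ)) * j = (j : ℝ) / (8 * d) := by ring
      linarith
    have h3 := Err_poly_exp d j hd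
    rw [h1]
    calc 4 * ((j : ℝ) + 1) * (2 ^ (-((j : ℝ) / (8 * d))) * 2 ^ (-((j : ℝ) / (8 * d)))) =
          4 * (((j : ℝ) + 1) * 2 ^ (-((j : ℝ) / (8 * d)))) * 2 ^ (-((j : ℝ) / (8 * d))) := by ring
      _ ≤ 4 * (16 * d) * 2 ^ (-(δ * j)) := by
          apply mul_le_mul _ h2 (by positivity) (by positivity)
          linarith
      _ = _ := by ring
  have hcount : ((range (j / 4 + 1)).card : ℝ) ≤ j + 1 := by
    rw [Finset.card_range]
    push_cast
    have : j / 4 ≤ j := Nat.div_le_self _ _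
    have h2 : ((j / 4 : ℕ) : ℝ) ≤ j := by exact_mod_cast this
    linarith
  have htpos : 0 < (4 : ℝ) * 2 ^ (-((j : ℝ) / (4 * d))) := by positivity
  by_cases hA : ∃ (q : ℕ) (a : ℤ), 1 ≤ q ∧ q < 2 ^ (j / 4 + 1) ∧ |θ - a / q| ≤ Err_thr d j
  · -- major arc
    obtain ⟨q, a, hq1, hq2, hq3⟩ := hA
    obtain ⟨x0, k, hx1, hx2, hx3, hx4⟩ := Err_reduce q a hq1
    set s0 := Nat.log 2 x0.2 with hs0
    have hx0pos : 0 < x0.2 := by omega
    have hs1 : 2 ^ s0 ≤ x0.2 := Nat.pow_log_le_self 2 hx0pos.ne'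
    have hs2 : x0.2 < 2 ^ (s0 + 1) := Nat.lt_pow_succ_log_self (by norm_num) _
    have hs3 : s0 ≤ j / 4 := by
      have h1 : 2 ^ s0 < 2 ^ (j / 4 + 1) := by omega
      have := (Nat.pow_lt_pow_iff_right (by norm_num : 1 < 2)).1 h1
      omega
    have hx0 : x0 ∈ Rs s0 := Err_mem' hs1 hs2 hx1 hx2
    set β := θ - a / q with hβ
    have hθ : θ = (fr x0 + β) + (k : ℤ) := by
      rw [hβ, hx4]; ring
    have hθ2 : θ - fr x0 = β + (k : ℤ) := by
      rw [hβ, hx4]; ring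
    have hnn0 : nn (θ - fr x0) ≤ Err_thr d j := by
      rw [hθ2, nn_add_int]
      have := nn_le β 0
      simp only [Int.cast_zero, sub_zero] at this
      exact this.trans hq3
    have hthrws : Err_thr d j ≤ ws s0 := by
      unfold Err_thr ws
      have h0 : (1 : ℝ) / 2 ^ (2 * s0 + 4) = 2 ^ (-(((2 * s0 + 4 : ℕ)) : ℝ)) := by
        rw [Real.rpow_neg (by norm_num), Real.rpow_natCast, one_div]
      rw [h0]
      apply Real.rpow_le_rpow_of_exponent_le (by norm_num)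
      have h1 : s0 * 4 ≤ j := by omega
      have h2 : (s0 : ℝ) * 4 ≤ j := by exact_mod_cast h1
      push_cast
      nlinarith
    obtain ⟨hchi, hpsi⟩ := chi_psi p s0 (2 ^ j) θ hx0 (hnn0.trans hthrws)
    have hmaj : ‖mm p (2 ^ j) θ - Chi p s0 θ * Psi p s0 (2 ^ j) θ‖ ≤ 4 * Cm * 2 ^ (-(δ * j)) := by
      have h1 := hm (2 ^ j) x0.2 Nat.one_le_two_pow (by omega) x0.1 β
      rw [hchi, hpsi, hθ2, VV_add_int]
      have h2 : mm p (2 ^ j) θ = mm p (2 ^ j) (((x0.1 : ℤ) : ℝ) / x0.2 + β) := by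
        rw [hθ, mm_add_int]
        unfold fr
        push_cast
        rfl
      have h3 : mm p x0.2 (fr x0) = mm p x0.2 (((x0.1 : ℤ) : ℝ) / x0.2) := by
        unfold fr
        push_cast
        rfl
      rw [h2, h3]
      refine h1.trans ?_
      have hq4 : (x0.2 : ℝ) ≤ 2 * 2 ^ ((j : ℝ) / 4) := by
        have : (x0.2 : ℝ) ≤ 2 ^ (s0 + 1) := by exact_mod_cast hs2.le
        have h4 := Err_pow_le hs3
        rw [pow_succ] at this
        linarith
      have h5 : (((2 ^ j : ℕ)) : ℝ) ^ d * |β| ≤ 2 ^ ((j : ℝ) / 4) := by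
        calc (((2 ^ j : ℕ)) : ℝ) ^ d * |β| ≤ (((2 ^ j : ℕ)) : ℝ) ^ d * Err_thr d j :=
              mul_le_mul_of_nonneg_left hq3 (by positivity)
          _ = 2 ^ ((j : ℝ) / 4) := by
              rw [hNr, ← Real.rpow_natCast, ← Real.rpow_mul (by norm_num)]
              unfold Err_thr
              rw [← Real.rpow_add (by norm_num)]
              congr 1
              ring
      have h6 : (1 : ℝ) ≤ 2 ^ ((j : ℝ) / 4) := Real.one_le_rpow (by norm_num) (by positivity)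
      rw [hNr, div_le_iff₀ (by positivity)]
      rw [hNr] at h5
      calc Cm * (x0.2 : ℝ) * (1 + ((2 : ℝ) ^ (j : ℝ)) ^ d * |β|) ≤
            Cm * (2 * 2 ^ ((j : ℝ) / 4)) * (2 ^ ((j : ℝ) / 4) + 2 ^ ((j : ℝ) / 4)) := by
              gcongr
        _ = 4 * Cm * (2 ^ ((j : ℝ) / 4) * 2 ^ ((j : ℝ) / 4)) := by ring
        _ = 4 * Cm * 2 ^ ((j : ℝ) / 2) := by
              rw [← Real.rpow_add (by norm_num)]
              congr 2
              ring
        _ ≤ 4 * Cm * 2 ^ (-(δ * j) + j) := by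
              apply mul_le_mul_of_nonneg_left _ (by positivity)
              apply Real.rpow_le_rpow_of_exponent_le (by norm_num)
              nlinarith
        _ = 4 * Cm * 2 ^ (-(δ * j)) * 2 ^ (j : ℝ) := by
              rw [Real.rpow_add (by norm_num)]
              ring
    have hmem : s0 ∈ range (j / 4 + 1) := Finset.mem_range.2 (by omega)
    rw [← Finset.add_sum_erase _ _ hmem]
    have hrest : ‖∑ s ∈ (range (j / 4 + 1)).erase s0, Chi p s θ * Psi p s (2 ^ j) θ‖ ≤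
        64 * d * 2 ^ (-(δ * j)) := by
      calc _ ≤ ∑ s ∈ (range (j / 4 + 1)).erase s0, ‖Chi p s θ * Psi p s (2 ^ j) θ‖ :=
            norm_sum_le _ _
        _ ≤ ∑ s ∈ (range (j / 4 + 1)).erase s0, 4 * 2 ^ (-((j : ℝ) / (4 * d))) := by
            apply Finset.sum_le_sum
            intro s hs
            rw [Finset.mem_erase, Finset.mem_range] at hs
            apply Err_term p hd j s θ
            intro x hx _
            exact Err_lower d j s s0 hd hj (by omega) hs3 θ hx hx0 hs.1 hnn0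
        _ ≤ ∑ s ∈ range (j / 4 + 1), 4 * 2 ^ (-((j : ℝ) / (4 * d))) :=
            Finset.sum_le_sum_of_subset_of_nonneg (Finset.erase_subset _ _)
              fun _ _ _ => htpos.le
        _ = ((range (j / 4 + 1)).card : ℝ) * (4 * 2 ^ (-((j : ℝ) / (4 * d)))) := by
            rw [Finset.sum_const, nsmul_eq_mul]
        _ ≤ (j + 1) * (4 * 2 ^ (-((j : ℝ) / (4 * d)))) :=
            mul_le_mul_of_nonneg_right hcount htpos.le
        _ = 4 * ((j : ℝ) + 1) * 2 ^ (-((j : ℝ) / (4 * d))) := by ring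
        _ ≤ _ := hsmall
    have e1 : mm p (2 ^ j) θ - (Chi p s0 θ * Psi p s0 (2 ^ j) θ +
        ∑ s ∈ (range (j / 4 + 1)).erase s0, Chi p s θ * Psi p s (2 ^ j) θ) =
        (mm p (2 ^ j) θ - Chi p s0 θ * Psi p s0 (2 ^ j) θ) -
        ∑ s ∈ (range (j / 4 + 1)).erase s0, Chi p s θ * Psi p s (2 ^ j) θ := by ring
    rw [e1]
    refine (norm_sub_le _ _).trans ?_
    nlinarith
  · -- minor arc
    push Not at hA
    have hmm : ‖mm p (2 ^ j) θ‖ ≤ Cw * 2 ^ (-(δ * j)) := by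
      rcases hw (2 ^ j) Nat.one_le_two_pow θ with h | ⟨q, a, hq1, hq2, hq3⟩
      · refine h.trans (mul_le_mul_of_nonneg_left ?_ (by linarith))
        rw [hNr, ← Real.rpow_mul (by norm_num)]
        apply Real.rpow_le_rpow_of_exponent_le (by norm_num)
        nlinarith
      · exfalso
        rw [hthr] at hq3
        have hq4 : q < 2 ^ (j / 4 + 1) := by
          rw [hNr, ← Real.rpow_mul (by norm_num)] at hq2
          have h1 : (2 : ℝ) ^ ((j : ℝ) * (1 / 4)) < 2 ^ ((j / 4 + 1 : ℕ) : ℝ) := by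
            apply Real.rpow_lt_rpow_of_exponent_lt (by norm_num)
            have h2 : j < (j / 4 + 1) * 4 := by omega
            have h3 : (j : ℝ) < ((j / 4 + 1 : ℕ) : ℝ) * 4 := by exact_mod_cast h2
            linarith
          rw [Real.rpow_natCast] at h1
          have h2 : (q : ℝ) < 2 ^ (j / 4 + 1) := lt_of_le_of_lt hq2 h1
          exact_mod_cast h2
        exact absurd hq3 (not_le.2 (hA q a hq1 hq4))
    have hrest : ‖∑ s ∈ range (j / 4 + 1), Chi p s θ * Psi p s (2 ^ j) θ‖ ≤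
        64 * d * 2 ^ (-(δ * j)) := by
      calc _ ≤ ∑ s ∈ range (j / 4 + 1), ‖Chi p s θ * Psi p s (2 ^ j) θ‖ :=
            norm_sum_le _ _
        _ ≤ ∑ s ∈ range (j / 4 + 1), 4 * 2 ^ (-((j : ℝ) / (4 * d))) := by
            apply Finset.sum_le_sum
            intro s hs
            rw [Finset.mem_range] at hs
            apply Err_term p hd j s θ
            intro x hx _
            obtain ⟨a1, a2, a3, a4⟩ := Err_mem hx
            have hx2 : (0 : ℝ) < x.2 := by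
              have : 0 < x.2 := by omega
              exact_mod_cast this
            have h1 : nn (θ - fr x) = |θ - ((x.1 + round (θ - fr x) * x.2 : ℤ) : ℝ) / x.2| := by
              unfold nn
              congr 1
              unfold fr
              push_cast
              field_simp
              ring
            rw [h1]
            refine (hA x.2 _ (by omega) ?_).le
            have : 2 ^ (s + 1) ≤ 2 ^ (j / 4 + 1) := Nat.pow_le_pow_right (by norm_num) (by omega)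
            omega
        _ = ((range (j / 4 + 1)).card : ℝ) * (4 * 2 ^ (-((j : ℝ) / (4 * d)))) := by
            rw [Finset.sum_const, nsmul_eq_mul]
        _ ≤ (j + 1) * (4 * 2 ^ (-((j : ℝ) / (4 * d)))) :=
            mul_le_mul_of_nonneg_right hcount htpos.le
        _ = 4 * ((j : ℝ) + 1) * 2 ^ (-((j : ℝ) / (4 * d))) := by ring
        _ ≤ _ := hsmall
    refine (norm_sub_le _ _).trans ?_
    nlinarith

end Pool.Agent.BMX
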