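import Pool.Agent.BMX.Bas

set_option autoImplicit false

/-! Module Fou: Fourier analysis on `ZMod L`. -/

open Finset Filter Topology MeasureTheory Polynomial

namespace Pool.Agent.BMX

theorem Fou_ex_int (L : ℕ) [NeZero L] (n : ℤ) :
    ex ((n : ℝ) / L) = ZMod.stdAddChar (N := L) (n : ZMod L) := by
  rw [ZMod.stdAddChar_coe]
  unfold ex
  congr 1
  push_cast
  ring

theorem Fou_chr (L : ℕ) [NeZero L] (k x : ZMod L) :
    chr L k x = ZMod.stdAddChar (N := L) (k * x) := by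
  have h := Fou_ex_int L ((k.val : ℤ) * (x.val : ℤ))
  have h2 : (((k.val : ℤ) * (x.val : ℤ) : ℤ) : ZMod L) = k * x := by
    push_cast
    rw [ZMod.natCast_zmod_val, ZMod.natCast_zmod_val]
  rw [h2] at h
  rw [← h]
  unfold chr
  congr 1
  push_cast
  ring

theorem Fou_conj (L : ℕ) [NeZero L] (k x : ZMod L) :
    (starRingEnd ℂ) (chr L k x) = ZMod.stdAddChar (N := L) (-(k * x)) := by
  rw [Fou_chr, AddChar.map_neg_eq_conj]

theorem Fou_orth (L : ℕ) [NeZero L] (b : ZMod L) :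
    ∑ k : ZMod L, ZMod.stdAddChar (N := L) (k * b) = if b = 0 then (L : ℂ) else 0 := by
  have h := AddChar.sum_mulShift b (ZMod.isPrimitive_stdAddChar L)
  rw [h, ZMod.card]
  split_ifs <;> simp

theorem Fou_orth2 (L : ℕ) [NeZero L] (k j : ZMod L) :
    ∑ x : ZMod L, chr L k x * (starRingEnd ℂ) (chr L j x) = if k = j then (L : ℂ) else 0 := by
  have h : ∀ x : ZMod L, chr L k x * (starRingEnd ℂ) (chr L j x)
      = ZMod.stdAddChar (N := L) (x * (k - j)) := by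
    intro x
    rw [Fou_conj, Fou_chr, ← AddChar.map_add_eq_mul]
    congr 1
    ring
  simp only [h]
  rw [Fou_orth]
  simp only [sub_eq_zero]

/-- Fourier transform -/
noncomputable def Fou_hat (L : ℕ) [NeZero L] (f : ZMod L → ℂ) (k : ZMod L) : ℂ :=
  ∑ y : ZMod L, f y * (starRingEnd ℂ) (chr L k y)

theorem Fou_tm (L : ℕ) [NeZero L] (μ : ZMod L → ℂ) (f : ZMod L → ℂ) (x : ZMod L) :
    Tm L μ f x = (1 / (L : ℂ)) * ∑ k : ZMod L, μ k * Fou_hat L f k * chr L k x := rfl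

theorem tm_add (L : ℕ) [NeZero L] (μ ν : ZMod L → ℂ) (f : ZMod L → ℂ) (x : ZMod L) :
    Tm L (fun k => μ k + ν k) f x = Tm L μ f x + Tm L ν f x := by
  simp only [Fou_tm, add_mul, sum_add_distrib, mul_add]

theorem tm_sub (L : ℕ) [NeZero L] (μ ν : ZMod L → ℂ) (f : ZMod L → ℂ) (x : ZMod L) :
    Tm L (fun k => μ k - ν k) f x = Tm L μ f x - Tm L ν f x := by
  simp only [Fou_tm, sub_mul, sum_sub_distrib, mul_sub]

theorem tm_sum (L : ℕ) [NeZero L] {ι : Type*} (S : Finset ι) (μ : ι → ZMod L → ℂ)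
    (f : ZMod L → ℂ) (x : ZMod L) :
    Tm L (fun k => ∑ i ∈ S, μ i k) f x = ∑ i ∈ S, Tm L (μ i) f x := by
  simp only [Fou_tm, sum_mul]
  rw [sum_comm, mul_sum]

theorem Fou_smul (L : ℕ) [NeZero L] (c : ℂ) (μ : ZMod L → ℂ) (f : ZMod L → ℂ) (x : ZMod L) :
    Tm L (fun k => c * μ k) f x = c * Tm L μ f x := by
  simp only [Fou_tm, mul_sum]
  refine sum_congr rfl fun k _ => ?_
  ring

theorem Fou_hat_tm (L : ℕ) [NeZero L] (ν : ZMod L → ℂ) (f : ZMod L → ℂ) (k : ZMod L) :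
    Fou_hat L (Tm L ν f) k = ν k * Fou_hat L f k := by
  have hL : (L : ℂ) ≠ 0 := Nat.cast_ne_zero.mpr (NeZero.ne L)
  have h1 : Fou_hat L (Tm L ν f) k = ∑ j : ZMod L, (1 / (L : ℂ)) * (ν j * Fou_hat L f j) *
      ∑ y : ZMod L, chr L j y * (starRingEnd ℂ) (chr L k y) := by
    have h2 : ∀ y : ZMod L, Tm L ν f y * (starRingEnd ℂ) (chr L k y)
        = ∑ j : ZMod L, (1 / (L : ℂ)) * (ν j * Fou_hat L f j) *
          (chr L j y * (starRingEnd ℂ) (chr L k y)) := by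
      intro y
      rw [Fou_tm, mul_assoc, sum_mul, mul_sum]
      refine sum_congr rfl fun j _ => ?_
      ring
    rw [Fou_hat]
    rw [sum_congr rfl (fun y _ => h2 y), sum_comm]
    refine sum_congr rfl fun j _ => ?_
    rw [mul_sum]
  rw [h1]
  simp only [Fou_orth2]
  rw [Finset.sum_eq_single k]
  · rw [if_pos rfl]
    field_simp
  · intro j _ hj
    rw [if_neg hj, mul_zero]
  · intro h
    exact absurd (mem_univ k) h

theorem tm_comp (L : ℕ) [NeZero L] (μ ν : ZMod L → ℂ) (f : ZMod L → ℂ) (x : ZMod L) :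
    Tm L μ (Tm L ν f) x = Tm L (fun k => μ k * ν k) f x := by
  rw [Fou_tm, Fou_tm]
  simp only [Fou_hat_tm, mul_assoc]

/-- Parseval -/
theorem Fou_parseval (L : ℕ) [NeZero L] (c : ZMod L → ℂ) :
    ∑ x : ZMod L, ‖∑ k : ZMod L, c k * chr L k x‖ ^ 2 = L * ∑ k : ZMod L, ‖c k‖ ^ 2 := by
  have key : ((∑ x : ZMod L, ‖∑ k : ZMod L, c k * chr L k x‖ ^ 2 : ℝ) : ℂ)
      = ((L * ∑ k : ZMod L, ‖c k‖ ^ 2 : ℝ) : ℂ) := by
    push_cast
    have hz : ∀ z : ℂ, ((‖z‖ : ℂ)) ^ 2 = z * (starRingEnd ℂ) z := fun z => (Complex.mul_conj' z).symm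
    simp only [hz]
    have h1 : ∀ x : ZMod L, (∑ k : ZMod L, c k * chr L k x) *
        (starRingEnd ℂ) (∑ k : ZMod L, c k * chr L k x)
        = ∑ k : ZMod L, ∑ j : ZMod L, c k * (starRingEnd ℂ) (c j) *
          (chr L k x * (starRingEnd ℂ) (chr L j x)) := by
      intro x
      rw [map_sum, sum_mul_sum]
      refine sum_congr rfl fun k _ => sum_congr rfl fun j _ => ?_
      rw [map_mul]
      ring
    rw [sum_congr rfl (fun x _ => h1 x), sum_comm, mul_sum]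
    refine sum_congr rfl fun k _ => ?_
    rw [sum_comm]
    simp only [← mul_sum, Fou_orth2]
    rw [Finset.sum_eq_single k]
    · rw [if_pos rfl]
      ring
    · intro j _ hj
      rw [if_neg (Ne.symm hj), mul_zero]
    · intro h
      exact absurd (mem_univ k) h
  exact_mod_cast key

theorem Fou_chr_comm (L : ℕ) [NeZero L] (k x : ZMod L) : chr L k x = chr L x k := by
  rw [Fou_chr, Fou_chr, mul_comm]

theorem Fou_plancherel (L : ℕ) [NeZero L] (f : ZMod L → ℂ) :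
    ∑ k : ZMod L, ‖Fou_hat L f k‖ ^ 2 = L * ∑ y : ZMod L, ‖f y‖ ^ 2 := by
  have h := Fou_parseval L (fun y => (starRingEnd ℂ) (f y))
  have h2 : ∀ k : ZMod L, ‖Fou_hat L f k‖ = ‖∑ y : ZMod L, (starRingEnd ℂ) (f y) * chr L y k‖ := by
    intro k
    rw [← Complex.norm_conj]
    congr 1
    rw [Fou_hat, map_sum]
    refine sum_congr rfl fun y _ => ?_
    rw [map_mul, Complex.conj_conj, Fou_chr_comm]
  simp only [h2]
  rw [h]
  simp only [Complex.norm_conj]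

theorem Fou_l2_tm (L : ℕ) [NeZero L] (μ : ZMod L → ℂ) (f : ZMod L → ℂ) :
    l2 L (Tm L μ f) ^ 2 = (1 / (L : ℝ)) * ∑ k : ZMod L, ‖μ k‖ ^ 2 * ‖Fou_hat L f k‖ ^ 2 := by
  have hL : (L : ℝ) ≠ 0 := Nat.cast_ne_zero.mpr (NeZero.ne L)
  unfold l2
  rw [Real.sq_sqrt (sum_nonneg fun x _ => by positivity)]
  have h := Fou_parseval L (fun k => μ k * Fou_hat L f k)
  have h2 : ∀ x : ZMod L, ‖Tm L μ f x‖ ^ 2 = (1 / (L : ℝ)) ^ 2 *
      ‖∑ k : ZMod L, μ k * Fou_hat L f k * chr L k x‖ ^ 2 := by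
    intro x
    rw [Fou_tm, norm_mul, mul_pow]
    congr 2
    rw [norm_div, norm_one, Complex.norm_natCast]
  simp only [h2]
  rw [← mul_sum, h]
  simp only [norm_mul, mul_pow]
  field_simp

theorem Fou_l2_hat (L : ℕ) [NeZero L] (f : ZMod L → ℂ) :
    l2 L f ^ 2 = (1 / (L : ℝ)) * ∑ k : ZMod L, ‖Fou_hat L f k‖ ^ 2 := by
  have hL : (L : ℝ) ≠ 0 := Nat.cast_ne_zero.mpr (NeZero.ne L)
  unfold l2
  rw [Real.sq_sqrt (sum_nonneg fun x _ => by positivity), Fou_plancherel]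
  field_simp

/-- square function bound -/
theorem tm_sq (L : ℕ) [NeZero L] {ι : Type*} (S : Finset ι) (μ : ι → ZMod L → ℂ) (B : ℝ)
    (hB : 0 ≤ B) (h : ∀ k, ∑ i ∈ S, ‖μ i k‖ ^ 2 ≤ B ^ 2) (f : ZMod L → ℂ) :
    √(∑ i ∈ S, l2 L (Tm L (μ i) f) ^ 2) ≤ B * l2 L f := by
  have hl : 0 ≤ l2 L f := Real.sqrt_nonneg _
  apply Real.sqrt_le_iff.mpr
  refine ⟨mul_nonneg hB hl, ?_⟩
  rw [mul_pow, Fou_l2_hat L f]
  simp only [Fou_l2_tm]
  rw [← mul_sum, sum_comm]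
  have h1 : ∑ k : ZMod L, ∑ i ∈ S, ‖μ i k‖ ^ 2 * ‖Fou_hat L f k‖ ^ 2
      ≤ B ^ 2 * ∑ k : ZMod L, ‖Fou_hat L f k‖ ^ 2 := by
    rw [mul_sum]
    refine sum_le_sum fun k _ => ?_
    rw [← sum_mul]
    exact mul_le_mul_of_nonneg_right (h k) (by positivity)
  calc (1 / (L : ℝ)) * ∑ k : ZMod L, ∑ i ∈ S, ‖μ i k‖ ^ 2 * ‖Fou_hat L f k‖ ^ 2
      ≤ (1 / (L : ℝ)) * (B ^ 2 * ∑ k : ZMod L, ‖Fou_hat L f k‖ ^ 2) :=
        mul_le_mul_of_nonneg_left h1 (by positivity)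
    _ = B ^ 2 * ((1 / (L : ℝ)) * ∑ k : ZMod L, ‖Fou_hat L f k‖ ^ 2) := by ring

/-- boundedness -/
theorem tm_bd (L : ℕ) [NeZero L] (μ : ZMod L → ℂ) (B : ℝ) (hB : 0 ≤ B) (h : ∀ k, ‖μ k‖ ≤ B)
    (f : ZMod L → ℂ) : l2 L (Tm L μ f) ≤ B * l2 L f := by
  have h1 := tm_sq L ({()} : Finset Unit) (fun _ => μ) B hB (by
    intro k
    rw [sum_singleton]
    exact pow_le_pow_left₀ (norm_nonneg _) (h k) 2) f
  have h0 : 0 ≤ l2 L (Tm L μ f) := Real.sqrt_nonneg _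
  rw [sum_singleton, Real.sqrt_sq h0] at h1
  exact h1

/-- translations -/
theorem tm_shift (L : ℕ) [NeZero L] (a : ℤ) (f : ZMod L → ℂ) (x : ZMod L) :
    Tm L (fun k => ex ((a : ℝ) * th L k)) f x = f (x + (a : ZMod L)) := by
  have hL : (L : ℂ) ≠ 0 := Nat.cast_ne_zero.mpr (NeZero.ne L)
  have he : ∀ k : ZMod L, ex ((a : ℝ) * th L k) = ZMod.stdAddChar (N := L) (k * (a : ZMod L)) := by
    intro k
    have h := Fou_ex_int L (a * (k.val : ℤ))
    have h2 : ((a * (k.val : ℤ) : ℤ) : ZMod L) = k * (a : ZMod L) := by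
      push_cast
      rw [ZMod.natCast_zmod_val, mul_comm]
    rw [h2] at h
    rw [← h]
    congr 1
    unfold th
    push_cast
    ring
  rw [Fou_tm]
  have h3 : ∀ k : ZMod L, ex ((a : ℝ) * th L k) * Fou_hat L f k * chr L k x
      = ∑ y : ZMod L, f y * ZMod.stdAddChar (N := L) (k * ((a : ZMod L) + x - y)) := by
    intro k
    rw [he, Fou_hat, mul_sum, sum_mul]
    refine sum_congr rfl fun y _ => ?_
    rw [Fou_conj, Fou_chr]
    have h4 : k * ((a : ZMod L) + x - y) = k * (a : ZMod L) + (-(k * y)) + k * x := by ring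
    rw [h4, AddChar.map_add_eq_mul, AddChar.map_add_eq_mul]
    ring
  rw [sum_congr rfl (fun k _ => h3 k), sum_comm]
  simp only [← mul_sum, Fou_orth]
  rw [Finset.sum_eq_single (x + (a : ZMod L))]
  · rw [if_pos (by ring)]
    field_simp
  · intro y _ hy
    rw [if_neg, mul_zero]
    intro h0
    apply hy
    linear_combination -h0
  · intro h
    exact absurd (mem_univ _) h

/-- averages along the values of `p` -/
theorem tm_avg (L : ℕ) [NeZero L] (p : ℤ[X]) (N : ℕ) (f : ZMod L → ℂ) (x : ZMod L) :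
    Tm L (fun k => mm p N (th L k)) f x =
      (1 / (N : ℂ)) * ∑ n ∈ Icc 1 N, f (x + ((p.eval (n : ℤ) : ℤ) : ZMod L)) := by
  unfold mm
  rw [Fou_smul L (1 / (N : ℂ)) (fun k => ∑ n ∈ Icc 1 N, ex (((p.eval (n : ℤ) : ℤ) : ℝ) * th L k)) f x,
    tm_sum L (Icc 1 N) (fun n k => ex (((p.eval (n : ℤ) : ℤ) : ℝ) * th L k)) f x]
  congr 1
  refine sum_congr rfl fun n _ => ?_
  exact tm_shift L (p.eval (n : ℤ)) f x

/-- averages with weights along multiples of `Q` -/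
theorem tm_V (L : ℕ) [NeZero L] (d M : ℕ) (Q : ℤ) (f : ZMod L → ℂ) (x : ZMod L) :
    Tm L (fun k => V d M ((Q : ℝ) * th L k)) f x =
      ∑ m ∈ Icc 1 M, (cw d M m : ℂ) * f (x + (((m : ℤ) * Q : ℤ) : ZMod L)) := by
  unfold V
  rw [tm_sum L (Icc 1 M) (fun m k => (cw d M m : ℂ) * ex ((m : ℝ) * ((Q : ℝ) * th L k))) f x]
  refine sum_congr rfl fun m _ => ?_
  rw [Fou_smul L (cw d M m : ℂ) (fun k => ex ((m : ℝ) * ((Q : ℝ) * th L k))) f x]
  congr 1
  rw [← tm_shift L ((m : ℤ) * Q) f x]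
  congr 1
  funext k
  congr 1
  push_cast
  ring

end Pool.Agent.BMX
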