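import Pool.Agent.BMX.WeB

set_option autoImplicit false

/-! Module WeC: consequences for `mm p N θ`, `p ∈ ℤ[t]` of degree `d ≥ 2` with leading coefficient `c`.
`weyl`: `WP d` for `P = θ p` (coefficient `cθ`) with `ε = 1/16`: if `‖mm p N θ‖ > N^{-δ}` and `N ≥ N0` then `|q c θ - a| ≤ N^{-d+1/16}` with `q ≤ N^{1/16}`; so `θ` is within `N^{-d+1/16}/(q|c|) ≤ N^{-d+1/4}` of `a/(qc) = a'/(q|c|)`, `q|c| ≤ N^{1/4}` for large `N`.
For `N < N1` use a large `C` (`‖mm‖ ≤ 1`).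
`gauss`: `N = q`, `θ = a/q`: if `‖S(a/q)‖ > C q^{-δ}` then there is `q' ≤ q^{1/4}` with `|a/q - a'/q'| ≤ q^{-d+1/4} ≤ q^{-7/4}`; if `q' < q` (i.e. `q ≥ 2`) then `a/q ≠ a'/q'` (reduced, larger denominator) and the difference is `≥ 1/(q q') ≥ q^{-5/4}`: contradiction.
(`q = 1` is covered by `C ≥ 1`.) -/

open Finset Filter Topology MeasureTheory Polynomial

namespace Pool.Agent.BMX

theorem mm_le_one (p : ℤ[X]) (N : ℕ) (θ : ℝ) : ‖mm p N θ‖ ≤ 1 := by
  unfold mm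
  rw [norm_mul]
  have h1 : ‖∑ n ∈ Icc 1 N, ex (((p.eval (n : ℤ) : ℤ) : ℝ) * θ)‖ ≤ N := by
    calc _ ≤ ∑ n ∈ Icc 1 N, ‖ex (((p.eval (n : ℤ) : ℤ) : ℝ) * θ)‖ := norm_sum_le _ _
      _ = N := by simp [norm_ex]
  rcases Nat.eq_zero_or_pos N with h0 | h0
  · subst h0; simp
  · have h2 : (0 : ℝ) < N := by exact_mod_cast h0
    have h3 : ‖(1 / (N : ℂ))‖ = 1 / N := by simp
    rw [h3]
    calc 1 / (N : ℝ) * _ ≤ 1 / (N : ℝ) * N := mul_le_mul_of_nonneg_left h1 (by positivity)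
      _ = 1 := by field_simp

lemma WeC_poly (p : ℤ[X]) (θ : ℝ) :
    (Polynomial.C θ * p.map (Int.castRingHom ℝ)).natDegree ≤ p.natDegree ∧
    (Polynomial.C θ * p.map (Int.castRingHom ℝ)).coeff p.natDegree = θ * p.leadingCoeff ∧
    ∀ n : ℕ, (Polynomial.C θ * p.map (Int.castRingHom ℝ)).eval (n : ℝ) =
      ((p.eval (n : ℤ) : ℤ) : ℝ) * θ := by
  refine ⟨?_, ?_, ?_⟩
  · refine (Polynomial.natDegree_C_mul_le _ _).trans ?_
    exact Polynomial.natDegree_map_le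
  · rw [Polynomial.coeff_C_mul, Polynomial.coeff_map]
    rfl
  · intro n
    rw [Polynomial.eval_mul, Polynomial.eval_C, mul_comm]
    congr 1
    rw [Polynomial.eval_natCast_map]
    simp

theorem weyl (p : ℤ[X]) (hd : 2 ≤ p.natDegree) : ∃ C δ : ℝ, 1 ≤ C ∧ 0 < δ ∧ δ ≤ 1 ∧
    ∀ N : ℕ, 1 ≤ N → ∀ θ : ℝ, ‖mm p N θ‖ ≤ C * (N : ℝ) ^ (-δ) ∨
      ∃ (q : ℕ) (a : ℤ), 1 ≤ q ∧ (q : ℝ) ≤ (N : ℝ) ^ (1 / 4 : ℝ) ∧
        |θ - a / q| ≤ (N : ℝ) ^ (-(p.natDegree : ℝ) + 1 / 4) := by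
  obtain ⟨δ, hδ, hδ1, N0, hN01, hWP⟩ := wp p.natDegree (by omega) (1 / 16) (by norm_num)
    (by norm_num)
  set c := p.leadingCoeff with hc
  have hp0 : p ≠ 0 := by
    rintro rfl
    simp at hd
  have hc0 : c ≠ 0 := Polynomial.leadingCoeff_ne_zero.2 hp0
  have hev := ((tendsto_rpow_atTop (by norm_num : (0 : ℝ) < 3 / 16)).comp
    tendsto_natCast_atTop_atTop).eventually_ge_atTop (c.natAbs : ℝ)
  obtain ⟨N2, hN2⟩ := eventually_atTop.1 hev
  set N1 := max N0 N2 with hN1def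
  have hN1 : 1 ≤ N1 := le_trans hN01 (le_max_left _ _)
  have hN1r : (1 : ℝ) ≤ N1 := by exact_mod_cast hN1
  refine ⟨(N1 : ℝ) ^ δ, δ, Real.one_le_rpow hN1r hδ.le, hδ, hδ1.le, fun N hN θ => ?_⟩
  have hNr : (1 : ℝ) ≤ N := by exact_mod_cast hN
  have hNpos : (0 : ℝ) < N := by linarith
  rcases Nat.lt_or_ge N N1 with hlt | hge
  · left
    refine (mm_le_one p N θ).trans ?_
    rw [Real.rpow_neg hNpos.le, ← div_eq_mul_inv, le_div_iff₀ (by positivity), one_mul]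
    apply Real.rpow_le_rpow (by positivity) _ hδ.le
    exact_mod_cast hlt.le
  · by_cases hsm : ‖mm p N θ‖ ≤ (N : ℝ) ^ (-δ)
    · left
      refine hsm.trans ?_
      have h1 : 0 ≤ (N : ℝ) ^ (-δ) := by positivity
      have h2 : 1 ≤ (N1 : ℝ) ^ δ := Real.one_le_rpow hN1r hδ.le
      nlinarith
    · right
      push Not at hsm
      obtain ⟨hdeg, hcoef, heval⟩ := WeC_poly p θ
      have hsum : (N : ℝ) ^ (1 - δ) ≤ ‖∑ n ∈ Icc 1 N,
          ex ((Polynomial.C θ * p.map (Int.castRingHom ℝ)).eval (n : ℝ))‖ := by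
        have e1 : ∑ n ∈ Icc 1 N, ex ((Polynomial.C θ * p.map (Int.castRingHom ℝ)).eval (n : ℝ)) =
            (N : ℂ) * mm p N θ := by
          unfold mm
          rw [← mul_assoc]
          have h2 : (N : ℂ) * (1 / (N : ℂ)) = 1 := by
            have : (N : ℂ) ≠ 0 := by
              have : N ≠ 0 := by omega
              exact_mod_cast this
            field_simp
          rw [h2, one_mul]
          exact Finset.sum_congr rfl fun n _ => by rw [heval]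
        rw [e1, norm_mul, Complex.norm_natCast]
        have e2 : (N : ℝ) ^ (1 - δ) = N * (N : ℝ) ^ (-δ) := by
          rw [sub_eq_add_neg, Real.rpow_add hNpos, Real.rpow_one]
        rw [e2]
        exact mul_le_mul_of_nonneg_left hsm.le hNpos.le
      obtain ⟨q, a, hq1, hq2, hq3⟩ := hWP N (le_trans (le_max_left _ _) hge) _ hdeg hsum
      have hcN : (c.natAbs : ℝ) ≤ (N : ℝ) ^ (3 / 16 : ℝ) :=
        hN2 N (le_trans (le_max_right _ _) hge)
      have hcpos : 1 ≤ c.natAbs := Nat.one_le_iff_ne_zero.2 (Int.natAbs_ne_zero.2 hc0)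
      have hcposr : (1 : ℝ) ≤ (c.natAbs : ℝ) := by exact_mod_cast hcpos
      have hqr : (1 : ℝ) ≤ (q : ℝ) := by exact_mod_cast hq1
      refine ⟨q * c.natAbs, a * c.sign, Nat.mul_pos hq1 hcpos, ?_, ?_⟩
      · push_cast
        calc (q : ℝ) * (c.natAbs : ℝ) ≤ (N : ℝ) ^ (1 / 16 : ℝ) * (N : ℝ) ^ (3 / 16 : ℝ) := by
              apply mul_le_mul hq2 hcN (by positivity) (by positivity)
          _ = (N : ℝ) ^ (1 / 4 : ℝ) := by
              rw [← Real.rpow_add hNpos]; norm_num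
      · rw [hcoef] at hq3
        have hsign : (c.sign : ℝ) * (c : ℝ) = (c.natAbs : ℝ) := by
          have h1 := Int.sign_mul_self_eq_natAbs c
          have h2 : ((c.sign * c : ℤ) : ℝ) = ((c.natAbs : ℤ) : ℝ) := by rw [h1]
          rw [Int.cast_mul, Int.cast_natCast] at h2
          exact h2
        have hsq : (c.sign : ℝ) * (c.sign : ℝ) = 1 := by
          rcases lt_trichotomy c 0 with h | h | h
          · rw [Int.sign_eq_neg_one_of_neg h]; norm_num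
          · exact absurd h hc0
          · rw [Int.sign_eq_one_of_pos h]; norm_num
        have hsabs : |(c.sign : ℝ)| = 1 := by
          have : |(c.sign : ℝ)| ^ 2 = 1 := by rw [sq_abs, sq, hsq]
          exact (pow_eq_one_iff_of_nonneg (abs_nonneg _) two_ne_zero).1 this
        have hQ : (0 : ℝ) < (q : ℝ) * (c.natAbs : ℝ) := by positivity
        have e1 : θ - ((a * c.sign : ℤ) : ℝ) / ((q * c.natAbs : ℕ) : ℝ) =
            (c.sign : ℝ) * (q * (θ * c) - a) / ((q : ℝ) * (c.natAbs : ℝ)) := by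
          rw [Int.cast_mul, Nat.cast_mul, eq_div_iff hQ.ne', sub_mul, div_mul_cancel₀ _ hQ.ne']
          rw [← hsign]
          ring
        rw [e1, abs_div, abs_mul, hsabs, one_mul, abs_of_pos hQ, div_le_iff₀ hQ]
        refine hq3.trans ?_
        have h1 : (N : ℝ) ^ (-(p.natDegree : ℝ) + 1 / 16) ≤ (N : ℝ) ^ (-(p.natDegree : ℝ) + 1 / 4) :=
          Real.rpow_le_rpow_of_exponent_le hNr (by linarith)
        have h2 : 1 ≤ (q : ℝ) * (c.natAbs : ℝ) := by nlinarith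
        have h3 : 0 ≤ (N : ℝ) ^ (-(p.natDegree : ℝ) + 1 / 4) := by positivity
        nlinarith

theorem gauss (p : ℤ[X]) (hd : 2 ≤ p.natDegree) : ∃ C δ : ℝ, 1 ≤ C ∧ 0 < δ ∧ δ ≤ 1 ∧
    ∀ a q : ℕ, 1 ≤ q → Nat.Coprime a q → ‖mm p q ((a : ℝ) / q)‖ ≤ C * (q : ℝ) ^ (-δ) := by
  obtain ⟨C, δ, hC, hδ, hδ1, hw⟩ := weyl p hd
  refine ⟨C, δ, hC, hδ, hδ1, fun a q hq hco => ?_⟩
  rcases hw q hq ((a : ℝ) / q) with h | ⟨q', a', hq'1, hq'2, hq'3⟩
  · exact h
  · rcases Nat.lt_or_ge 1 q with hq1 | hq1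
    swap
    · have : q = 1 := by omega
      subst this
      rw [Nat.cast_one, Real.one_rpow, mul_one]
      exact (mm_le_one p 1 _).trans hC
    exfalso
    have hqr : (1 : ℝ) < q := by exact_mod_cast hq1
    have hqpos : (0 : ℝ) < q := by linarith
    have hq'r : (1 : ℝ) ≤ q' := by exact_mod_cast hq'1
    have hq'pos : (0 : ℝ) < q' := by linarith
    have hlt : q' < q := by
      have : (q' : ℝ) < q := by
        calc (q' : ℝ) ≤ (q : ℝ) ^ (1 / 4 : ℝ) := hq'2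
          _ < (q : ℝ) ^ (1 : ℝ) := Real.rpow_lt_rpow_of_exponent_lt hqr (by norm_num)
          _ = q := Real.rpow_one _
      exact_mod_cast this
    have hne : (a : ℤ) * q' - a' * q ≠ 0 := by
      intro h0
      have h1 : (q : ℤ) ∣ (a : ℤ) * q' := ⟨a', by linarith⟩
      have h2 : q ∣ a * q' := by exact_mod_cast h1
      have h3 : q ∣ q' := (Nat.Coprime.symm hco).dvd_of_dvd_mul_left h2
      exact absurd (Nat.le_of_dvd (by omega) h3) (by omega)
    have habs : (1 : ℝ) ≤ |(a : ℝ) * q' - a' * q| := by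
      have h1 : 1 ≤ |(a : ℤ) * q' - a' * q| := Int.one_le_abs hne
      exact_mod_cast h1
    have e1 : (a : ℝ) / q - a' / q' = ((a : ℝ) * q' - a' * q) / (q * q') := by
      field_simp
    rw [e1, abs_div, abs_of_pos (mul_pos hqpos hq'pos), div_le_iff₀ (mul_pos hqpos hq'pos)] at hq'3
    have h1 : (q : ℝ) ^ (-(p.natDegree : ℝ) + 1 / 4) * (q * q') ≤
        (q : ℝ) ^ (-(7 / 4) : ℝ) * ((q : ℝ) ^ (1 : ℝ) * (q : ℝ) ^ (1 / 4 : ℝ)) := by
      have hd2 : (2 : ℝ) ≤ p.natDegree := by exact_mod_cast hd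
      rw [Real.rpow_one]
      apply mul_le_mul
      · exact Real.rpow_le_rpow_of_exponent_le hqr.le (by linarith)
      · exact mul_le_mul_of_nonneg_left hq'2 hqpos.le
      · positivity
      · positivity
    have h2 : (q : ℝ) ^ (-(7 / 4) : ℝ) * ((q : ℝ) ^ (1 : ℝ) * (q : ℝ) ^ (1 / 4 : ℝ)) < 1 := by
      rw [← Real.rpow_add hqpos, ← Real.rpow_add hqpos]
      apply Real.rpow_lt_one_of_one_lt_of_neg hqr
      norm_num
    linarith

end Pool.Agent.BMX
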