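import Pool.Agent.BMX.Vf
import Pool.Agent.BMX.WeC

set_option autoImplicit false

/-! Module Maj: major arc approximation.  `p` of degree `d ≥ 1`, leading coefficient `c`.
Blocks `n ∈ (uq, (u+1)q]`, `u < ⌊N/q⌋`: `|p(n) - p(uq)| ≤ C N^{d-1} q`, so `|e(p(n)β) - e(p(uq)β)| ≤ 2π |β| C N^{d-1} q`; `∑_{n in block} e(p(n) a/q) = q S(a/q)` (periodicity mod `q`: `p(n) ≡ p(n') mod q`).  So
`∑_{n ≤ N} e(p(n)(a/q+β)) = S ∑_{n ≤ N} e(p(n)β) + O(q + |β| N^d q)` (compare both with `S ∑_u q e(p(uq)β)`).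
`|e(p(n)β) - e(c n^d β)| ≤ 2π |β| C N^{d-1}`.  If `c < 0` write `e(c n^d β) = e(|c| n^d (-β))`.  `V_block`.
`C` depends on `p` only. -/

open Finset Filter Topology MeasureTheory Polynomial

namespace Pool.Agent.BMX

/-- sum of the absolute values of the coefficients -/
private noncomputable def Maj_A (p : ℤ[X]) : ℝ :=
  ∑ k ∈ range (p.natDegree + 1), |(p.coeff k : ℝ)|

private theorem Maj_A_nonneg (p : ℤ[X]) : 0 ≤ Maj_A p :=
  sum_nonneg fun _ _ => abs_nonneg _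

private theorem Maj_eval (p : ℤ[X]) (n : ℕ) : ((p.eval (n : ℤ) : ℤ) : ℝ) =
    ∑ k ∈ range (p.natDegree + 1), (p.coeff k : ℝ) * (n : ℝ) ^ k := by
  rw [Polynomial.eval_eq_sum_range]
  push_cast
  rfl

private theorem Maj_pow_diff {d N m n k : ℕ} (hN : 1 ≤ N) (hmn : m ≤ n) (hn : n ≤ N) (hk : k ≤ d) :
    |(n : ℝ) ^ k - (m : ℝ) ^ k| ≤ d * (N : ℝ) ^ (d - 1) * ((n : ℝ) - m) := by
  have h1 := abs_pow_sub_pow_le (n : ℝ) (m : ℝ) k
  have hm0 : (0 : ℝ) ≤ m := Nat.cast_nonneg _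
  have hn0 : (0 : ℝ) ≤ n := Nat.cast_nonneg _
  have hmn' : (m : ℝ) ≤ n := by exact_mod_cast hmn
  have hnN : (n : ℝ) ≤ N := by exact_mod_cast hn
  have hN1 : (1 : ℝ) ≤ N := by exact_mod_cast hN
  have hkd : (k : ℝ) ≤ d := by exact_mod_cast hk
  rw [abs_of_nonneg hm0, abs_of_nonneg hn0, max_eq_left hmn',
    abs_of_nonneg (sub_nonneg.2 hmn')] at h1
  refine h1.trans ?_
  have h2 : (n : ℝ) ^ (k - 1) ≤ (N : ℝ) ^ (d - 1) :=
    (pow_le_pow_left₀ hn0 hnN _).trans (pow_le_pow_right₀ hN1 (by omega))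
  calc ((n : ℝ) - m) * k * (n : ℝ) ^ (k - 1) ≤ ((n : ℝ) - m) * d * (N : ℝ) ^ (d - 1) := by
        have : (0 : ℝ) ≤ (n : ℝ) - m := sub_nonneg.2 hmn'
        gcongr
    _ = d * (N : ℝ) ^ (d - 1) * ((n : ℝ) - m) := by ring

private theorem Maj_diff (p : ℤ[X]) {N m n : ℕ} (hN : 1 ≤ N) (hmn : m ≤ n) (hn : n ≤ N) :
    |((p.eval (n : ℤ) : ℤ) : ℝ) - ((p.eval (m : ℤ) : ℤ) : ℝ)| ≤
      Maj_A p * (p.natDegree * (N : ℝ) ^ (p.natDegree - 1) * ((n : ℝ) - m)) := by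
  rw [Maj_eval, Maj_eval, ← sum_sub_distrib, Maj_A, sum_mul]
  refine (abs_sum_le_sum_abs _ _).trans (sum_le_sum fun k hk => ?_)
  rw [← mul_sub, abs_mul]
  exact mul_le_mul_of_nonneg_left
    (Maj_pow_diff hN hmn hn (Nat.lt_succ_iff.1 (mem_range.1 hk))) (abs_nonneg _)

private theorem Maj_lead (p : ℤ[X]) {N n : ℕ} (hN : 1 ≤ N) (hn : n ≤ N) :
    |((p.eval (n : ℤ) : ℤ) : ℝ) - (p.leadingCoeff : ℝ) * (n : ℝ) ^ p.natDegree| ≤
      Maj_A p * (N : ℝ) ^ (p.natDegree - 1) := by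
  rw [Maj_eval, sum_range_succ, Polynomial.leadingCoeff, add_sub_cancel_right]
  have hN1 : (1 : ℝ) ≤ N := by exact_mod_cast hN
  have hnN : (n : ℝ) ≤ N := by exact_mod_cast hn
  refine (abs_sum_le_sum_abs _ _).trans ?_
  have h1 : ∑ k ∈ range p.natDegree, |(p.coeff k : ℝ) * (n : ℝ) ^ k| ≤
      ∑ k ∈ range p.natDegree, |(p.coeff k : ℝ)| * (N : ℝ) ^ (p.natDegree - 1) := by
    refine sum_le_sum fun k hk => ?_
    rw [abs_mul, abs_of_nonneg (a := (n : ℝ) ^ k) (pow_nonneg (Nat.cast_nonneg n) k)]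
    refine mul_le_mul_of_nonneg_left ?_ (abs_nonneg _)
    have := mem_range.1 hk
    exact (pow_le_pow_left₀ (Nat.cast_nonneg n) hnN _).trans
      (pow_le_pow_right₀ hN1 (by omega))
  refine h1.trans ?_
  rw [← sum_mul]
  refine mul_le_mul_of_nonneg_right ?_ (pow_nonneg (Nat.cast_nonneg N) _)
  rw [Maj_A, sum_range_succ]
  linarith [abs_nonneg ((p.coeff p.natDegree : ℝ))]

private theorem Maj_period (p : ℤ[X]) (q u i : ℕ) (hq : 1 ≤ q) (a : ℤ) :
    ex (((p.eval ((u * q + i : ℕ) : ℤ) : ℤ) : ℝ) * ((a : ℝ) / q)) =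
      ex (((p.eval (i : ℤ) : ℤ) : ℝ) * ((a : ℝ) / q)) := by
  have h1 := Polynomial.sub_dvd_eval_sub ((u * q + i : ℕ) : ℤ) (i : ℤ) p
  have h2 : (q : ℤ) ∣ ((u * q + i : ℕ) : ℤ) - (i : ℤ) := ⟨u, by push_cast; ring⟩
  obtain ⟨t, ht⟩ := h2.trans h1
  have h3 : p.eval ((u * q + i : ℕ) : ℤ) = p.eval (i : ℤ) + q * t := by
    rw [← ht]; ring
  have hq0 : (q : ℝ) ≠ 0 := by
    have : (1 : ℝ) ≤ q := by exact_mod_cast hq
    linarith
  rw [h3]
  have h4 : (((p.eval (i : ℤ) + q * t : ℤ) : ℤ) : ℝ) * ((a : ℝ) / q) =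
      ((p.eval (i : ℤ) : ℤ) : ℝ) * ((a : ℝ) / q) + ((t * a : ℤ) : ℝ) := by
    push_cast
    field_simp
  rw [h4, ex_add, ex_int, mul_one]

private theorem Maj_block_bd (H : ℕ → ℂ) (q : ℕ) (B : ℝ) (K : ℕ)
    (hB : ∀ u < K, ‖∑ i ∈ range q, H (u * q + i)‖ ≤ B) :
    ‖∑ n ∈ range (K * q), H n‖ ≤ K * B := by
  induction K with
  | zero => simp
  | succ K ih =>
    have h1 : (K + 1) * q = K * q + q := by ring
    rw [h1, Finset.sum_range_add]
    refine (norm_add_le _ _).trans ?_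
    have h2 := ih fun u hu => hB u (by omega)
    have h3 := hB K (by omega)
    push_cast
    linarith

private theorem Maj_sum_Icc (F : ℕ → ℂ) (N : ℕ) :
    ∑ n ∈ Icc 1 N, F n = ∑ n ∈ range N, F (n + 1) := by
  rw [Finset.range_eq_Ico, Finset.sum_Ico_add' F 0 N 1]
  rfl

theorem mm_add_int (p : ℤ[X]) (N : ℕ) (θ : ℝ) (n : ℤ) : mm p N (θ + n) = mm p N θ := by
  unfold mm
  congr 1
  refine sum_congr rfl fun m _ => ?_
  have h1 : ((p.eval (m : ℤ) : ℤ) : ℝ) * (θ + n) = ((p.eval (m : ℤ) : ℤ) : ℝ) * θ +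
      ((p.eval (m : ℤ) * n : ℤ) : ℝ) := by
    push_cast
    ring
  rw [h1, ex_add, ex_int, mul_one]

theorem VV_add_int (p : ℤ[X]) (N : ℕ) (β : ℝ) (n : ℤ) : VV p N (β + n) = VV p N β := by
  unfold VV sg
  have h1 : ((p.leadingCoeff.sign : ℤ) : ℝ) * (β + n) = ((p.leadingCoeff.sign : ℤ) : ℝ) * β +
      ((p.leadingCoeff.sign * n : ℤ) : ℝ) := by
    push_cast
    ring
  rw [h1, V_add_int]

/-- comparison with the complete sum -/
private theorem Maj_step1 (p : ℤ[X]) (N q : ℕ) (hN : 1 ≤ N) (hq : 1 ≤ q) (a : ℤ) (β : ℝ) :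
    ‖∑ n ∈ Icc 1 N, ex (((p.eval (n : ℤ) : ℤ) : ℝ) * ((a : ℝ) / q + β)) -
      mm p q ((a : ℝ) / q) * ∑ n ∈ Icc 1 N, ex (((p.eval (n : ℤ) : ℤ) : ℝ) * β)‖ ≤
      q * (2 + 4 * Real.pi * |β| * (Maj_A p * p.natDegree * (N : ℝ) ^ (p.natDegree - 1)) * N) := by
  have hpi := Real.pi_pos
  have hq0 : (0 : ℝ) < q := by exact_mod_cast hq
  set S := mm p q ((a : ℝ) / q) with hS
  have hS1 : ‖S‖ ≤ 1 := mm_le_one p q _
  set D : ℝ := Maj_A p * p.natDegree * (N : ℝ) ^ (p.natDegree - 1) with hD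
  have hD0 : 0 ≤ D := by
    have := Maj_A_nonneg p
    positivity
  -- the function with mean zero
  set g : ℕ → ℂ := fun n => ex (((p.eval (n : ℤ) : ℤ) : ℝ) * ((a : ℝ) / q)) - S with hg
  set E : ℕ → ℂ := fun n => ex (((p.eval (n : ℤ) : ℤ) : ℝ) * β) with hE
  have hE1 : ∀ n, ‖E n‖ = 1 := fun n => norm_ex _
  have hgn : ∀ n, ‖g n‖ ≤ 2 := by
    intro n
    refine (norm_sub_le _ _).trans ?_
    rw [norm_ex]
    linarith
  have hgsum : ∑ i ∈ range q, g (i + 1) = 0 := by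
    have h1 : ∑ n ∈ Icc 1 q, ex (((p.eval (n : ℤ) : ℤ) : ℝ) * ((a : ℝ) / q)) = q * S := by
      rw [hS, mm, ← mul_assoc, mul_one_div_cancel (by exact_mod_cast hq0.ne'), one_mul]
    rw [← Maj_sum_Icc g q]
    simp only [hg]
    rw [sum_sub_distrib, h1, sum_const, Nat.card_Icc, nsmul_eq_mul]
    simp
  have hgper : ∀ u i, g (u * q + i) = g i := by
    intro u i
    simp only [hg]
    rw [Maj_period p q u i hq a]
  have hEdiff : ∀ m n : ℕ, m ≤ n → n ≤ N → ‖E n - E m‖ ≤ 2 * Real.pi * |β| * D * ((n : ℝ) - m) := by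
    intro m n hmn hn
    refine (ex_sub_le _ _).trans ?_
    rw [← sub_mul, abs_mul]
    have h1 := Maj_diff p hN hmn hn
    calc 2 * Real.pi * (|((p.eval (n : ℤ) : ℤ) : ℝ) - ((p.eval (m : ℤ) : ℤ) : ℝ)| * |β|)
        ≤ 2 * Real.pi * ((Maj_A p * (p.natDegree * (N : ℝ) ^ (p.natDegree - 1) *
            ((n : ℝ) - m))) * |β|) := by gcongr
      _ = 2 * Real.pi * |β| * D * ((n : ℝ) - m) := by rw [hD]; ring
  have hrw : ∑ n ∈ Icc 1 N, ex (((p.eval (n : ℤ) : ℤ) : ℝ) * ((a : ℝ) / q + β)) -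
      S * ∑ n ∈ Icc 1 N, ex (((p.eval (n : ℤ) : ℤ) : ℝ) * β) =
      ∑ n ∈ range N, g (n + 1) * E (n + 1) := by
    rw [← Maj_sum_Icc (fun n => g n * E n) N, mul_sum, ← sum_sub_distrib]
    refine sum_congr rfl fun n _ => ?_
    simp only [hg, hE]
    rw [mul_add, ex_add]
    ring
  rw [hrw]
  -- decomposition
  have hNq : N / q * q + N % q = N := Nat.div_add_mod' N q
  have hr : N % q < q := Nat.mod_lt _ hq
  have hsplit : ∑ n ∈ range N, g (n + 1) * E (n + 1) =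
      ∑ n ∈ range (N / q * q), g (n + 1) * E (n + 1) +
        ∑ i ∈ range (N % q), g (N / q * q + i + 1) * E (N / q * q + i + 1) := by
    conv_lhs => rw [← hNq]
    rw [Finset.sum_range_add]
  rw [hsplit]
  have hfirst : ‖∑ n ∈ range (N / q * q), g (n + 1) * E (n + 1)‖ ≤
      (N / q : ℕ) * (q * (4 * Real.pi * |β| * D * q)) := by
    refine Maj_block_bd (fun n => g (n + 1) * E (n + 1)) q _ (N / q) fun u hu => ?_
    have huN : u * q + q ≤ N := by
      calc u * q + q = (u + 1) * q := by ring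
        _ ≤ N / q * q := Nat.mul_le_mul_right _ hu
        _ ≤ N := Nat.div_mul_le_self N q
    have h1 : ∑ i ∈ range q, g (u * q + i + 1) * E (u * q + i + 1) =
        ∑ i ∈ range q, g (i + 1) * (E (u * q + i + 1) - E (u * q)) := by
      have h2 : ∑ i ∈ range q, g (i + 1) * (E (u * q + i + 1) - E (u * q)) =
          ∑ i ∈ range q, g (i + 1) * E (u * q + i + 1) -
            (∑ i ∈ range q, g (i + 1)) * E (u * q) := by
        rw [sum_mul, ← sum_sub_distrib]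
        exact sum_congr rfl fun i _ => by ring
      rw [h2, hgsum, zero_mul, sub_zero]
      refine sum_congr rfl fun i _ => ?_
      rw [add_assoc, hgper u (i + 1)]
    rw [h1]
    refine (norm_sum_le _ _).trans ?_
    calc ∑ i ∈ range q, ‖g (i + 1) * (E (u * q + i + 1) - E (u * q))‖
        ≤ ∑ i ∈ range q, (4 * Real.pi * |β| * D * q) := by
          refine sum_le_sum fun i hi => ?_
          have hi' := mem_range.1 hi
          rw [norm_mul]
          have h3 := hEdiff (u * q) (u * q + i + 1) (by omega) (by omega)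
          have h4 : (((u * q + i + 1 : ℕ) : ℝ) - ((u * q : ℕ) : ℝ)) ≤ q := by
            have : ((i + 1 : ℕ) : ℝ) ≤ q := by exact_mod_cast hi'
            push_cast at this ⊢
            linarith
          have h5 : ‖E (u * q + i + 1) - E (u * q)‖ ≤ 2 * Real.pi * |β| * D * q :=
            h3.trans (mul_le_mul_of_nonneg_left h4 (by positivity))
          calc ‖g (i + 1)‖ * ‖E (u * q + i + 1) - E (u * q)‖
              ≤ 2 * (2 * Real.pi * |β| * D * q) :=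
                mul_le_mul (hgn _) h5 (norm_nonneg _) (by norm_num)
            _ = 4 * Real.pi * |β| * D * q := by ring
      _ = q * (4 * Real.pi * |β| * D * q) := by
          rw [sum_const, card_range, nsmul_eq_mul]
  have hsecond : ‖∑ i ∈ range (N % q), g (N / q * q + i + 1) * E (N / q * q + i + 1)‖ ≤ q * 2 := by
    refine (norm_sum_le _ _).trans ?_
    calc ∑ i ∈ range (N % q), ‖g (N / q * q + i + 1) * E (N / q * q + i + 1)‖
        ≤ ∑ i ∈ range (N % q), (2 : ℝ) := by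
          refine sum_le_sum fun i _ => ?_
          rw [norm_mul, hE1, mul_one]
          exact hgn _
      _ = (N % q : ℕ) * 2 := by rw [sum_const, card_range, nsmul_eq_mul]
      _ ≤ q * 2 := by
          have : ((N % q : ℕ) : ℝ) ≤ q := by exact_mod_cast hr.le
          linarith
  have hkey : ((N / q : ℕ) : ℝ) * q ≤ N := by
    have := Nat.div_mul_le_self N q
    exact_mod_cast this
  refine (norm_add_le _ _).trans ((add_le_add hfirst hsecond).trans ?_)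
  have h6 : ((N / q : ℕ) : ℝ) * (q * (4 * Real.pi * |β| * D * q)) =
      ((N / q : ℕ) * q) * (4 * Real.pi * |β| * D * q) := by ring
  rw [h6]
  have h7 : ((N / q : ℕ) * q : ℝ) * (4 * Real.pi * |β| * D * q) ≤
      N * (4 * Real.pi * |β| * D * q) := mul_le_mul_of_nonneg_right hkey (by positivity)
  calc ((N / q : ℕ) * q : ℝ) * (4 * Real.pi * |β| * D * q) + q * 2
      ≤ N * (4 * Real.pi * |β| * D * q) + q * 2 := by linarith
    _ = q * (2 + 4 * Real.pi * |β| * D * N) := by ring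

theorem major (p : ℤ[X]) (hd : 1 ≤ p.natDegree) : ∃ C : ℝ, 1 ≤ C ∧ ∀ N q : ℕ, 1 ≤ N → 1 ≤ q →
    ∀ (a : ℤ) (β : ℝ), ‖mm p N ((a : ℝ) / q + β) - mm p q ((a : ℝ) / q) * VV p N β‖ ≤
      C * q * (1 + (N : ℝ) ^ p.natDegree * |β|) / N := by
  have hpi := Real.pi_pos
  have hA0 := Maj_A_nonneg p
  set A := Maj_A p with hA
  set d := p.natDegree with hdd
  have hd1 : (1 : ℝ) ≤ d := by exact_mod_cast hd
  refine ⟨2 + 8 * Real.pi * A * d, by
    have : 0 ≤ 8 * Real.pi * A * d := by positivity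
    linarith, ?_⟩
  intro N q hN hq a β
  have hN0 : (0 : ℝ) < N := by exact_mod_cast hN
  have hq1 : (1 : ℝ) ≤ q := by exact_mod_cast hq
  set S := mm p q ((a : ℝ) / q) with hS
  have hS1 : ‖S‖ ≤ 1 := mm_le_one p q _
  have hpowN : (N : ℝ) ^ (d - 1) * N = (N : ℝ) ^ d := by
    rw [← pow_succ]
    congr 1
    omega
  set c := p.leadingCoeff with hc
  have hc0 : c ≠ 0 := by
    rw [hc, Ne, Polynomial.leadingCoeff_eq_zero]
    rintro rfl
    simp at hdd
    omega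
  have hcA : (c.natAbs : ℝ) ≤ A := by
    have h1 : |(p.coeff d : ℝ)| ≤ A := by
      rw [hA, Maj_A]
      exact single_le_sum (f := fun k => |(p.coeff k : ℝ)|) (fun _ _ => abs_nonneg _)
        (mem_range.2 (Nat.lt_succ_self _))
    rw [Nat.cast_natAbs, Int.cast_abs]
    exact h1
  -- step 1
  have h1 := Maj_step1 p N q hN hq a β
  rw [← hS, ← hA, ← hdd] at h1
  -- step 2
  have hsg : ∀ n : ℕ, (c : ℝ) * (n : ℝ) ^ d * β = ((c.natAbs * n ^ d : ℕ) : ℝ) * (sg p * β) := by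
    intro n
    have h2 : (c : ℝ) = (c.natAbs : ℝ) * (c.sign : ℝ) := by
      have h3 : ((c.sign * (c.natAbs : ℤ) : ℤ) : ℝ) = (c : ℝ) := by
        rw [Int.sign_mul_natAbs]
      rw [← h3, Int.cast_mul, Int.cast_natCast]
      ring
    rw [sg, ← hc]
    push_cast
    rw [h2]
    ring
  have h2 : ‖∑ n ∈ Icc 1 N, ex (((p.eval (n : ℤ) : ℤ) : ℝ) * β) -
      ∑ n ∈ Icc 1 N, ex (((c.natAbs * n ^ d : ℕ) : ℝ) * (sg p * β))‖ ≤
      N * (2 * Real.pi * (A * (N : ℝ) ^ (d - 1) * |β|)) := by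
    rw [← sum_sub_distrib]
    refine (norm_sum_le _ _).trans ?_
    calc ∑ n ∈ Icc 1 N, ‖ex (((p.eval (n : ℤ) : ℤ) : ℝ) * β) -
          ex (((c.natAbs * n ^ d : ℕ) : ℝ) * (sg p * β))‖
        ≤ ∑ n ∈ Icc 1 N, (2 * Real.pi * (A * (N : ℝ) ^ (d - 1) * |β|)) := by
          refine sum_le_sum fun n hn => ?_
          rw [← hsg n]
          refine (ex_sub_le _ _).trans ?_
          rw [← sub_mul, abs_mul]
          have h3 := Maj_lead p hN (mem_Icc.1 hn).2
          gcongr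
      _ = N * (2 * Real.pi * (A * (N : ℝ) ^ (d - 1) * |β|)) := by
          rw [sum_const, Nat.card_Icc, nsmul_eq_mul]
          simp
  -- step 3
  have hsgabs : |sg p * β| = |β| := by
    rw [abs_mul]
    have : |sg p| = 1 := by
      rw [sg, ← hc]
      rcases lt_or_gt_of_ne hc0 with h | h
      · rw [Int.sign_eq_neg_one_of_neg h]; simp
      · rw [Int.sign_eq_one_of_pos h]; simp
    rw [this, one_mul]
  have h3 := V_block d c.natAbs N hd (Int.natAbs_pos.2 hc0) hN (sg p * β)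
  rw [hsgabs] at h3
  have hVV : VV p N β = V d (c.natAbs * N ^ d) (sg p * β) := rfl
  rw [← hVV] at h3
  have h3' : 2 * Real.pi * |β| * (c.natAbs * d * N ^ (d - 1) : ℕ) ≤
      2 * Real.pi * |β| * (A * d * (N : ℝ) ^ (d - 1)) := by
    push_cast
    gcongr
  -- combine
  have hmm : mm p N ((a : ℝ) / q + β) - S * VV p N β =
      (1 / (N : ℂ)) * (∑ n ∈ Icc 1 N, ex (((p.eval (n : ℤ) : ℤ) : ℝ) * ((a : ℝ) / q + β)) -
        S * ∑ n ∈ Icc 1 N, ex (((p.eval (n : ℤ) : ℤ) : ℝ) * β)) +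
      S * ((1 / (N : ℂ)) * (∑ n ∈ Icc 1 N, ex (((p.eval (n : ℤ) : ℤ) : ℝ) * β) -
        ∑ n ∈ Icc 1 N, ex (((c.natAbs * n ^ d : ℕ) : ℝ) * (sg p * β)))) +
      S * ((1 / (N : ℂ)) * ∑ n ∈ Icc 1 N, ex (((c.natAbs * n ^ d : ℕ) : ℝ) * (sg p * β)) -
        VV p N β) := by
    rw [mm]
    ring
  have hNn : ‖(1 / (N : ℂ))‖ = 1 / (N : ℝ) := by
    rw [norm_div, norm_one, Complex.norm_natCast]
  have hB : ‖mm p N ((a : ℝ) / q + β) - S * VV p N β‖ ≤
      (1 / (N : ℝ)) * (q * (2 + 4 * Real.pi * |β| * (A * d * (N : ℝ) ^ (d - 1)) * N)) +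
      (1 / (N : ℝ)) * (N * (2 * Real.pi * (A * (N : ℝ) ^ (d - 1) * |β|))) +
      2 * Real.pi * |β| * (A * d * (N : ℝ) ^ (d - 1)) := by
    rw [hmm]
    refine (norm_add₃_le).trans ?_
    refine add_le_add (add_le_add ?_ ?_) ?_
    · rw [norm_mul, hNn]
      exact mul_le_mul_of_nonneg_left h1 (by positivity)
    · rw [norm_mul, norm_mul, hNn]
      calc ‖S‖ * (1 / (N : ℝ) * ‖∑ n ∈ Icc 1 N, ex (((p.eval (n : ℤ) : ℤ) : ℝ) * β) -
            ∑ n ∈ Icc 1 N, ex (((c.natAbs * n ^ d : ℕ) : ℝ) * (sg p * β))‖)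
          ≤ 1 * (1 / (N : ℝ) * (N * (2 * Real.pi * (A * (N : ℝ) ^ (d - 1) * |β|)))) := by
            gcongr
        _ = _ := by rw [one_mul]
    · rw [norm_mul]
      calc ‖S‖ * _ ≤ 1 * (2 * Real.pi * |β| * (A * d * (N : ℝ) ^ (d - 1))) :=
            mul_le_mul hS1 (h3.trans h3') (norm_nonneg _) (by norm_num)
        _ = _ := by rw [one_mul]
  refine hB.trans ?_
  rw [le_div_iff₀ hN0]
  set T : ℝ := (N : ℝ) ^ (d - 1) with hT
  have hT0 : 0 ≤ T := by positivity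
  rw [← hpowN]
  have e1 : ((1 / (N : ℝ)) * (q * (2 + 4 * Real.pi * |β| * (A * d * T) * N)) +
      (1 / (N : ℝ)) * (N * (2 * Real.pi * (A * T * |β|))) +
      2 * Real.pi * |β| * (A * d * T)) * N =
      q * (2 + 4 * Real.pi * |β| * (A * d * T) * N) + 2 * Real.pi * (A * T * |β|) * N +
      2 * Real.pi * |β| * (A * d * T) * N := by
    field_simp
  rw [e1]
  have e2 : 2 * Real.pi * (A * T * |β|) * N ≤ q * (2 * Real.pi * (A * d * T * |β|) * N) := by
    have h4 : 2 * Real.pi * (A * T * |β|) * N ≤ 2 * Real.pi * (A * d * T * |β|) * N := by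
      have : A * T ≤ A * d * T := by nlinarith [mul_nonneg hA0 hT0]
      gcongr
    have h5 : 0 ≤ 2 * Real.pi * (A * d * T * |β|) * N := by positivity
    nlinarith
  have e3 : 2 * Real.pi * |β| * (A * d * T) * N ≤ q * (2 * Real.pi * |β| * (A * d * T) * N) := by
    have h5 : 0 ≤ 2 * Real.pi * |β| * (A * d * T) * N := by positivity
    nlinarith
  calc q * (2 + 4 * Real.pi * |β| * (A * d * T) * N) + 2 * Real.pi * (A * T * |β|) * N +
      2 * Real.pi * |β| * (A * d * T) * N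
      ≤ q * (2 + 4 * Real.pi * |β| * (A * d * T) * N) + q * (2 * Real.pi * (A * d * T * |β|) * N) +
        q * (2 * Real.pi * |β| * (A * d * T) * N) := by linarith
    _ = q * (2 + 8 * Real.pi * A * d * (T * N * |β|)) := by ring
    _ ≤ (2 + 8 * Real.pi * A * d) * q * (1 + T * N * |β|) := by
        have h6 : 0 ≤ T * N * |β| := by positivity
        have h7 : 0 ≤ 8 * Real.pi * A * d := by positivity
        have h8 : 2 + 8 * Real.pi * A * d * (T * N * |β|) ≤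
            (2 + 8 * Real.pi * A * d) * (1 + T * N * |β|) := by nlinarith
        have h9 : (0 : ℝ) ≤ q := by linarith
        calc (q : ℝ) * (2 + 8 * Real.pi * A * d * (T * N * |β|))
            ≤ q * ((2 + 8 * Real.pi * A * d) * (1 + T * N * |β|)) :=
              mul_le_mul_of_nonneg_left h8 h9
          _ = _ := by ring

end Pool.Agent.BMX
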