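import Pool.Agent.BMX.Bas

set_option autoImplicit false

/-! Module RM: Rademacher-Menshov.  `rm_num`: for `j ≤ 2^m` write `j` in binary: `j = ∑ 2^{i_t}` with decreasing exponents; `a j - a 0` is a sum of differences over dyadic intervals `[l 2^i, (l+1) 2^i]`, one for each `i` used, so
`|a j - a 0| ≤ ∑_{i ≤ m} max_l |a((l+1)2^i) - a(l 2^i)|`.  (Induction on `m`: if `j ≤ 2^m` use it; if `2^m < j ≤ 2^{m+1}`, apply the induction hypothesis to `a(2^m + ·)`; or: let `j_i = ⌊j/2^i⌋ 2^i`, then `j_i - j_{i+1} ∈ {0, 2^i}`.)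
`rm_l2`: linearised; `max_l ≤ (∑_l |..|²)^{1/2}` pointwise, then `l2` and Minkowski (`l2_sum`). -/

open Finset Filter Topology MeasureTheory Polynomial

namespace Pool.Agent.BMX

/-- the dyadic square function at level `i` -/
noncomputable def RM_D (m : ℕ) (a : ℕ → ℂ) (i : ℕ) : ℝ :=
  √(∑ l ∈ range (2 ^ (m - i)), ‖a ((l + 1) * 2 ^ i) - a (l * 2 ^ i)‖ ^ 2)

theorem RM_D_nonneg (m : ℕ) (a : ℕ → ℂ) (i : ℕ) : 0 ≤ RM_D m a i := Real.sqrt_nonneg _

theorem RM_D_mono (m : ℕ) (a : ℕ → ℂ) (i : ℕ) : RM_D m a i ≤ RM_D (m + 1) a i := by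
  unfold RM_D
  apply Real.sqrt_le_sqrt
  apply Finset.sum_le_sum_of_subset_of_nonneg
  · intro l hl
    rw [Finset.mem_range] at hl ⊢
    exact lt_of_lt_of_le hl (Nat.pow_le_pow_right (by norm_num) (by omega))
  · intro l _ _; positivity

theorem RM_D_shift (m : ℕ) (a : ℕ → ℂ) (i : ℕ) (hi : i ≤ m) :
    RM_D m (fun k => a (2 ^ m + k)) i ≤ RM_D (m + 1) a i := by
  unfold RM_D
  apply Real.sqrt_le_sqrt
  have e0 : 2 ^ m = 2 ^ (m - i) * 2 ^ i := by rw [← pow_add]; congr 1; omega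
  have e1 : ∀ l ∈ range (2 ^ (m - i)),
      ‖a (2 ^ m + (l + 1) * 2 ^ i) - a (2 ^ m + l * 2 ^ i)‖ ^ 2 =
      ‖a ((2 ^ (m - i) + l + 1) * 2 ^ i) - a ((2 ^ (m - i) + l) * 2 ^ i)‖ ^ 2 := by
    intro l _
    rw [e0]
    congr 4
    · ring_nf
    · ring_nf
  rw [Finset.sum_congr rfl e1]
  have e2 : ∑ l ∈ range (2 ^ (m - i)),
      ‖a ((2 ^ (m - i) + l + 1) * 2 ^ i) - a ((2 ^ (m - i) + l) * 2 ^ i)‖ ^ 2 =
      ∑ l ∈ Ico (2 ^ (m - i)) (2 ^ (m - i) + 2 ^ (m - i)),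
        ‖a ((l + 1) * 2 ^ i) - a (l * 2 ^ i)‖ ^ 2 := by
    rw [Finset.sum_Ico_eq_sum_range]
    rw [Nat.add_sub_cancel_left]
  rw [e2]
  apply Finset.sum_le_sum_of_subset_of_nonneg
  · intro l hl
    rw [Finset.mem_Ico] at hl
    rw [Finset.mem_range]
    have : 2 ^ (m + 1 - i) = 2 ^ (m - i) + 2 ^ (m - i) := by
      rw [← two_mul, ← pow_succ']; congr 1; omega
    omega
  · intro l _ _; positivity

theorem RM_strict (m : ℕ) : ∀ (a : ℕ → ℂ) (j : ℕ), j < 2 ^ m →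
    ‖a j - a 0‖ ≤ ∑ i ∈ range m, RM_D m a i := by
  induction m with
  | zero =>
    intro a j hj
    have : j = 0 := by simpa using hj
    subst this; simp
  | succ m ih =>
    intro a j hj
    rw [Finset.sum_range_succ]
    rcases lt_or_ge j (2 ^ m) with h | h
    · have h1 := ih a j h
      have h2 : ∑ i ∈ range m, RM_D m a i ≤ ∑ i ∈ range m, RM_D (m + 1) a i :=
        Finset.sum_le_sum fun i _ => RM_D_mono m a i
      have := RM_D_nonneg (m + 1) a m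
      linarith
    · obtain ⟨k, rfl⟩ := Nat.exists_eq_add_of_le h
      have hk : k < 2 ^ m := by rw [pow_succ] at hj; omega
      have h1 := ih (fun k => a (2 ^ m + k)) k hk
      simp only [add_zero] at h1
      have h2 : ∑ i ∈ range m, RM_D m (fun k => a (2 ^ m + k)) i ≤
          ∑ i ∈ range m, RM_D (m + 1) a i :=
        Finset.sum_le_sum fun i hi => RM_D_shift m a i (Finset.mem_range.1 hi).le
      have h3 : ‖a (2 ^ m) - a 0‖ ≤ RM_D (m + 1) a m := by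
        unfold RM_D
        apply Real.le_sqrt_of_sq_le
        have h4 : (0 : ℕ) ∈ range (2 ^ (m + 1 - m)) := by simp
        have := Finset.single_le_sum (f := fun l => ‖a ((l + 1) * 2 ^ m) - a (l * 2 ^ m)‖ ^ 2)
          (fun l _ => by positivity) h4
        simpa using this
      have h5 : a (2 ^ m + k) - a 0 = (a (2 ^ m + k) - a (2 ^ m)) + (a (2 ^ m) - a 0) := by ring
      rw [h5]
      refine (norm_add_le _ _).trans ?_
      linarith

theorem rm_num (m : ℕ) (a : ℕ → ℂ) (j : ℕ) (hj : j ≤ 2 ^ m) :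
    ‖a j - a 0‖ ≤ ∑ i ∈ range (m + 1),
      √(∑ l ∈ range (2 ^ (m - i)), ‖a ((l + 1) * 2 ^ i) - a (l * 2 ^ i)‖ ^ 2) := by
  show ‖a j - a 0‖ ≤ ∑ i ∈ range (m + 1), RM_D m a i
  rw [Finset.sum_range_succ]
  rcases lt_or_eq_of_le hj with h | h
  · have h1 := RM_strict m a j h
    have := RM_D_nonneg m a m
    linarith
  · subst h
    have h3 : ‖a (2 ^ m) - a 0‖ ≤ RM_D m a m := by
      unfold RM_D
      apply Real.le_sqrt_of_sq_le
      have h4 : (0 : ℕ) ∈ range (2 ^ (m - m)) := by simp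
      have := Finset.single_le_sum (f := fun l => ‖a ((l + 1) * 2 ^ m) - a (l * 2 ^ m)‖ ^ 2)
        (fun l _ => by positivity) h4
      simpa using this
    have : 0 ≤ ∑ i ∈ range m, RM_D m a i := Finset.sum_nonneg fun i _ => RM_D_nonneg m a i
    linarith

theorem rm_l2 (L : ℕ) [NeZero L] (m : ℕ) (F : ℕ → ZMod L → ℂ) (σ : ZMod L → ℕ)
    (hσ : ∀ x, σ x ≤ 2 ^ m) :
    l2 L (sel F σ) ≤ l2 L (F 0) + ∑ i ∈ range (m + 1),
      √(∑ l ∈ range (2 ^ (m - i)), l2 L (fun x => F ((l + 1) * 2 ^ i) x - F (l * 2 ^ i) x) ^ 2) := by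
  set G : ℕ → ZMod L → ℝ := fun i x =>
    √(∑ l ∈ range (2 ^ (m - i)), ‖F ((l + 1) * 2 ^ i) x - F (l * 2 ^ i) x‖ ^ 2) with hG
  have hG0 : ∀ i x, 0 ≤ G i x := fun i x => Real.sqrt_nonneg _
  have h1 : ∀ x, ‖sel F σ x‖ ≤
      ‖(fun x => ((‖F 0 x‖ : ℝ) : ℂ) + ∑ i ∈ range (m + 1), ((G i x : ℝ) : ℂ)) x‖ := by
    intro x
    have h2 := rm_num m (fun j => F j x) (σ x) (hσ x)
    have h3 : ‖F (σ x) x‖ ≤ ‖F 0 x‖ + ‖F (σ x) x - F 0 x‖ := by
      have : F (σ x) x = F 0 x + (F (σ x) x - F 0 x) := by ring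
      calc ‖F (σ x) x‖ = ‖F 0 x + (F (σ x) x - F 0 x)‖ := by rw [← this]
        _ ≤ _ := norm_add_le _ _
    have h4 : ((‖F 0 x‖ : ℝ) : ℂ) + ∑ i ∈ range (m + 1), ((G i x : ℝ) : ℂ) =
        ((‖F 0 x‖ + ∑ i ∈ range (m + 1), G i x : ℝ) : ℂ) := by push_cast; rfl
    show ‖F (σ x) x‖ ≤ ‖((‖F 0 x‖ : ℝ) : ℂ) + ∑ i ∈ range (m + 1), ((G i x : ℝ) : ℂ)‖
    rw [h4, Complex.norm_real, Real.norm_of_nonneg
      (add_nonneg (norm_nonneg _) (Finset.sum_nonneg fun i _ => hG0 i x))]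
    exact h3.trans (add_le_add le_rfl h2)
  refine (l2_mono L _ _ h1).trans ((l2_add L _ _).trans (add_le_add ?_ ?_))
  · apply l2_mono
    intro x
    rw [Complex.norm_real, norm_norm]
  · refine (l2_sum L _ _).trans (Finset.sum_le_sum fun i _ => ?_)
    apply Real.le_sqrt_of_sq_le
    unfold l2
    have h5 : ∑ l ∈ range (2 ^ (m - i)),
        √(∑ x : ZMod L, ‖F ((l + 1) * 2 ^ i) x - F (l * 2 ^ i) x‖ ^ 2) ^ 2 =
        ∑ l ∈ range (2 ^ (m - i)), ∑ x : ZMod L, ‖F ((l + 1) * 2 ^ i) x - F (l * 2 ^ i) x‖ ^ 2 := by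
      refine Finset.sum_congr rfl fun l _ => ?_
      rw [Real.sq_sqrt (Finset.sum_nonneg fun x _ => by positivity)]
    rw [h5, Finset.sum_comm, Real.sq_sqrt (Finset.sum_nonneg fun x _ => by positivity)]
    refine Finset.sum_le_sum fun x _ => ?_
    rw [Complex.norm_real, Real.norm_of_nonneg (hG0 i x)]
    simp only [hG]
    rw [Real.sq_sqrt (Finset.sum_nonneg fun l _ => by positivity)]

end Pool.Agent.BMX
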