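import Pool.Agent.BMX.Err
import Pool.Agent.BMX.Fou
import Pool.Agent.BMX.RM

set_option autoImplicit false

/-! Module Sml: small scales.
`vv_sq`: for real `β`, `j0`, step `t ≥ 1`: let `x_l = MN(2^(j0 + l t)) nn β`, so `x_{l+1} = 2^{dt} x_l ≥ 4 x_l`.  If `nn β = 0` all values are `1`.  `‖VV - 1‖ ≤ 2π x_l` (`V_sub_one`), `‖VV‖ ≤ 4 x_l^{-1/d}` (`V_decay`), `‖VV‖ ≤ 1`.  The terms with `x_{l+1} ≤ 1` are
`≤ (4π x_{l+1})²`, a geometric sum `≤ 16π² · (1/(1 - 1/16))`; those with `x_l ≥ 1` are `≤ (8 x_l^{-1/d})²`, ratio `2^{-2t} ≤ 1/4`: sum `≤ 64 · 4/3`; at most one other term, `≤ 4`.  (`nn (sg p * β) = nn β`.)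
`psi_sq`: the same for `Psi p s (2^(j0 + l t)) θ` (`chi_psi`, `chi_psi_zero`: one term or zero).
`small`: `rm_l2` with `F t = Tm (Psi p s (2^t)) g`: `l2 (F 0) ≤ l2 g` (`tm_bd`, `‖Psi‖ ≤ 1`), each level `i ≤ m` `≤ B l2 g` (`tm_sq`, `psi_sq` with step `2^i`, `j0 = 0`). -/

open Finset Filter Topology MeasureTheory Polynomial

namespace Pool.Agent.BMX

theorem Sml_sg (p : ℤ[X]) (hd : 2 ≤ p.natDegree) : sg p = 1 ∨ sg p = -1 := by
  have h0 : p.leadingCoeff ≠ 0 := by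
    intro h
    rw [leadingCoeff_eq_zero] at h
    rw [h, natDegree_zero] at hd
    omega
  unfold sg
  rcases lt_or_gt_of_ne h0 with h | h
  · right
    rw [Int.sign_eq_neg_one_of_neg h]
    norm_num
  · left
    rw [Int.sign_eq_one_of_pos h]
    norm_num

theorem Sml_nn_sg (p : ℤ[X]) (hd : 2 ≤ p.natDegree) (β : ℝ) : nn (sg p * β) = nn β := by
  rcases Sml_sg p hd with h | h
  · rw [h, one_mul]
  · rw [h, neg_one_mul, nn_neg]

theorem Sml_MN_pos (p : ℤ[X]) (hd : 2 ≤ p.natDegree) (j : ℕ) : 1 ≤ MN p (2 ^ j) := by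
  have h0 : p.leadingCoeff ≠ 0 := by
    intro h
    rw [leadingCoeff_eq_zero] at h
    rw [h, natDegree_zero] at hd
    omega
  unfold MN
  have h1 : 0 < p.leadingCoeff.natAbs := Int.natAbs_pos.2 h0
  have h2 : 0 < (2 ^ j) ^ p.natDegree := by positivity
  exact Nat.mul_pos h1 h2

/-- the potential -/
noncomputable def SmlPhi (d : ℕ) (x : ℝ) : ℝ :=
  256 * Real.pi ^ 2 / 15 * (if 1 ≤ x then 1 else x ^ 2) -
    256 / 3 * (if 1 ≤ x then (x ^ (-(1 / (d : ℝ)))) ^ 2 else 1) + 4 * (if 1 ≤ x then 1 else 0)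

theorem Sml_step (d : ℕ) (hd : 2 ≤ d) (x y : ℝ) (hx : 0 ≤ x) (t : ℕ) (ht : 1 ≤ t)
    (hy : y = 2 ^ (d * t) * x) (a b : ℂ) (ha : ‖a‖ ≤ 1) (hb : ‖b‖ ≤ 1)
    (ha1 : ‖a - 1‖ ≤ 2 * Real.pi * x) (hb1 : ‖b - 1‖ ≤ 2 * Real.pi * y)
    (ha2 : 0 < x → ‖a‖ ≤ 4 * x ^ (-(1 / (d : ℝ)))) (hb2 : 0 < y → ‖b‖ ≤ 4 * y ^ (-(1 / (d : ℝ)))) :
    ‖b - a‖ ^ 2 ≤ SmlPhi d y - SmlPhi d x := by
  have hpi := Real.pi_pos
  have hpow : (4 : ℝ) ≤ 2 ^ (d * t) := by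
    have h1 : 2 ≤ d * t := by nlinarith
    calc (4 : ℝ) = 2 ^ 2 := by norm_num
      _ ≤ 2 ^ (d * t) := pow_le_pow_right₀ (by norm_num) h1
  have hxy : 4 * x ≤ y := by rw [hy]; exact mul_le_mul_of_nonneg_right hpow hx
  have htri : ‖b - a‖ ≤ ‖b - 1‖ + ‖a - 1‖ := by
    have : b - a = (b - 1) - (a - 1) := by ring
    rw [this]; exact norm_sub_le _ _
  have htri2 : ‖b - a‖ ≤ ‖b‖ + ‖a‖ := norm_sub_le _ _
  have hD0 := norm_nonneg (b - a)
  unfold SmlPhi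
  by_cases h1 : 1 ≤ x
  · -- both at least one
    have hy1 : 1 ≤ y := by linarith
    have hx0 : 0 < x := by linarith
    have hy0 : 0 < y := by linarith
    rw [if_pos h1, if_pos h1, if_pos h1, if_pos hy1, if_pos hy1, if_pos hy1]
    have hw : y ^ (-(1 / (d : ℝ))) ≤ x ^ (-(1 / (d : ℝ))) / 2 := by
      have hd0 : (d : ℝ) ≠ 0 := by
        have : d ≠ 0 := by omega
        exact_mod_cast this
      rw [hy, Real.mul_rpow (by positivity) hx]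
      have h2 : ((2 : ℝ) ^ (d * t)) ^ (-(1 / (d : ℝ))) = (2 : ℝ) ^ (-(t : ℝ)) := by
        rw [← Real.rpow_natCast, ← Real.rpow_mul (by norm_num)]
        congr 1
        push_cast
        field_simp
      rw [h2]
      have h3 : (2 : ℝ) ^ (-(t : ℝ)) ≤ 1 / 2 := by
        calc (2 : ℝ) ^ (-(t : ℝ)) ≤ (2 : ℝ) ^ (-(1 : ℝ)) := by
              apply Real.rpow_le_rpow_of_exponent_le (by norm_num)
              have : (1 : ℝ) ≤ t := by exact_mod_cast ht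
              linarith
          _ = 1 / 2 := by
              rw [Real.rpow_neg (by norm_num), Real.rpow_one]
              norm_num
      have h4 : 0 ≤ x ^ (-(1 / (d : ℝ))) := by positivity
      nlinarith
    have ha3 := ha2 hx0
    have hb3 := hb2 hy0
    set w := x ^ (-(1 / (d : ℝ))) with hwdef
    set w' := y ^ (-(1 / (d : ℝ))) with hwdef'
    have hw0 : 0 ≤ w := by positivity
    have hw0' : 0 ≤ w' := by positivity
    have h5 : ‖b - a‖ ≤ 8 * w := by linarith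
    have h6 : ‖b - a‖ ^ 2 ≤ (8 * w) ^ 2 := pow_le_pow_left₀ hD0 h5 2
    have h7 : w' ^ 2 ≤ (w / 2) ^ 2 := pow_le_pow_left₀ hw0' hw 2
    nlinarith
  · push Not at h1
    by_cases h2 : 1 ≤ y
    · rw [if_neg (not_le.2 h1), if_neg (not_le.2 h1), if_neg (not_le.2 h1), if_pos h2, if_pos h2,
        if_pos h2]
      have h3 : y ^ (-(1 / (d : ℝ))) ≤ 1 :=
        Real.rpow_le_one_of_one_le_of_nonpos h2 (by
          have : (0 : ℝ) ≤ 1 / (d : ℝ) := by positivity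
          linarith)
      have h4 : 0 ≤ y ^ (-(1 / (d : ℝ))) := by
        have : 0 ≤ y := by linarith
        positivity
      have h5 : (y ^ (-(1 / (d : ℝ)))) ^ 2 ≤ 1 := pow_le_one₀ h4 h3
      have h6 : ‖b - a‖ ^ 2 ≤ 4 := by
        have : ‖b - a‖ ≤ 2 := by linarith
        calc ‖b - a‖ ^ 2 ≤ 2 ^ 2 := pow_le_pow_left₀ hD0 this 2
          _ = 4 := by norm_num
      have h7 : x ^ 2 ≤ 1 := pow_le_one₀ hx h1.le
      have h8 : 0 ≤ Real.pi ^ 2 * (1 - x ^ 2) := by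
        have : 0 ≤ 1 - x ^ 2 := by linarith
        positivity
      nlinarith
    · push Not at h2
      rw [if_neg (not_le.2 h1), if_neg (not_le.2 h1), if_neg (not_le.2 h1), if_neg (not_le.2 h2),
        if_neg (not_le.2 h2), if_neg (not_le.2 h2)]
      have hy0 : 0 ≤ y := by linarith
      have h3 : ‖b - a‖ ≤ 4 * Real.pi * y := by nlinarith
      have h4 : ‖b - a‖ ^ 2 ≤ (4 * Real.pi * y) ^ 2 := pow_le_pow_left₀ hD0 h3 2
      have h5 : x ^ 2 ≤ (y / 4) ^ 2 := pow_le_pow_left₀ hx (by linarith) 2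
      have h6 : 0 ≤ Real.pi ^ 2 := by positivity
      nlinarith [mul_le_mul_of_nonneg_left h5 h6]

theorem Sml_phi_le (d : ℕ) (x y : ℝ) (hx : 0 ≤ x) (hy : 0 ≤ y) : SmlPhi d y - SmlPhi d x ≤ 17 ^ 2 := by
  have hpi := Real.pi_pos
  have hpi2 : Real.pi ^ 2 ≤ 10 := by
    have := Real.pi_lt_d2
    nlinarith
  have hu : ∀ z : ℝ, 0 ≤ z → 0 ≤ (if 1 ≤ z then (1 : ℝ) else z ^ 2) ∧
      (if 1 ≤ z then (1 : ℝ) else z ^ 2) ≤ 1 := by
    intro z hz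
    split_ifs with h
    · norm_num
    · exact ⟨by positivity, pow_le_one₀ hz (not_le.1 h).le⟩
  have hv : ∀ z : ℝ, 0 ≤ z → 0 ≤ (if 1 ≤ z then (z ^ (-(1 / (d : ℝ)))) ^ 2 else (1 : ℝ)) ∧
      (if 1 ≤ z then (z ^ (-(1 / (d : ℝ)))) ^ 2 else (1 : ℝ)) ≤ 1 := by
    intro z hz
    split_ifs with h
    · refine ⟨by positivity, pow_le_one₀ (by positivity) ?_⟩
      exact Real.rpow_le_one_of_one_le_of_nonpos h (by
          have : (0 : ℝ) ≤ 1 / (d : ℝ) := by positivity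
          linarith)
    · norm_num
  have hi : ∀ z : ℝ, 0 ≤ (if 1 ≤ z then (1 : ℝ) else 0) ∧ (if 1 ≤ z then (1 : ℝ) else 0) ≤ 1 := by
    intro z
    split_ifs <;> norm_num
  unfold SmlPhi
  obtain ⟨a1, a2⟩ := hu x hx
  obtain ⟨b1, b2⟩ := hu y hy
  obtain ⟨c1, c2⟩ := hv x hx
  obtain ⟨d1, d2⟩ := hv y hy
  obtain ⟨e1, e2⟩ := hi x
  obtain ⟨f1, f2⟩ := hi y
  have h1 : 256 * Real.pi ^ 2 / 15 * (if 1 ≤ y then (1 : ℝ) else y ^ 2) ≤ 256 * 10 / 15 := by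
    have : 256 * Real.pi ^ 2 / 15 * (if 1 ≤ y then (1 : ℝ) else y ^ 2) ≤ 256 * Real.pi ^ 2 / 15 * 1 :=
      mul_le_mul_of_nonneg_left b2 (by positivity)
    linarith
  have h2 : 0 ≤ 256 * Real.pi ^ 2 / 15 * (if 1 ≤ x then (1 : ℝ) else x ^ 2) := by positivity
  nlinarith

theorem vv_sq (p : ℤ[X]) (hd : 2 ≤ p.natDegree) : ∃ B : ℝ, 1 ≤ B ∧ ∀ (j0 t n : ℕ), 1 ≤ t →
    ∀ β : ℝ, ∑ l ∈ range n, ‖VV p (2 ^ (j0 + (l + 1) * t)) β - VV p (2 ^ (j0 + l * t)) β‖ ^ 2 ≤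
      B ^ 2 := by
  refine ⟨17, by norm_num, fun j0 t n ht β => ?_⟩
  have hd1 : 1 ≤ p.natDegree := by omega
  set x : ℕ → ℝ := fun l => (MN p (2 ^ (j0 + l * t)) : ℝ) * nn β with hx
  have hx0 : ∀ l, 0 ≤ x l := fun l => mul_nonneg (Nat.cast_nonneg _) (nn_nonneg β)
  have hrec : ∀ l, x (l + 1) = 2 ^ (p.natDegree * t) * x l := by
    intro l
    simp only [hx, MN]
    push_cast
    have : ((2 : ℝ) ^ (j0 + (l + 1) * t)) ^ p.natDegree =
        2 ^ (p.natDegree * t) * (2 ^ (j0 + l * t)) ^ p.natDegree := by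
      rw [← pow_mul, ← pow_mul, ← pow_add]
      congr 1
      ring
    rw [this]
    ring
  have hle1 : ∀ l, ‖VV p (2 ^ (j0 + l * t)) β‖ ≤ 1 := fun l => V_le_one _ _ hd1 _
  have hsub : ∀ l, ‖VV p (2 ^ (j0 + l * t)) β - 1‖ ≤ 2 * Real.pi * x l := by
    intro l
    have := V_sub_one p.natDegree (MN p (2 ^ (j0 + l * t))) hd1 (Sml_MN_pos p hd _) (sg p * β)
    rw [Sml_nn_sg p hd] at this
    simp only [hx]
    unfold VV
    linarith
  have hdec : ∀ l, 0 < x l → ‖VV p (2 ^ (j0 + l * t)) β‖ ≤ 4 * x l ^ (-(1 / (p.natDegree : ℝ))) := by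
    intro l hl
    have hn : 0 < nn β := by
      by_contra h
      have : nn β = 0 := le_antisymm (not_lt.1 h) (nn_nonneg β)
      simp only [hx, this, mul_zero, lt_irrefl] at hl
    have := V_decay p.natDegree (MN p (2 ^ (j0 + l * t))) hd1 (Sml_MN_pos p hd _) (sg p * β)
      (by rw [Sml_nn_sg p hd]; exact hn)
    rw [Sml_nn_sg p hd] at this
    exact this
  have hstep : ∀ l, ‖VV p (2 ^ (j0 + (l + 1) * t)) β - VV p (2 ^ (j0 + l * t)) β‖ ^ 2 ≤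
      SmlPhi p.natDegree (x (l + 1)) - SmlPhi p.natDegree (x l) := fun l =>
    Sml_step p.natDegree hd (x l) (x (l + 1)) (hx0 l) t ht (hrec l) _ _ (hle1 l) (hle1 (l + 1))
      (hsub l) (hsub (l + 1)) (hdec l) (hdec (l + 1))
  refine (Finset.sum_le_sum fun l _ => hstep l).trans ?_
  rw [Finset.sum_range_sub (fun l => SmlPhi p.natDegree (x l))]
  exact Sml_phi_le _ _ _ (hx0 0) (hx0 n)

theorem psi_le_one (p : ℤ[X]) (hd : 2 ≤ p.natDegree) (s N : ℕ) (θ : ℝ) : ‖Psi p s N θ‖ ≤ 1 := by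
  by_cases h : ∃ x ∈ Rs s, nn (θ - fr x) ≤ ws s
  · obtain ⟨x, hx, hx'⟩ := h
    rw [(chi_psi p s N θ hx hx').2]
    exact V_le_one _ _ (by omega) _
  · push Not at h
    rw [(chi_psi_zero p s N θ (fun x hx => not_le.2 (h x hx))).2]
    simp

theorem psi_sq (p : ℤ[X]) (hd : 2 ≤ p.natDegree) : ∃ B : ℝ, 1 ≤ B ∧ ∀ (s t n : ℕ), 1 ≤ t →
    ∀ θ : ℝ, ∑ l ∈ range n, ‖Psi p s (2 ^ ((l + 1) * t)) θ - Psi p s (2 ^ (l * t)) θ‖ ^ 2 ≤
      B ^ 2 := by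
  obtain ⟨B, hB, hvv⟩ := vv_sq p hd
  refine ⟨B, hB, fun s t n ht θ => ?_⟩
  by_cases h : ∃ x ∈ Rs s, nn (θ - fr x) ≤ ws s
  · obtain ⟨x, hx, hx'⟩ := h
    have := hvv 0 t n ht (θ - fr x)
    simp only [zero_add] at this
    refine le_trans (le_of_eq ?_) this
    refine Finset.sum_congr rfl fun l _ => ?_
    rw [(chi_psi p s (2 ^ ((l + 1) * t)) θ hx hx').2, (chi_psi p s (2 ^ (l * t)) θ hx hx').2]
  · push Not at h
    have h0 : ∀ N, Psi p s N θ = 0 := fun N =>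
      (chi_psi_zero p s N θ (fun x hx => not_le.2 (h x hx))).2
    simp only [h0, sub_zero, norm_zero]
    simp
    positivity

theorem small (p : ℤ[X]) (hd : 2 ≤ p.natDegree) : ∃ B : ℝ, 1 ≤ B ∧ ∀ (L : ℕ) [NeZero L]
    (s m : ℕ) (g : ZMod L → ℂ) (σ : ZMod L → ℕ), (∀ x, σ x ≤ 2 ^ m) →
    l2 L (sel (fun j => Tm L (fun k => Psi p s (2 ^ j) (th L k)) g) σ) ≤
      B * (m + 2) * l2 L g := by
  obtain ⟨B, hB, hsq⟩ := psi_sq p hd
  refine ⟨B, hB, ?_⟩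
  intro L hL s m g σ hσ
  have hg := l2_nonneg L g
  have h1 := rm_l2 L m (fun j => Tm L (fun k => Psi p s (2 ^ j) (th L k)) g) σ hσ
  have h2 : l2 L (Tm L (fun k => Psi p s (2 ^ 0) (th L k)) g) ≤ 1 * l2 L g :=
    tm_bd L _ 1 (by norm_num) (fun k => psi_le_one p hd s _ _) g
  have h3 : ∀ i ∈ range (m + 1), √(∑ l ∈ range (2 ^ (m - i)),
      l2 L (fun x => Tm L (fun k => Psi p s (2 ^ ((l + 1) * 2 ^ i)) (th L k)) g x -
        Tm L (fun k => Psi p s (2 ^ (l * 2 ^ i)) (th L k)) g x) ^ 2) ≤ B * l2 L g := by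
    intro i _
    have h4 := tm_sq L (range (2 ^ (m - i)))
      (fun l k => Psi p s (2 ^ ((l + 1) * 2 ^ i)) (th L k) - Psi p s (2 ^ (l * 2 ^ i)) (th L k))
      B (by linarith) (fun k => hsq s (2 ^ i) (2 ^ (m - i)) Nat.one_le_two_pow (th L k)) g
    refine le_trans (le_of_eq ?_) h4
    congr 1
    refine Finset.sum_congr rfl fun l _ => ?_
    congr 2
    funext x
    exact (tm_sub L _ _ g x).symm
  have h5 := Finset.sum_le_sum h3
  rw [Finset.sum_const, Finset.card_range, nsmul_eq_mul] at h5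
  push_cast at h5
  refine h1.trans ?_
  have h6 : (1 : ℝ) * l2 L g ≤ B * l2 L g := mul_le_mul_of_nonneg_right hB hg
  calc _ ≤ 1 * l2 L g + ((m : ℝ) + 1) * (B * l2 L g) := add_le_add h2 h5
    _ ≤ B * (m + 2) * l2 L g := by nlinarith

end Pool.Agent.BMX
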