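import Pool.Agent.BMX.Asm

set_option autoImplicit false

/-! Module Trn: transference.
`all_N`: for real `f ≥ 0` on `ZMod L` and `2^{j-1} < N ≤ 2^j`, `(1/N) ∑_{n≤N} ≤ 2 · 2^{-j} ∑_{n ≤ 2^j}`: the maximal inequality for all `N` with constant `2B`.
`trans_fin`: `T` invertible measure preserving, `f ≥ 0` bounded measurable, `N0`.  `D = max_{n ≤ N0} |p(n)|`; for `L > 2D` and `x ∈ X` let `φ_x : ZMod L → ℝ`, `φ_x(i) = f(T^{i.val} x)`.  For `D ≤ i < L - D` and `n ≤ N0`, `φ_x(i + p(n)) = f(T^{i + p(n)} x)`.  Let `Bad = {y | ∃ 1 ≤ N ≤ N0, λ N < ∑_{n=1}^{N} f(T^{p(n)} y)}`.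
`all_N` and Chebyshev: `λ² #{i ∈ [D, L-D) : T^i x ∈ Bad} ≤ (2B)² ∑_{i < L} f(T^i x)²`.  Integrate in `x` (invariance): `λ² (L - 2D) μ(Bad) ≤ 4B² L ∫ f²`; `L → ∞`.
`trans`: `N0 → ∞` (continuity of measure from below). -/

open Finset Filter Topology MeasureTheory Polynomial

namespace Pool.Agent.BMX

theorem Trn_Icc {M : Type*} [AddCommMonoid M] (g : ℤ → M) (m : ℕ) :
    ∑ n ∈ Icc (1 : ℤ) ((2 : ℤ) ^ m), g n = ∑ n ∈ Icc (1 : ℕ) (2 ^ m), g (n : ℤ) := by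
  have h : (Icc (1 : ℕ) (2 ^ m)).image (Nat.cast : ℕ → ℤ) = Icc (1 : ℤ) ((2 : ℤ) ^ m) := by
    ext n
    rw [Finset.mem_image, Finset.mem_Icc]
    constructor
    · rintro ⟨k, hk, rfl⟩
      rw [Finset.mem_Icc] at hk
      exact ⟨by exact_mod_cast hk.1, by exact_mod_cast hk.2⟩
    · rintro ⟨h1, h2⟩
      refine ⟨n.toNat, ?_, by omega⟩
      rw [Finset.mem_Icc]
      refine ⟨by omega, ?_⟩
      have h3 : ((n.toNat : ℕ) : ℤ) = n := by omega
      have h4 : ((n.toNat : ℕ) : ℤ) ≤ ((2 ^ m : ℕ) : ℤ) := by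
        rw [h3]; push_cast; exact h2
      exact_mod_cast h4
  rw [← h, Finset.sum_image (fun a _ b _ h => by exact_mod_cast h)]

theorem all_N (p : ℤ[X]) (hd : 2 ≤ p.natDegree) : ∃ B : ℝ, 1 ≤ B ∧ ∀ (L : ℕ) [NeZero L]
    (f : ZMod L → ℝ), (∀ x, 0 ≤ f x) → ∀ Mx : ZMod L → ℕ, (∀ x, 1 ≤ Mx x) →
    ∑ x : ZMod L, ((1 / (Mx x : ℝ)) *
      ∑ n ∈ Icc 1 (Mx x), f (x + ((p.eval (n : ℤ) : ℤ) : ZMod L))) ^ 2 ≤
      B ^ 2 * ∑ x : ZMod L, f x ^ 2 := by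
  obtain ⟨B0, hB0, h⟩ := dyadic p hd
  refine ⟨2 * B0, by linarith, fun L _ f hf Mx hM => ?_⟩
  set σ : ZMod L → ℕ := fun x => Nat.clog 2 (Mx x) with hσ
  have h1 : ∀ x, Mx x ≤ 2 ^ σ x := fun x => Nat.le_pow_clog (by norm_num) _
  have h2 : ∀ x, 2 ^ σ x ≤ 2 * Mx x := by
    intro x
    by_cases h1x : Mx x = 1
    · simp [hσ, h1x]
    · have h2x : 1 < Mx x := by have := hM x; omega
      have h3 : 2 ^ (Nat.clog 2 (Mx x)).pred < Mx x := Nat.pow_pred_clog_lt_self (by norm_num) h2x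
      have h4 : 0 < Nat.clog 2 (Mx x) := Nat.clog_pos (by norm_num) h2x
      obtain ⟨m, hm⟩ := Nat.exists_eq_succ_of_ne_zero h4.ne'
      simp only [hσ]
      rw [hm] at h3 ⊢
      simp only [Nat.pred_succ] at h3
      rw [Nat.succ_eq_add_one, pow_succ]
      omega
  have hh := h L (fun x => (f x : ℂ)) σ
  simp only [Trn_Icc (fun n : ℤ => ((f (_ + ((p.eval n : ℤ) : ZMod L)) : ℝ) : ℂ))] at hh
  have hl2 : l2 L (fun x => (f x : ℂ)) ^ 2 = ∑ x : ZMod L, f x ^ 2 := by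
    unfold l2
    rw [Real.sq_sqrt (Finset.sum_nonneg fun _ _ => by positivity)]
    refine Finset.sum_congr rfl fun x _ => ?_
    rw [Complex.norm_real, Real.norm_eq_abs, sq_abs]
  have hS : ∑ x : ZMod L, ‖(1 / ((2 : ℂ) ^ (σ x))) *
      ∑ n ∈ Icc (1 : ℕ) (2 ^ (σ x)), ((f (x + ((p.eval (n : ℤ) : ℤ) : ZMod L)) : ℝ) : ℂ)‖ ^ 2 ≤
      B0 ^ 2 * ∑ x : ZMod L, f x ^ 2 := by
    rw [← hl2, ← mul_pow]
    have h0 : 0 ≤ ∑ x : ZMod L, ‖(1 / ((2 : ℂ) ^ (σ x))) *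
      ∑ n ∈ Icc (1 : ℕ) (2 ^ (σ x)), ((f (x + ((p.eval (n : ℤ) : ℤ) : ZMod L)) : ℝ) : ℂ)‖ ^ 2 :=
      Finset.sum_nonneg fun _ _ => by positivity
    calc _ = √(∑ x : ZMod L, ‖(1 / ((2 : ℂ) ^ (σ x))) *
        ∑ n ∈ Icc (1 : ℕ) (2 ^ (σ x)), ((f (x + ((p.eval (n : ℤ) : ℤ) : ZMod L)) : ℝ) : ℂ)‖ ^ 2) ^ 2 :=
          (Real.sq_sqrt h0).symm
      _ ≤ _ := pow_le_pow_left₀ (Real.sqrt_nonneg _) hh 2
  have hterm : ∀ x, ((1 / (Mx x : ℝ)) *
      ∑ n ∈ Icc 1 (Mx x), f (x + ((p.eval (n : ℤ) : ℤ) : ZMod L))) ^ 2 ≤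
      4 * ‖(1 / ((2 : ℂ) ^ (σ x))) *
      ∑ n ∈ Icc (1 : ℕ) (2 ^ (σ x)), ((f (x + ((p.eval (n : ℤ) : ℤ) : ZMod L)) : ℝ) : ℂ)‖ ^ 2 := by
    intro x
    have hM0 : (0 : ℝ) < Mx x := by exact_mod_cast hM x
    have e1 : ‖(1 / ((2 : ℂ) ^ (σ x))) *
      ∑ n ∈ Icc (1 : ℕ) (2 ^ (σ x)), ((f (x + ((p.eval (n : ℤ) : ℤ) : ZMod L)) : ℝ) : ℂ)‖ =
      1 / 2 ^ σ x * ∑ n ∈ Icc (1 : ℕ) (2 ^ (σ x)), f (x + ((p.eval (n : ℤ) : ℤ) : ZMod L)) := by
      rw [← Complex.ofReal_sum, norm_mul, Complex.norm_real, Real.norm_eq_abs,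
        abs_of_nonneg (Finset.sum_nonneg fun _ _ => hf _)]
      simp
    rw [e1]
    have h5 : ∑ n ∈ Icc 1 (Mx x), f (x + ((p.eval (n : ℤ) : ℤ) : ZMod L)) ≤
        ∑ n ∈ Icc (1 : ℕ) (2 ^ σ x), f (x + ((p.eval (n : ℤ) : ℤ) : ZMod L)) :=
      Finset.sum_le_sum_of_subset_of_nonneg (Finset.Icc_subset_Icc_right (h1 x)) fun _ _ _ => hf _
    have h6 : (1 / (Mx x : ℝ)) ≤ 2 * (1 / 2 ^ σ x) := by
      have h7 : (2 : ℝ) ^ σ x ≤ 2 * Mx x := by exact_mod_cast h2 x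
      rw [mul_one_div, div_le_div_iff₀ hM0 (by positivity)]
      linarith
    have h8 : 0 ≤ ∑ n ∈ Icc 1 (Mx x), f (x + ((p.eval (n : ℤ) : ℤ) : ZMod L)) :=
      Finset.sum_nonneg fun _ _ => hf _
    calc ((1 / (Mx x : ℝ)) * ∑ n ∈ Icc 1 (Mx x), f (x + ((p.eval (n : ℤ) : ℤ) : ZMod L))) ^ 2
        ≤ (2 * (1 / 2 ^ σ x) *
          ∑ n ∈ Icc (1 : ℕ) (2 ^ σ x), f (x + ((p.eval (n : ℤ) : ℤ) : ZMod L))) ^ 2 := by
          gcongr
      _ = _ := by ring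
  calc ∑ x : ZMod L, ((1 / (Mx x : ℝ)) *
      ∑ n ∈ Icc 1 (Mx x), f (x + ((p.eval (n : ℤ) : ℤ) : ZMod L))) ^ 2
      ≤ ∑ x : ZMod L, 4 * ‖(1 / ((2 : ℂ) ^ (σ x))) *
      ∑ n ∈ Icc (1 : ℕ) (2 ^ (σ x)), ((f (x + ((p.eval (n : ℤ) : ℤ) : ZMod L)) : ℝ) : ℂ)‖ ^ 2 :=
        Finset.sum_le_sum fun x _ => hterm x
    _ = 4 * ∑ x : ZMod L, ‖(1 / ((2 : ℂ) ^ (σ x))) *
      ∑ n ∈ Icc (1 : ℕ) (2 ^ (σ x)), ((f (x + ((p.eval (n : ℤ) : ℤ) : ZMod L)) : ℝ) : ℂ)‖ ^ 2 := by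
        rw [Finset.mul_sum]
    _ ≤ 4 * (B0 ^ 2 * ∑ x : ZMod L, f x ^ 2) := by linarith
    _ = _ := by ring

theorem Trn_val (L : ℕ) [NeZero L] (i : ZMod L) (k : ℤ) (h0 : 0 ≤ (i.val : ℤ) + k)
    (h1 : (i.val : ℤ) + k < L) : (((i + (k : ZMod L)).val : ℕ) : ℤ) = i.val + k := by
  have h2 : i + (k : ZMod L) = (((i.val : ℤ) + k : ℤ) : ZMod L) := by
    push_cast
    rw [ZMod.natCast_val, ZMod.cast_id', id]
  rw [h2, ZMod.val_intCast, Int.emod_eq_of_lt h0 h1]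

theorem Trn_good (L D : ℕ) [NeZero L] :
    (L : ℝ) - 2 * D ≤
      ((Finset.univ.filter fun i : ZMod L => D ≤ i.val ∧ i.val + D < L).card : ℝ) := by
  have h1 : Finset.Ico D (L - D) ⊆
      (Finset.univ.filter fun i : ZMod L => D ≤ i.val ∧ i.val + D < L).image ZMod.val := by
    intro n hn
    rw [Finset.mem_Ico] at hn
    rw [Finset.mem_image]
    have hnL : n < L := by omega
    refine ⟨(n : ZMod L), ?_, ZMod.val_cast_of_lt hnL⟩
    rw [Finset.mem_filter, ZMod.val_cast_of_lt hnL]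
    exact ⟨Finset.mem_univ _, hn.1, by omega⟩
  have h2 := (Finset.card_le_card h1).trans Finset.card_image_le
  rw [Nat.card_Ico] at h2
  have h3 : (L : ℝ) ≤ ((L - D - D : ℕ) : ℝ) + 2 * D := by
    have : L ≤ (L - D - D) + 2 * D := by omega
    exact_mod_cast this
  have h4 : ((L - D - D : ℕ) : ℝ) ≤
      ((Finset.univ.filter fun i : ZMod L => D ≤ i.val ∧ i.val + D < L).card : ℝ) := by
    exact_mod_cast h2
  linarith

section
variable {X : Type*} [MeasurableSpace X] (μ : Measure X) [IsProbabilityMeasure μ]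
  (T : Equiv.Perm X)

theorem Trn_zmeas (hT : Measurable T) (hT' : Measurable T.symm) (k : ℤ) :
    Measurable fun x => (T ^ k) x := by
  have hn : ∀ (S : Equiv.Perm X), Measurable S → ∀ n : ℕ, Measurable fun x => (S ^ n) x := by
    intro S hS n
    have := hS.iterate n
    rwa [Equiv.Perm.iterate_eq_pow] at this
  obtain ⟨n, rfl | rfl⟩ := k.eq_nat_or_neg
  · simpa using hn T hT n
  · have h2 : (T ^ (-(n : ℤ))) = (T⁻¹) ^ n := by
      rw [zpow_neg, zpow_natCast, inv_pow]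
    rw [h2]
    exact hn T⁻¹ hT' n

/-- the bad set -/
def Trn_bad (p : ℤ[X]) (f : X → ℝ) (lam : ℝ) (N0 : ℕ) : Set X :=
  {x | ∃ N : ℕ, N ≤ N0 ∧ lam * N < ∑ n ∈ Icc 1 N, f ((T ^ (p.eval (n : ℤ))) x)}

theorem Trn_bad_eq (p : ℤ[X]) (f : X → ℝ) (lam : ℝ) :
    {x | ∃ N : ℕ, lam * N < ∑ n ∈ Icc 1 N, f ((T ^ (p.eval (n : ℤ))) x)} =
      ⋃ N0 : ℕ, Trn_bad T p f lam N0 := by
  ext x
  simp only [Trn_bad, Set.mem_iUnion]
  constructor
  · rintro ⟨N, hN⟩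
    exact ⟨N, N, le_rfl, hN⟩
  · rintro ⟨N0, N, -, hN⟩
    exact ⟨N, hN⟩

theorem Trn_bad_meas (hT : Measurable T) (hT' : Measurable T.symm) (p : ℤ[X]) (f : X → ℝ)
    (hf : Measurable f) (lam : ℝ) (N0 : ℕ) : MeasurableSet (Trn_bad T p f lam N0) := by
  have h : Trn_bad T p f lam N0 = ⋃ N ∈ {N : ℕ | N ≤ N0},
      {x | lam * N < ∑ n ∈ Icc 1 N, f ((T ^ (p.eval (n : ℤ))) x)} := by
    ext x
    simp only [Trn_bad, Set.mem_iUnion]
    constructor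
    · rintro ⟨N, h1, h2⟩
      exact ⟨N, h1, h2⟩
    · rintro ⟨N, h1, h2⟩
      exact ⟨N, h1, h2⟩
  rw [h]
  refine MeasurableSet.biUnion (Set.to_countable _) fun N _ => ?_
  refine measurableSet_lt measurable_const ?_
  exact Finset.measurable_sum _ fun n _ => hf.comp (Trn_zmeas T hT hT' _)

theorem Trn_fin (p : ℤ[X]) (B : ℝ)
    (hB : ∀ (L : ℕ) [NeZero L] (f : ZMod L → ℝ), (∀ x, 0 ≤ f x) → ∀ Mx : ZMod L → ℕ,
      (∀ x, 1 ≤ Mx x) → ∑ x : ZMod L, ((1 / (Mx x : ℝ)) *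
      ∑ n ∈ Icc 1 (Mx x), f (x + ((p.eval (n : ℤ) : ℤ) : ZMod L))) ^ 2 ≤
      B ^ 2 * ∑ x : ZMod L, f x ^ 2)
    (hT : MeasurePreserving T μ μ) (hT' : Measurable T.symm) (f : X → ℝ) (hf : Measurable f)
    (C : ℝ) (hC : ∀ x, f x ≤ C) (h0 : ∀ x, 0 ≤ f x) (lam : ℝ) (hl : 0 < lam) (N0 : ℕ) :
    lam ^ 2 * (μ (Trn_bad T p f lam N0)).toReal ≤ B ^ 2 * ∫ x, f x ^ 2 ∂μ := by
  classical
  set Bad := Trn_bad T p f lam N0 with hBad
  have hBm : MeasurableSet Bad := Trn_bad_meas T hT.measurable hT' p f hf lam N0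
  -- bound for the values of p
  obtain ⟨D, hD⟩ : ∃ D : ℕ, ∀ n ∈ Icc 1 N0, |p.eval (n : ℤ)| ≤ (D : ℤ) := by
    refine ⟨∑ n ∈ Icc 1 N0, (p.eval (n : ℤ)).natAbs, fun n hn => ?_⟩
    have := Finset.single_le_sum (f := fun n : ℕ => (p.eval (n : ℤ)).natAbs)
      (fun _ _ => Nat.zero_le _) hn
    rw [Int.abs_eq_natAbs]
    exact_mod_cast this
  -- pointwise inequality
  have hpt : ∀ (L : ℕ) [NeZero L] (x : X),
      lam ^ 2 * ∑ i ∈ (Finset.univ.filter fun i : ZMod L => D ≤ i.val ∧ i.val + D < L),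
        Bad.indicator (fun _ => (1 : ℝ)) ((T ^ i.val) x) ≤
      B ^ 2 * ∑ i : ZMod L, f ((T ^ i.val) x) ^ 2 := by
    intro L _ x
    set Mx : ZMod L → ℕ := fun i =>
      if h : (T ^ i.val) x ∈ Bad then max 1 (Classical.choose h) else 1 with hMx
    have hM1 : ∀ i, 1 ≤ Mx i := by
      intro i
      simp only [hMx]
      split_ifs
      · exact le_max_left _ _
      · exact le_rfl
    have h1 := hB L (fun i => f ((T ^ i.val) x)) (fun _ => h0 _) Mx hM1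
    refine le_trans ?_ h1
    rw [Finset.mul_sum]
    refine le_trans ?_ (Finset.sum_le_sum_of_subset_of_nonneg (Finset.filter_subset
      (fun i : ZMod L => D ≤ i.val ∧ i.val + D < L) _) fun _ _ _ => sq_nonneg _)
    refine Finset.sum_le_sum fun i hi => ?_
    rw [Finset.mem_filter] at hi
    by_cases h : (T ^ i.val) x ∈ Bad
    · rw [Set.indicator_of_mem h, mul_one]
      have hch := Classical.choose_spec h
      set N := Classical.choose h with hN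
      have hN1 : 1 ≤ N := by
        by_contra hcon
        have : N = 0 := by omega
        rw [this] at hch
        simp at hch
      have hMN : Mx i = N := by
        simp only [hMx]
        rw [dif_pos h]
        exact max_eq_right hN1
      rw [hMN]
      have hsum : ∑ n ∈ Icc 1 N, f ((T ^ (i + ((p.eval (n : ℤ) : ℤ) : ZMod L)).val) x) =
          ∑ n ∈ Icc 1 N, f ((T ^ (p.eval (n : ℤ))) ((T ^ i.val) x)) := by
        refine Finset.sum_congr rfl fun n hn => ?_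
        have hn' : n ∈ Icc 1 N0 := by
          rw [Finset.mem_Icc] at hn ⊢
          exact ⟨hn.1, hn.2.trans hch.1⟩
        have h2 := hD n hn'
        rw [abs_le] at h2
        have h3 := Trn_val L i (p.eval (n : ℤ)) (by omega) (by omega)
        congr 1
        have h4 : T ^ (i + ((p.eval (n : ℤ) : ℤ) : ZMod L)).val =
            T ^ (p.eval (n : ℤ)) * T ^ i.val := by
          rw [← zpow_natCast T (i + ((p.eval (n : ℤ) : ℤ) : ZMod L)).val, h3, add_comm,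
            zpow_add, zpow_natCast]
        rw [h4]
        rfl
      rw [hsum]
      have hNp : (0 : ℝ) < N := by exact_mod_cast hN1
      have h5 : lam ≤ 1 / (N : ℝ) * ∑ n ∈ Icc 1 N, f ((T ^ (p.eval (n : ℤ))) ((T ^ i.val) x)) := by
        rw [one_div_mul_eq_div, le_div_iff₀ hNp]
        exact hch.2.le
      exact pow_le_pow_left₀ hl.le h5 2
    · rw [Set.indicator_of_notMem h, mul_zero]
      exact sq_nonneg _
  -- integrate
  have hTn : ∀ n : ℕ, MeasurePreserving (fun x => (T ^ n) x) μ μ := by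
    intro n
    have := hT.iterate n
    rwa [Equiv.Perm.iterate_eq_pow] at this
  have hBi : Integrable (Bad.indicator (fun _ => (1 : ℝ))) μ :=
    (integrable_const (1 : ℝ)).indicator hBm
  have hfi : Integrable (fun x => f x ^ 2) μ := by
    refine Integrable.of_bound (hf.pow_const 2).aestronglyMeasurable (C ^ 2)
      (Eventually.of_forall fun x => ?_)
    rw [Real.norm_eq_abs, abs_of_nonneg (sq_nonneg _)]
    exact pow_le_pow_left₀ (h0 x) (hC x) 2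
  have hint : ∀ (L : ℕ) [NeZero L],
      lam ^ 2 * (((L : ℝ) - 2 * D) * (μ Bad).toReal) ≤ B ^ 2 * (L * ∫ x, f x ^ 2 ∂μ) := by
    intro L _
    have h1 : ∫ x, (lam ^ 2 * ∑ i ∈ (Finset.univ.filter fun i : ZMod L =>
        D ≤ i.val ∧ i.val + D < L), Bad.indicator (fun _ => (1 : ℝ)) ((T ^ i.val) x)) ∂μ ≤
        ∫ x, (B ^ 2 * ∑ i : ZMod L, f ((T ^ i.val) x) ^ 2) ∂μ := by
      refine integral_mono ?_ ?_ (hpt L)
      · refine Integrable.const_mul ?_ _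
        exact integrable_finset_sum _ fun i _ => (hTn i.val).integrable_comp_of_integrable hBi
      · refine Integrable.const_mul ?_ _
        exact integrable_finset_sum _ fun i _ => (hTn i.val).integrable_comp_of_integrable hfi
    rw [integral_const_mul, integral_const_mul,
      integral_finset_sum _ (fun i _ => (hTn i.val).integrable_comp_of_integrable hBi),
      integral_finset_sum _ (fun i _ => (hTn i.val).integrable_comp_of_integrable hfi)] at h1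
    have e1 : ∀ n : ℕ, ∫ x, Bad.indicator (fun _ => (1 : ℝ)) ((T ^ n) x) ∂μ = (μ Bad).toReal := by
      intro n
      have h2 := integral_map (hTn n).measurable.aemeasurable (μ := μ)
        (f := Bad.indicator (fun _ => (1 : ℝ)))
        (by rw [(hTn n).map_eq]; exact hBi.aestronglyMeasurable)
      rw [(hTn n).map_eq] at h2
      rw [← h2, integral_indicator hBm]
      simp [Measure.real]
    have e2 : ∀ n : ℕ, ∫ x, f ((T ^ n) x) ^ 2 ∂μ = ∫ x, f x ^ 2 ∂μ := by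
      intro n
      have h2 := integral_map (hTn n).measurable.aemeasurable (μ := μ)
        (f := fun x => f x ^ 2)
        (by rw [(hTn n).map_eq]; exact hfi.aestronglyMeasurable)
      rw [(hTn n).map_eq] at h2
      exact h2.symm
    simp only [e1, e2, Finset.sum_const, nsmul_eq_mul, Finset.card_univ, ZMod.card] at h1
    refine le_trans ?_ h1
    have h3 := Trn_good L D
    have h4 : 0 ≤ (μ Bad).toReal := ENNReal.toReal_nonneg
    gcongr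
  -- let L tend to infinity
  by_contra hcon
  push Not at hcon
  set m := (μ Bad).toReal with hm
  set I := ∫ x, f x ^ 2 ∂μ with hI
  set e := lam ^ 2 * m - B ^ 2 * I with he
  have he0 : 0 < e := by rw [he]; linarith
  obtain ⟨L, hL⟩ := exists_nat_gt (lam ^ 2 * (2 * D * m) / e)
  rw [div_lt_iff₀ he0] at hL
  have h6 : 0 ≤ m := ENNReal.toReal_nonneg
  haveI : NeZero (L + 1) := ⟨by omega⟩
  have h7 := hint (L + 1)
  push_cast at h7
  have h8 : ((L : ℝ) + 1) * e ≤ lam ^ 2 * (2 * D * m) := by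
    rw [he]
    nlinarith
  nlinarith

end

theorem trans (p : ℤ[X]) (hd : 2 ≤ p.natDegree) : ∃ B : ℝ, 1 ≤ B ∧ ∀ {X : Type*}
    [MeasurableSpace X] (μ : Measure X) [IsProbabilityMeasure μ] (T : Equiv.Perm X),
    MeasurePreserving T μ μ → Measurable T.symm → ∀ f : X → ℝ, Measurable f →
    (∃ C : ℝ, ∀ x, f x ≤ C) → (∀ x, 0 ≤ f x) → ∀ lam : ℝ, 0 < lam →
    μ {x | ∃ N : ℕ, lam * N < ∑ n ∈ Icc 1 N, f ((T ^ (p.eval (n : ℤ))) x)} ≤
      ENNReal.ofReal (B ^ 2 * (∫ x, f x ^ 2 ∂μ) / lam ^ 2) := by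
  obtain ⟨B, hB1, hB⟩ := all_N p hd
  refine ⟨B, hB1, fun μ _ T hT hT' f hf ⟨C, hC⟩ h0 lam hl => ?_⟩
  rw [Trn_bad_eq, Monotone.measure_iUnion]
  · refine iSup_le fun N0 => ?_
    have h := Trn_fin μ T p B hB hT hT' f hf C hC h0 lam hl N0
    rw [← ENNReal.ofReal_toReal (measure_ne_top μ (Trn_bad T p f lam N0))]
    apply ENNReal.ofReal_le_ofReal
    rw [le_div_iff₀ (by positivity)]
    linarith
  · intro a b hab x hx
    obtain ⟨N, h1, h2⟩ := hx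
    exact ⟨N, h1.trans hab, h2⟩

end Pool.Agent.BMX
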