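import Pool.Agent.BMX.Bas

set_option autoImplicit false

/-! Module WeA: tools for Weyl's theorem.
`vdc_sq`: `|∑_{n ∈ (0,N]} e(P n)|² = ∑_{n,n'} e(P n - P n') ≤ N + 2 ∑_{h=1}^{N-1} |∑_{n=1}^{N-h} e(P(n+h) - P n)|`.
`vino` (Vinogradov's lemma): suppose at least `η N` of the integers `h ∈ [1,N]` satisfy `nn (β h) ≤ κ`, where `0 < η ≤ 1`, `κ ≤ η/16`, `N ≥ 16/η` (otherwise see below).  Dirichlet: `q ≤ N`, `|qβ - a| ≤ 1/(N+1)`, `(a,q) = 1`
  (`Real.exists_int_int_abs_mul_sub_le` or `Real.exists_rat_abs_sub_le_and_den_le`).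
  For `h` in an interval of length `q` (`h = h0 + t`, `0 ≤ t < q`), `βh = βh0 + at/q + O(1/N)`, and the `at/q` are the multiples of `1/q`; so the number of `h` in the interval with `nn(βh) ≤ κ` is at most `q (2κ + 2/N) + 2 ≤ 2κq + 4`; number of intervals `≤ N/q + 1 ≤ 2N/q`.
  So `ηN ≤ (2κq + 4)(2N/q) = 4κN + 8N/q`, so `η/2 ≤ 8/q`, `q ≤ 16/η`.
  Let `δ0 = qβ - a`.  If `nn(βh) ≤ κ`, then `nn(qβh) = nn(δ0 h)`, more precisely `βh = ah/q + δ0 h/q`, `|δ0 h/q| ≤ 1/q · N/(N+1)`.  If `q ∤ h` with `2 |δ0| h < 1`..: it is enough to take `h` small or to argue with `qβ`: `nn(qβ h) ≤ qκ` and `nn(qβh) = nn(δ0 h)`,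
  `|δ0 h| ≤ N/(N+1) < 1`; so `|δ0| h ≤ qκ` or `|δ0| h ≥ 1 - qκ`; (`qκ ≤ 1`).  There are at least `ηN/2` such `h` in `[1, N/2]` or in `(N/2, N]`; in general: the set of `h ≤ N` with `|δ0| h ≥ 1 - qκ` is contained in `[(1-qκ)/|δ0|, N]`, and `N ≤ 1/|δ0|`, so it has at most
  `N - (1 - qκ) N... ≤ qκ/|δ0| + 1` elements, and the set with `|δ0| h ≤ qκ` has at most `qκ/|δ0|` elements: `ηN ≤ 2qκ/|δ0| + 1`, so `|δ0| ≤ 4qκ/(ηN) ≤ 64 κ/(η² N)`. -/

open Finset Filter Topology MeasureTheory Polynomial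

namespace Pool.Agent.BMX

theorem WeA_ex_sub (x y : ℝ) : ex (x - y) = ex x * (starRingEnd ℂ) (ex y) := by
  rw [sub_eq_add_neg, ex_add, ex_neg]

theorem WeA_id (a : ℕ → ℂ) (ha : ∀ n, a n * (starRingEnd ℂ) (a n) = 1) (N : ℕ) :
    (∑ n ∈ Icc 1 N, a n) * (starRingEnd ℂ) (∑ n ∈ Icc 1 N, a n) =
      N + (∑ h ∈ Icc 1 N, ∑ n ∈ Icc 1 (N - h), a (n + h) * (starRingEnd ℂ) (a n)) +
        (starRingEnd ℂ) (∑ h ∈ Icc 1 N, ∑ n ∈ Icc 1 (N - h), a (n + h) * (starRingEnd ℂ) (a n)) := by
  induction N with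
  | zero => simp
  | succ N ih =>
    have hD : ∑ h ∈ Icc 1 (N + 1), ∑ n ∈ Icc 1 (N + 1 - h), a (n + h) * (starRingEnd ℂ) (a n) =
        (∑ h ∈ Icc 1 N, ∑ n ∈ Icc 1 (N - h), a (n + h) * (starRingEnd ℂ) (a n)) +
          a (N + 1) * (starRingEnd ℂ) (∑ n ∈ Icc 1 N, a n) := by
      rw [Finset.sum_Icc_succ_top (by omega)]
      have h0 : ∑ n ∈ Icc 1 (N + 1 - (N + 1)), a (n + (N + 1)) * (starRingEnd ℂ) (a n) = 0 := by
        simp
      rw [h0, add_zero]
      have h1 : ∀ h ∈ Icc 1 N, ∑ n ∈ Icc 1 (N + 1 - h), a (n + h) * (starRingEnd ℂ) (a n) =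
          (∑ n ∈ Icc 1 (N - h), a (n + h) * (starRingEnd ℂ) (a n)) +
            a (N + 1) * (starRingEnd ℂ) (a (N + 1 - h)) := by
        intro h hh
        rw [Finset.mem_Icc] at hh
        have e : N + 1 - h = (N - h) + 1 := by omega
        rw [e, Finset.sum_Icc_succ_top (by omega)]
        have e2 : N - h + 1 + h = N + 1 := by omega
        rw [e2]
      rw [Finset.sum_congr rfl h1, Finset.sum_add_distrib]
      congr 1
      rw [← Finset.mul_sum, map_sum]
      congr 1
      apply Finset.sum_nbij' (fun h => N + 1 - h) (fun h => N + 1 - h)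
      · intro h hh; rw [Finset.mem_Icc] at hh ⊢; omega
      · intro h hh; rw [Finset.mem_Icc] at hh ⊢; omega
      · intro h hh; rw [Finset.mem_Icc] at hh; omega
      · intro h hh; rw [Finset.mem_Icc] at hh; omega
      · intro h hh; rfl
    rw [hD, Finset.sum_Icc_succ_top (by omega)]
    rw [map_add, map_add, map_mul, Complex.conj_conj]
    have := ha (N + 1)
    push_cast
    linear_combination ih + this

theorem vdc_sq (P : ℕ → ℝ) (N : ℕ) :
    ‖∑ n ∈ Icc 1 N, ex (P n)‖ ^ 2 ≤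
      N + 2 * ∑ h ∈ Icc 1 N, ‖∑ n ∈ Icc 1 (N - h), ex (P (n + h) - P n)‖ := by
  have ha : ∀ n, ex (P n) * (starRingEnd ℂ) (ex (P n)) = 1 := by
    intro n
    rw [Complex.mul_conj, Complex.normSq_eq_norm_sq, norm_ex]
    simp
  have h := WeA_id (fun n => ex (P n)) ha N
  set S := ∑ n ∈ Icc 1 N, ex (P n) with hS
  set D := ∑ h ∈ Icc 1 N, ∑ n ∈ Icc 1 (N - h), ex (P (n + h)) * (starRingEnd ℂ) (ex (P n)) with hD
  have h1 : ‖S‖ ^ 2 = ‖S * (starRingEnd ℂ) S‖ := by
    rw [norm_mul, RCLike.norm_conj, sq]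
  have h2 : ‖D‖ ≤ ∑ h ∈ Icc 1 N, ‖∑ n ∈ Icc 1 (N - h), ex (P (n + h) - P n)‖ := by
    rw [hD]
    refine (norm_sum_le _ _).trans (le_of_eq ?_)
    apply Finset.sum_congr rfl
    intro h _
    congr 1
    apply Finset.sum_congr rfl
    intro n _
    rw [WeA_ex_sub]
  rw [h1, h]
  calc ‖(N : ℂ) + D + (starRingEnd ℂ) D‖ ≤ ‖(N : ℂ)‖ + ‖D‖ + ‖(starRingEnd ℂ) D‖ := norm_add₃_le
    _ = N + 2 * ‖D‖ := by rw [RCLike.norm_conj, Complex.norm_natCast]; ring
    _ ≤ _ := by linarith

theorem WeA_nn_le (x y : ℝ) : nn x ≤ nn y + |x - y| := by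
  have h := nn_le x (round y)
  refine h.trans ?_
  have : x - (round y : ℤ) = (y - round y) + (x - y) := by ring
  rw [this]
  exact abs_add_le _ _

theorem WeA_nn_mul (x : ℝ) (q : ℕ) : nn (q * x) ≤ q * nn x := by
  have h := nn_le (q * x) (q * round x)
  refine h.trans (le_of_eq ?_)
  unfold nn
  push_cast
  rw [← mul_sub, abs_mul, Nat.abs_cast]

/-- count in a block of length `q` -/
theorem WeA_block (β κ : ℝ) (N : ℕ) (hκ0 : 0 ≤ κ) (r : ℚ)
    (hr : |β - r| ≤ 1 / ((N + 1) * r.den)) (A : Finset ℕ)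
    (hA : ∀ h ∈ A, h ≤ N ∧ nn (β * h) ≤ κ) (j : ℕ) (hj : ∀ h ∈ A, h / r.den = j) :
    (A.card : ℝ) ≤ 2 * κ * r.den + 3 := by
  set q : ℕ := r.den with hq
  have hq0 : 0 < q := r.pos
  have hqR : (0 : ℝ) < q := by exact_mod_cast hq0
  set a : ℤ := r.num with ha
  have hra : (r : ℝ) = a / q := by
    rw [ha, hq]; exact_mod_cast (Rat.num_div_den r).symm
  set K : ℤ := ⌊κ * q + 1⌋ with hK
  have hK0 : 0 ≤ K := Int.floor_nonneg.2 (by positivity)
  let φ : ℕ → ℤ := fun h => a * h - q * round ((a : ℝ) * h / q)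
  have hmaps : ∀ h ∈ A, φ h ∈ Icc (-K) K := by
    intro h hh
    obtain ⟨h1, h2⟩ := hA h hh
    have e1 : |(φ h : ℝ)| = q * nn ((a : ℝ) * h / q) := by
      unfold nn
      rw [← abs_of_pos hqR, ← abs_mul, abs_of_pos hqR]
      congr 1
      simp only [φ]
      push_cast
      field_simp
    have e2 : nn ((a : ℝ) * h / q) ≤ κ + 1 / q := by
      refine (WeA_nn_le _ (β * h)).trans (add_le_add h2 ?_)
      have e3 : (a : ℝ) * h / q - β * h = -((β - r) * h) := by
        rw [hra]; ring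
      rw [e3, abs_neg, abs_mul, Nat.abs_cast]
      have hN1 : (0 : ℝ) < N + 1 := by positivity
      have hh1 : (h : ℝ) ≤ N + 1 := by
        have : (h : ℝ) ≤ N := by exact_mod_cast h1
        linarith
      calc |β - r| * h ≤ 1 / ((N + 1) * q) * (N + 1) :=
            mul_le_mul hr hh1 (Nat.cast_nonneg _) (by positivity)
        _ = 1 / q := by field_simp
    have e3 : |(φ h : ℝ)| ≤ κ * q + 1 := by
      rw [e1]
      calc q * nn ((a : ℝ) * h / q) ≤ q * (κ + 1 / q) := mul_le_mul_of_nonneg_left e2 hqR.le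
        _ = κ * q + 1 := by field_simp
    have e4 : |φ h| ≤ K := by
      rw [hK]
      apply Int.le_floor.2
      push_cast
      exact e3
    rw [Finset.mem_Icc]
    exact abs_le.1 e4
  have hinj : ∀ h ∈ A, ∀ h' ∈ A, φ h = φ h' → h = h' := by
    intro h hh h' hh' he
    have hd : (q : ℤ) ∣ a * (h - h' : ℤ) := by
      refine ⟨round ((a : ℝ) * h / q) - round ((a : ℝ) * h' / q), ?_⟩
      simp only [φ] at he
      linear_combination he
    have hcop : IsCoprime (q : ℤ) a := by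
      rw [Int.isCoprime_iff_gcd_eq_one, Int.gcd_comm]
      have := r.reduced
      rw [← ha, ← hq] at this
      exact this
    have hd2 : (q : ℤ) ∣ (h - h' : ℤ) := hcop.dvd_of_dvd_mul_left hd
    have e1 : h / q = h' / q := by rw [hj h hh, hj h' hh']
    have e2 := Nat.div_add_mod h q
    have e3 := Nat.div_add_mod h' q
    have e4 := Nat.mod_lt h hq0
    have e5 := Nat.mod_lt h' hq0
    rw [e1] at e2
    have e6 : |(h : ℤ) - h'| < q := by
      rw [abs_lt]
      generalize h % q = u at e2 e4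
      generalize h' % q = v at e3 e5
      generalize q * (h' / q) = w at e2 e3
      constructor <;> omega
    have e7 := Int.eq_zero_of_abs_lt_dvd hd2 e6
    omega
  have hcard : A.card ≤ (Icc (-K) K).card := by
    apply Finset.card_le_card_of_injOn φ
    · intro h hh; exact hmaps h hh
    · intro h hh h' hh' he; exact hinj h hh h' hh' he
  rw [Int.card_Icc] at hcard
  have h1 : ((K + 1 - -K).toNat : ℝ) = 2 * K + 1 := by
    have : ((K + 1 - -K).toNat : ℤ) = 2 * K + 1 := by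
      rw [Int.toNat_of_nonneg (by omega)]; ring
    exact_mod_cast this
  have h2 : (K : ℝ) ≤ κ * q + 1 := Int.floor_le _
  calc (A.card : ℝ) ≤ ((K + 1 - -K).toNat : ℝ) := by exact_mod_cast hcard
    _ = 2 * K + 1 := h1
    _ ≤ 2 * κ * q + 3 := by linarith

theorem vino (β η κ : ℝ) (N : ℕ) (hη : 0 < η) (hη1 : η ≤ 1) (hκ0 : 0 ≤ κ) (hκ : κ ≤ η / 64)
    (hN : 16 / η ≤ N) (hcard : open Classical in
      η * N ≤ ((Icc 1 N).filter (fun h : ℕ => nn (β * h) ≤ κ)).card) :
    ∃ (q : ℕ) (a : ℤ), 1 ≤ q ∧ (q : ℝ) ≤ 16 / η ∧ |q * β - a| ≤ 64 * κ / (η ^ 2 * N) := by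
  classical
  have hNpos : (0 : ℝ) < N := lt_of_lt_of_le (by positivity) hN
  have hN0 : 0 < N := by exact_mod_cast hNpos
  obtain ⟨r, hr, hrN⟩ := Real.exists_rat_abs_sub_le_and_den_le β hN0
  set q : ℕ := r.den with hq
  have hq0 : 0 < q := r.pos
  have hqR : (0 : ℝ) < q := by exact_mod_cast hq0
  set a : ℤ := r.num with ha
  have hra : (r : ℝ) = a / q := by
    rw [ha, hq]; exact_mod_cast (Rat.num_div_den r).symm
  set A := (Icc 1 N).filter (fun h : ℕ => nn (β * h) ≤ κ) with hA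
  have hcard' : η * N ≤ A.card := by
    rw [hA]; convert hcard
  have hAm : ∀ h ∈ A, 1 ≤ h ∧ h ≤ N ∧ nn (β * h) ≤ κ := by
    intro h hh
    rw [hA, Finset.mem_filter, Finset.mem_Icc] at hh
    exact ⟨hh.1.1, hh.1.2, hh.2⟩
  -- first bound
  have hb1 : (A.card : ℝ) ≤ (2 * N / q) * (2 * κ * q + 3) := by
    have h1 : A.card = ∑ j ∈ range (N / q + 1), (A.filter (fun h => h / q = j)).card := by
      apply Finset.card_eq_sum_card_fiberwise
      intro h hh
      have := (hAm h hh).2.1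
      have h2 : h / q ≤ N / q := Nat.div_le_div_right this
      exact Finset.mem_coe.2 (Finset.mem_range.2 (Nat.lt_succ_of_le h2))
    have h2 : ∀ j ∈ range (N / q + 1), ((A.filter (fun h => h / q = j)).card : ℝ) ≤
        2 * κ * q + 3 := by
      intro j _
      apply WeA_block β κ N hκ0 r (by rw [← hq]; exact hr) _ _ j
      · intro h hh
        exact (Finset.mem_filter.1 hh).2
      · intro h hh
        have := hAm h (Finset.mem_filter.1 hh).1
        exact ⟨this.2.1, this.2.2⟩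
    have h3 : (A.card : ℝ) ≤ ((N / q + 1 : ℕ) : ℝ) * (2 * κ * q + 3) := by
      rw [h1]
      push_cast
      calc _ ≤ ∑ j ∈ range (N / q + 1), (2 * κ * q + 3 : ℝ) := Finset.sum_le_sum h2
        _ = _ := by rw [Finset.sum_const, Finset.card_range, nsmul_eq_mul]; push_cast; ring
    have h4 : ((N / q + 1 : ℕ) : ℝ) ≤ 2 * N / q := by
      have h5 : ((N / q : ℕ) : ℝ) ≤ N / q := Nat.cast_div_le
      have h6 : (1 : ℝ) ≤ N / q := by
        rw [one_le_div hqR]; exact_mod_cast hrN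
      push_cast
      have h7 : (2 : ℝ) * N / q = N / q + N / q := by ring
      rw [h7]; linarith
    exact h3.trans (mul_le_mul_of_nonneg_right h4 (by positivity))
  have hqη : (q : ℝ) * η ≤ 32 / 5 := by
    have h1 : η * N ≤ (2 * N / q) * (2 * κ * q + 3) := hcard'.trans hb1
    have h2 : (2 * (N : ℝ) / q) * (2 * κ * q + 3) = N * (4 * κ + 6 / q) := by
      field_simp
      ring
    rw [h2] at h1
    have h3 : η ≤ 4 * κ + 6 / q := by
      have : (N : ℝ) * η ≤ N * (4 * κ + 6 / q) := by linarith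
      exact le_of_mul_le_mul_left this hNpos
    have h4 : 15 / 16 * η ≤ 6 / q := by linarith
    rw [le_div_iff₀ hqR] at h4
    linarith
  refine ⟨q, a, hq0, ?_, ?_⟩
  · rw [le_div_iff₀ hη]; linarith
  -- second part
  set d : ℝ := |q * β - a| with hd
  have hd0 : 0 ≤ d := abs_nonneg _
  have hdN : d * (N + 1) ≤ 1 := by
    have e1 : q * β - a = q * (β - r) := by rw [hra]; field_simp
    rw [hd, e1, abs_mul, Nat.abs_cast]
    have h1 : (q : ℝ) * |β - r| ≤ q * (1 / ((N + 1) * q)) := mul_le_mul_of_nonneg_left hr hqR.le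
    have h2 : (q : ℝ) * (1 / ((N + 1) * q)) = 1 / (N + 1) := by field_simp
    rw [h2] at h1
    have h3 : (0 : ℝ) < N + 1 := by positivity
    calc _ ≤ 1 / ((N : ℝ) + 1) * (N + 1) := mul_le_mul_of_nonneg_right h1 h3.le
      _ = 1 := by field_simp
  have hgoal : d * (η * N) ≤ 2 * q * κ := by
    rcases hd0.eq_or_lt with h0 | h0
    · rw [← h0, zero_mul]; positivity
    have hsub : A ⊆ Icc 1 ⌊q * κ / d⌋₊ ∪ Icc ⌈(1 - q * κ) / d⌉₊ N := by
      intro h hh
      obtain ⟨h1, h2, h3⟩ := hAm h hh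
      have h1R : (1 : ℝ) ≤ h := by exact_mod_cast h1
      have h2R : (h : ℝ) ≤ N := by exact_mod_cast h2
      have e1 : nn ((q * β - a) * h) ≤ q * κ := by
        have e2 : nn ((q * β - a) * h) = nn (q * (β * h)) := by
          have e3 : (q * β - a) * h = q * (β * h) + ((-(a * h) : ℤ) : ℝ) := by push_cast; ring
          rw [e3, nn_add_int]
        rw [e2]
        exact (WeA_nn_mul _ _).trans (mul_le_mul_of_nonneg_left h3 hqR.le)
      set x : ℝ := (q * β - a) * h with hx
      have hxd : |x| = d * h := by rw [hx, abs_mul, Nat.abs_cast]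
      have hx1 : |x| < 1 := by
        rw [hxd]
        nlinarith
      have hcase : |x| ≤ q * κ ∨ 1 - |x| ≤ q * κ := by
        unfold nn at e1
        have hr1 : |(round x : ℝ)| < 2 := by
          have h5 := abs_sub_round x
          have h6 : |(round x : ℝ)| ≤ |x| + |x - round x| := by
            have : (round x : ℝ) = x - (x - round x) := by ring
            calc |(round x : ℝ)| = |x - (x - round x)| := by rw [← this]
              _ ≤ _ := abs_sub _ _
          linarith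
        have hr2 : |round x| < 2 := by exact_mod_cast hr1
        have hr3 : round x = -1 ∨ round x = 0 ∨ round x = 1 := by
          rw [abs_lt] at hr2
          omega
        rcases hr3 with h5 | h5 | h5
        · right
          rw [h5] at e1
          push_cast at e1
          have h6 : 1 - |x| ≤ |x - -1| := by
            have h7 := neg_abs_le x
            have h8 := le_abs_self (x - -1)
            linarith
          linarith
        · left
          rw [h5] at e1
          simpa using e1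
        · right
          rw [h5] at e1
          push_cast at e1
          have h6 : 1 - |x| ≤ |x - 1| := by
            have h7 := le_abs_self x
            have h8 := neg_abs_le (x - 1)
            linarith
          linarith
      rw [Finset.mem_union, Finset.mem_Icc, Finset.mem_Icc]
      rw [hxd] at hcase
      rcases hcase with h5 | h5
      · left
        refine ⟨h1, Nat.le_floor ?_⟩
        rw [le_div_iff₀ h0]; linarith
      · right
        refine ⟨Nat.ceil_le.2 ?_, h2⟩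
        rw [div_le_iff₀ h0]; linarith
    have hc1 : (A.card : ℝ) ≤ 2 * (q * κ / d) := by
      have h1 := (Finset.card_le_card hsub).trans (Finset.card_union_le _ _)
      rw [Nat.card_Icc, Nat.card_Icc] at h1
      have h2 : ((⌊q * κ / d⌋₊ + 1 - 1 : ℕ) : ℝ) ≤ q * κ / d := by
        rw [Nat.add_sub_cancel]
        exact Nat.floor_le (by positivity)
      have h3 : ((N + 1 - ⌈(1 - q * κ) / d⌉₊ : ℕ) : ℝ) ≤ q * κ / d := by
        rcases le_or_gt ⌈(1 - q * κ) / d⌉₊ (N + 1) with h4 | h4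
        · rw [Nat.cast_sub h4]
          have h5 := Nat.le_ceil ((1 - q * κ) / d)
          have h6 : ((N + 1 : ℕ) : ℝ) ≤ 1 / d := by
            rw [le_div_iff₀ h0]; push_cast; linarith
          have h7 : 1 / d - (1 - q * κ) / d = q * κ / d := by ring
          linarith
        · rw [Nat.sub_eq_zero_of_le h4.le]
          simp only [Nat.cast_zero]
          positivity
      have h4 : (A.card : ℝ) ≤ ((⌊q * κ / d⌋₊ + 1 - 1 : ℕ) : ℝ) +
          ((N + 1 - ⌈(1 - q * κ) / d⌉₊ : ℕ) : ℝ) := by exact_mod_cast h1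
      linarith
    have h5 : η * N ≤ 2 * (q * κ / d) := hcard'.trans hc1
    calc d * (η * N) ≤ d * (2 * (q * κ / d)) := mul_le_mul_of_nonneg_left h5 hd0
      _ = 2 * q * κ := by field_simp
  rw [le_div_iff₀ (by positivity)]
  have h6 : d * (η ^ 2 * N) = (d * (η * N)) * η := by ring
  rw [h6]
  calc d * (η * N) * η ≤ (2 * q * κ) * η := mul_le_mul_of_nonneg_right hgoal hη.le
    _ = 2 * κ * (q * η) := by ring
    _ ≤ 2 * κ * (32 / 5) := mul_le_mul_of_nonneg_left hqη (by positivity)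
    _ ≤ 64 * κ := by linarith

end Pool.Agent.BMX
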