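import Pool.Agent.BMX.WeA

set_option autoImplicit false

/-! Module WeB: inverse form of Weyl's inequality for real polynomials, by induction on the degree.
`WP d`: for every `ε ∈ (0,1)` there are `δ ∈ (0,1)`, `N0` such that for `N ≥ N0`, `P` real of degree `≤ d` with `d`-th coefficient `α` and `|∑_{n ≤ N} e(P n)| ≥ N^{1-δ}` there is `1 ≤ q ≤ N^ε` with `|qα - a| ≤ N^{-d+ε}`.
`d = 1`: geometric sum (`ex_geom`): `N^{1-δ} ≤ 1/(2 nn α)` (or `nn α = 0`), so `nn α ≤ N^{-1+δ}`; `q = 1`, `δ = ε`.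
Step `d → d + 1` (`d ≥ 1`): given `ε`, let `ε' = ε/10`, `δ'` the constant of `WP d` for `ε'`, `δ = min(δ', ε')/20`.  By `vdc_sq`, `N^{2-2δ} ≤ N + 2 ∑_h |∑_{n ≤ N-h} e(ΔP)|`; so for at least `N^{1-3δ}` of the `h` the inner sum is `≥ N^{1-3δ}` (`N` large), so
`N - h ≥ N^{1-3δ}`, and it is `≥ (N-h)^{1-δ'}`, as `N^{1-3δ} ≥ N^{1-δ'}`.  `ΔP(n) = P(n+h) - P(n)` has degree `≤ d` and `d`-th coefficient `(d+1) α h`.  `WP d`: `q_h ≤ N^{ε'}`, `nn(q_h (d+1) α h) ≤ (N-h)^{-d+ε'} ≤ N^{-d+ε'+3dδ}`.  Pigeonhole on `q_h`: a common `q`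
for at least `N^{1-3δ-ε'}` values of `h`.  `vino` with `β = q (d+1) α`, `η = N^{-3δ-ε'}`, `κ = N^{-d+ε'+3dδ}` (choose `δ` with `3dδ ≤ ε'`; `κ ≤ η/64` for large `N` since `d ≥ 1`): `q' ≤ 16 N^{3δ+ε'}`, `|q' β - a| ≤ 64 κ/(η² N) ≤ N^{-(d+1)+ε}`; the total denominator
`q' q (d+1) ≤ N^ε`. -/

open Finset Filter Topology MeasureTheory Polynomial

namespace Pool.Agent.BMX

/-- inverse form of Weyl's inequality in degree `d` -/
def WP (d : ℕ) : Prop := ∀ ε : ℝ, 0 < ε → ε < 1 → ∃ δ : ℝ, 0 < δ ∧ δ < 1 ∧ ∃ N0 : ℕ, 1 ≤ N0 ∧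
  ∀ N : ℕ, N0 ≤ N → ∀ P : ℝ[X], P.natDegree ≤ d →
    (N : ℝ) ^ (1 - δ) ≤ ‖∑ n ∈ Icc 1 N, ex (P.eval (n : ℝ))‖ →
    ∃ (q : ℕ) (a : ℤ), 1 ≤ q ∧ (q : ℝ) ≤ (N : ℝ) ^ ε ∧
      |q * P.coeff d - a| ≤ (N : ℝ) ^ (-(d : ℝ) + ε)

theorem wp_one : WP 1 := by
  intro ε hε hε1
  refine ⟨ε, hε, hε1, 1, le_rfl, fun N hN P hP hS => ?_⟩
  have hN1 : (1 : ℝ) ≤ N := by exact_mod_cast hN
  have hN0 : (0 : ℝ) < N := by linarith
  refine ⟨1, round (P.coeff 1), le_rfl, ?_, ?_⟩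
  · rw [Nat.cast_one]
    exact Real.one_le_rpow hN1 hε.le
  · have hnn : |((1 : ℕ) : ℝ) * P.coeff 1 - (round (P.coeff 1) : ℤ)| = nn (P.coeff 1) := by
      unfold nn
      rw [Nat.cast_one, one_mul]
    rw [hnn]
    rcases (nn_nonneg (P.coeff 1)).eq_or_lt with h0 | h0
    · rw [← h0]
      positivity
    · have h1 : ‖∑ n ∈ Icc 1 N, ex (P.eval (n : ℝ))‖ = ‖∑ m ∈ Icc (0 + 1) N, ex (m * P.coeff 1)‖ := by
        have h2 : ∀ n ∈ Icc 1 N, ex (P.eval (n : ℝ)) = ex (P.coeff 0) * ex (n * P.coeff 1) := by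
          intro n _
          rw [← ex_add]
          congr 1
          conv_lhs => rw [Polynomial.eq_X_add_C_of_natDegree_le_one hP]
          simp
          ring
        rw [Finset.sum_congr rfl h2, ← Finset.mul_sum, norm_mul, norm_ex, one_mul]
      rw [h1] at hS
      have h2 := hS.trans (ex_geom _ h0 0 N)
      have h3 : (N : ℝ) ^ (1 - ε) * nn (P.coeff 1) ≤ 1 / 2 := by
        rw [le_div_iff₀ (by positivity)] at h2
        linarith
      have h4 : (N : ℝ) ^ (-((1 : ℕ) : ℝ) + ε) = ((N : ℝ) ^ (1 - ε))⁻¹ := by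
        rw [← Real.rpow_neg hN0.le]
        congr 1
        push_cast
        ring
      have h5 : 0 < (N : ℝ) ^ (1 - ε) := Real.rpow_pos_of_pos hN0 _
      rw [h4]
      rw [← one_div, le_div_iff₀ h5]
      linarith

/-- the difference polynomial -/
lemma WeB_diff (d : ℕ) (P : ℝ[X]) (hP : P.natDegree ≤ d + 1) (h : ℝ) :
    (Polynomial.taylor h P - P).natDegree ≤ d ∧
    (Polynomial.taylor h P - P).coeff d = (d + 1) * P.coeff (d + 1) * h ∧
    ∀ x : ℝ, (Polynomial.taylor h P - P).eval x = P.eval (x + h) - P.eval x := by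
  have hco : ∀ k, (Polynomial.taylor h P).coeff k = (Polynomial.hasseDeriv k P).eval h :=
    fun k => Polynomial.taylor_coeff h P k
  refine ⟨?_, ?_, ?_⟩
  · rw [Polynomial.natDegree_le_iff_coeff_eq_zero]
    intro k hk
    rw [Polynomial.coeff_sub, hco]
    rcases Nat.lt_or_ge (d + 1) k with hk1 | hk1
    · rw [Polynomial.hasseDeriv_eq_zero_of_lt_natDegree P k (by omega),
        Polynomial.coeff_eq_zero_of_natDegree_lt (by omega)]
      simp
    · have hk2 : k = d + 1 := by omega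
      subst hk2
      have h1 : (Polynomial.hasseDeriv (d + 1) P).natDegree ≤ 0 := by
        have := Polynomial.natDegree_hasseDeriv_le P (d + 1)
        omega
      rw [Polynomial.eq_C_of_natDegree_le_zero h1, Polynomial.eval_C,
        Polynomial.hasseDeriv_coeff]
      simp
  · rw [Polynomial.coeff_sub, hco]
    have h1 : (Polynomial.hasseDeriv d P).natDegree ≤ 1 := by
      have := Polynomial.natDegree_hasseDeriv_le P d
      omega
    rw [Polynomial.eq_X_add_C_of_natDegree_le_one h1]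
    simp only [Polynomial.eval_add, Polynomial.eval_mul, Polynomial.eval_C, Polynomial.eval_X,
      Polynomial.hasseDeriv_coeff]
    rw [show (1 + d).choose d = d + 1 by rw [add_comm, Nat.choose_succ_self_right]]
    rw [show 1 + d = d + 1 by ring]
    simp
  · intro x
    rw [Polynomial.eval_sub, Polynomial.taylor_eval]

lemma WeB_large (δ ε' : ℝ) (hδ : 0 < δ) (hε' : 0 < ε') (M : ℕ) (C : ℝ) :
    ∃ N0 : ℕ, 1 ≤ N0 ∧ ∀ N : ℕ, N0 ≤ N → 4096 ≤ N ∧ M ^ 2 ≤ N ∧ (5 : ℝ) ≤ (N : ℝ) ^ δ ∧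
      (64 : ℝ) ≤ (N : ℝ) ^ (4 * ε') ∧ C ≤ (N : ℝ) ^ (7 * ε') := by
  have h1 := ((tendsto_rpow_atTop hδ).comp tendsto_natCast_atTop_atTop).eventually_ge_atTop (5 : ℝ)
  have h2 := ((tendsto_rpow_atTop (by positivity : 0 < 4 * ε')).comp
    tendsto_natCast_atTop_atTop).eventually_ge_atTop (64 : ℝ)
  have h3 := ((tendsto_rpow_atTop (by positivity : 0 < 7 * ε')).comp
    tendsto_natCast_atTop_atTop).eventually_ge_atTop C
  have h4 := eventually_ge_atTop (4096 : ℕ)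
  have h5 := eventually_ge_atTop (M ^ 2 : ℕ)
  obtain ⟨N0, hN0⟩ := eventually_atTop.1 (h1.and (h2.and (h3.and (h4.and h5))))
  refine ⟨N0 + 1, by omega, fun N hN => ?_⟩
  obtain ⟨a1, a2, a3, a4, a5⟩ := hN0 N (by omega)
  exact ⟨a4, a5, a1, a2, a3⟩

open Classical in
/-- many differences have large sums -/
lemma WeB_many (P : ℕ → ℝ) (N : ℕ) (δ : ℝ) (hδ : 0 < δ) (hδ1 : 3 * δ ≤ 1) (hN : 1 ≤ N)
    (h5 : (5 : ℝ) ≤ (N : ℝ) ^ δ) (hS : (N : ℝ) ^ (1 - δ) ≤ ‖∑ n ∈ Icc 1 N, ex (P n)‖) :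
    (N : ℝ) ^ (1 - 3 * δ) ≤ (((Icc 1 N).filter (fun h : ℕ =>
      (N : ℝ) ^ (1 - 3 * δ) ≤ ‖∑ n ∈ Icc 1 (N - h), ex (P (n + h) - P n)‖)).card : ℝ) := by
  have hN1 : (1 : ℝ) ≤ N := by exact_mod_cast hN
  have hN0 : (0 : ℝ) < N := by linarith
  set T : ℕ → ℝ := fun h => ‖∑ n ∈ Icc 1 (N - h), ex (P (n + h) - P n)‖ with hT
  set B : ℝ := (N : ℝ) ^ (1 - 3 * δ) with hB
  set H := (Icc 1 N).filter (fun h : ℕ => B ≤ T h) with hH
  have hTle : ∀ h, T h ≤ N := by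
    intro h
    calc T h ≤ ∑ n ∈ Icc 1 (N - h), ‖ex (P (n + h) - P n)‖ := norm_sum_le _ _
      _ = ((N - h : ℕ) : ℝ) := by simp [norm_ex]
      _ ≤ N := by exact_mod_cast Nat.sub_le _ _
  have hB1 : 1 ≤ B := Real.one_le_rpow hN1 (by linarith)
  have h1 : ∑ h ∈ Icc 1 N, T h ≤ N * B + H.card * N := by
    rw [← Finset.sum_filter_add_sum_filter_not (Icc 1 N) (fun h : ℕ => B ≤ T h)]
    have e1 : ∑ h ∈ (Icc 1 N).filter (fun h : ℕ => B ≤ T h), T h ≤ H.card * N := by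
      calc _ ≤ ∑ h ∈ H, (N : ℝ) := Finset.sum_le_sum fun h _ => hTle h
        _ = _ := by rw [Finset.sum_const, nsmul_eq_mul]
    have e2 : ∑ h ∈ (Icc 1 N).filter (fun h : ℕ => ¬ B ≤ T h), T h ≤ N * B := by
      calc _ ≤ ∑ h ∈ (Icc 1 N).filter (fun h : ℕ => ¬ B ≤ T h), B := by
            apply Finset.sum_le_sum
            intro h hh
            exact (not_le.1 (Finset.mem_filter.1 hh).2).le
        _ = ((Icc 1 N).filter (fun h : ℕ => ¬ B ≤ T h)).card * B := by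
            rw [Finset.sum_const, nsmul_eq_mul]
        _ ≤ N * B := by
            apply mul_le_mul_of_nonneg_right _ (by linarith)
            have := Finset.card_filter_le (Icc 1 N) (fun h : ℕ => ¬ B ≤ T h)
            rw [Nat.card_Icc] at this
            exact_mod_cast this
    linarith
  have h2 := vdc_sq P N
  have h3 : ((N : ℝ) ^ (1 - δ)) ^ 2 ≤ N + 2 * (N * B + H.card * N) := by
    calc ((N : ℝ) ^ (1 - δ)) ^ 2 ≤ ‖∑ n ∈ Icc 1 N, ex (P n)‖ ^ 2 :=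
          pow_le_pow_left₀ (by positivity) hS 2
      _ ≤ _ := h2
      _ ≤ _ := by linarith
  have h4 : ((N : ℝ) ^ (1 - δ)) ^ 2 = N * (B * (N : ℝ) ^ δ) := by
    rw [hB, ← Real.rpow_add hN0, ← Real.rpow_natCast, ← Real.rpow_mul hN0.le]
    nth_rw 2 [← Real.rpow_one (N : ℝ)]
    rw [← Real.rpow_add hN0]
    congr 1
    push_cast
    ring
  rw [h4] at h3
  have h6 : N * (B * (N : ℝ) ^ δ) ≤ N * (1 + 2 * (B + H.card)) := by linarith
  have h7 := le_of_mul_le_mul_left h6 hN0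
  have h8 : B * 5 ≤ B * (N : ℝ) ^ δ := mul_le_mul_of_nonneg_left h5 (by linarith)
  linarith

theorem wp_succ (d : ℕ) (hd : 1 ≤ d) (h : WP d) : WP (d + 1) := by
  classical
  intro ε hε hε1
  set ε' := ε / 10 with hε'def
  have hε' : 0 < ε' := by positivity
  have hε'1 : ε' < 1 / 10 := by rw [hε'def]; linarith
  obtain ⟨δ', hδ', hδ'1, M, hM, hWP⟩ := h ε' hε' (by linarith)
  have hd1 : (1 : ℝ) ≤ d := by exact_mod_cast hd
  set δ := min δ' ε' / (20 * d) with hδdef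
  have hmin : 0 < min δ' ε' := lt_min hδ' hε'
  have hδ : 0 < δ := by positivity
  have hδd : δ * (20 * d) = min δ' ε' := by rw [hδdef]; field_simp
  have hδ20 : 20 * δ ≤ min δ' ε' := by nlinarith
  have hδδ' : 3 * δ ≤ δ' := by linarith [min_le_left δ' ε']
  have hδε' : 3 * δ ≤ ε' := by linarith [min_le_right δ' ε']
  have hdδ : 3 * d * δ ≤ ε' := by nlinarith [min_le_right δ' ε']
  obtain ⟨N0, hN01, hN0⟩ := WeB_large δ ε' hδ hε' M (16 * (d + 1))
  refine ⟨δ, hδ, by linarith, N0, hN01, fun N hN P hP hS => ?_⟩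
  obtain ⟨hL1, hL2, hL3, hL4, hL5⟩ := hN0 N hN
  have hN1 : (1 : ℝ) ≤ N := by
    have : (1 : ℕ) ≤ N := by omega
    exact_mod_cast this
  have hNpos : (0 : ℝ) < N := by linarith
  have hmany := WeB_many (fun n => P.eval (n : ℝ)) N δ hδ (by linarith) (by omega) hL3 hS
  set B : ℝ := (N : ℝ) ^ (1 - 3 * δ) with hB
  set H := (Icc 1 N).filter (fun h : ℕ => B ≤ ‖∑ n ∈ Icc 1 (N - h),
    ex (P.eval ((n + h : ℕ) : ℝ) - P.eval (n : ℝ))‖) with hH
  have hBpos : 0 < B := by positivity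
  set α := P.coeff (d + 1) with hα
  set κ : ℝ := (N : ℝ) ^ (-(d : ℝ) + 2 * ε') with hκ
  -- the inductive hypothesis for each h
  have hstep : ∀ h ∈ H, ∃ q : ℕ, 1 ≤ q ∧ (q : ℝ) ≤ (N : ℝ) ^ ε' ∧
      nn (q * (d + 1) * α * h) ≤ κ := by
    intro h hh
    obtain ⟨hh1, hh2⟩ := Finset.mem_filter.1 hh
    obtain ⟨hh3, hh4⟩ := Finset.mem_Icc.1 hh1
    obtain ⟨hdeg, hcoef, hev⟩ := WeB_diff d P hP h
    set n0 := N - h with hn0
    have hT : ‖∑ n ∈ Icc 1 n0, ex (P.eval ((n + h : ℕ) : ℝ) - P.eval (n : ℝ))‖ ≤ n0 := by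
      calc _ ≤ ∑ n ∈ Icc 1 n0, ‖ex (P.eval ((n + h : ℕ) : ℝ) - P.eval (n : ℝ))‖ :=
            norm_sum_le _ _
        _ = ((n0 : ℕ) : ℝ) := by simp [norm_ex]
    have hBn : B ≤ n0 := hh2.trans hT
    have hBhalf : (N : ℝ) ^ (1 / 2 : ℝ) ≤ B :=
      Real.rpow_le_rpow_of_exponent_le hN1 (by linarith)
    have hMn : (M : ℝ) ≤ (N : ℝ) ^ (1 / 2 : ℝ) := by
      have h1 : (M : ℝ) ^ 2 ≤ N := by exact_mod_cast hL2
      rw [← Real.sqrt_eq_rpow]
      exact Real.le_sqrt_of_sq_le h1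
    have hMn0 : M ≤ n0 := by
      have : (M : ℝ) ≤ n0 := hMn.trans (hBhalf.trans hBn)
      exact_mod_cast this
    have hn01 : (1 : ℝ) ≤ n0 := by
      have : 1 ≤ n0 := le_trans hM hMn0
      exact_mod_cast this
    have hn0N : (n0 : ℝ) ≤ N := by exact_mod_cast Nat.sub_le _ _
    have hsum : ∑ n ∈ Icc 1 n0, ex ((Polynomial.taylor (h : ℝ) P - P).eval (n : ℝ)) =
        ∑ n ∈ Icc 1 n0, ex (P.eval ((n + h : ℕ) : ℝ) - P.eval (n : ℝ)) := by
      refine Finset.sum_congr rfl fun n _ => ?_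
      rw [hev]
      push_cast
      rfl
    have hlow : (n0 : ℝ) ^ (1 - δ') ≤
        ‖∑ n ∈ Icc 1 n0, ex ((Polynomial.taylor (h : ℝ) P - P).eval (n : ℝ))‖ := by
      rw [hsum]
      refine le_trans ?_ hh2
      calc (n0 : ℝ) ^ (1 - δ') ≤ (n0 : ℝ) ^ (1 - 3 * δ) :=
            Real.rpow_le_rpow_of_exponent_le hn01 (by linarith)
        _ ≤ (N : ℝ) ^ (1 - 3 * δ) := Real.rpow_le_rpow (by linarith) hn0N (by linarith)
    obtain ⟨q, a, hq1, hq2, hq3⟩ := hWP n0 hMn0 _ hdeg hlow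
    refine ⟨q, hq1, hq2.trans (Real.rpow_le_rpow (by linarith) hn0N hε'.le), ?_⟩
    rw [hcoef] at hq3
    have e1 : (q : ℝ) * (d + 1) * α * h = q * ((d + 1) * P.coeff (d + 1) * h) := by
      rw [hα]; ring
    rw [e1]
    refine (nn_le _ a).trans (hq3.trans ?_)
    have h2 : (n0 : ℝ) ^ (-(d : ℝ) + ε') ≤ B ^ (-(d : ℝ) + ε') :=
      Real.rpow_le_rpow_of_nonpos hBpos hBn (by linarith)
    refine h2.trans ?_
    rw [hB, ← Real.rpow_mul hNpos.le, hκ]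
    apply Real.rpow_le_rpow_of_exponent_le hN1
    nlinarith
  choose! Q hQ1 hQ2 hQ3 using hstep
  -- pigeonhole
  set K : ℕ := ⌊(N : ℝ) ^ ε'⌋₊ with hK
  have hmaps : ∀ h ∈ H, Q h ∈ Icc 1 K := by
    intro h hh
    rw [Finset.mem_Icc]
    exact ⟨hQ1 h hh, Nat.le_floor (hQ2 h hh)⟩
  have hNε : (1 : ℝ) ≤ (N : ℝ) ^ ε' := Real.one_le_rpow hN1 hε'.le
  have hK1 : 1 ≤ K := Nat.le_floor (by simpa using hNε)
  have hKle : (K : ℝ) ≤ (N : ℝ) ^ ε' := Nat.floor_le (by positivity)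
  obtain ⟨q, hqK, hq⟩ : ∃ q ∈ Icc 1 K, (H.card : ℝ) / K ≤ ((H.filter (fun h => Q h = q)).card : ℝ) := by
    by_contra hcon
    push Not at hcon
    have h1 : (H.card : ℝ) = ∑ q ∈ Icc 1 K, ((H.filter (fun h => Q h = q)).card : ℝ) := by
      have := Finset.card_eq_sum_card_fiberwise hmaps
      exact_mod_cast this
    have h2 : ∑ q ∈ Icc 1 K, ((H.filter (fun h => Q h = q)).card : ℝ) <
        ∑ q ∈ Icc 1 K, (H.card : ℝ) / K := by
      apply Finset.sum_lt_sum_of_nonempty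
      · exact ⟨1, Finset.mem_Icc.2 ⟨le_rfl, hK1⟩⟩
      · exact hcon
    rw [Finset.sum_const, Nat.card_Icc, nsmul_eq_mul] at h2
    have hK0 : (K : ℝ) ≠ 0 := by
      have : 0 < K := hK1
      exact_mod_cast this.ne'
    have h3 : ((K + 1 - 1 : ℕ) : ℝ) * ((H.card : ℝ) / K) = H.card := by
      rw [Nat.add_sub_cancel]
      field_simp
    linarith
  have hq1 : 1 ≤ q := (Finset.mem_Icc.1 hqK).1
  have hqN : (q : ℝ) ≤ (N : ℝ) ^ ε' := by
    have : (q : ℝ) ≤ K := by exact_mod_cast (Finset.mem_Icc.1 hqK).2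
    linarith
  have hcardq : (N : ℝ) ^ (-(2 * ε')) * N ≤ ((H.filter (fun h => Q h = q)).card : ℝ) := by
    refine le_trans ?_ hq
    have hKpos : (0 : ℝ) < K := by
      have : 0 < K := hK1
      exact_mod_cast this
    rw [le_div_iff₀ hKpos]
    calc (N : ℝ) ^ (-(2 * ε')) * N * K ≤ (N : ℝ) ^ (-(2 * ε')) * N * (N : ℝ) ^ ε' :=
          mul_le_mul_of_nonneg_left hKle (by positivity)
      _ = (N : ℝ) ^ (1 - ε') := by
          nth_rw 2 [← Real.rpow_one (N : ℝ)]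
          rw [← Real.rpow_add hNpos, ← Real.rpow_add hNpos]
          congr 1
          ring
      _ ≤ B := Real.rpow_le_rpow_of_exponent_le hN1 (by linarith)
      _ ≤ H.card := hmany
  -- Vinogradov
  have hηpos : 0 < (N : ℝ) ^ (-(2 * ε')) := by positivity
  have h64 : (64 : ℝ) ≤ (N : ℝ) ^ (1 - 4 * ε') := by
    have h1 : (64 : ℝ) ≤ (N : ℝ) ^ (1 / 2 : ℝ) := by
      rw [← Real.sqrt_eq_rpow]
      apply Real.le_sqrt_of_sq_le
      have : (4096 : ℝ) ≤ N := by exact_mod_cast hL1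
      linarith
    exact h1.trans (Real.rpow_le_rpow_of_exponent_le hN1 (by linarith))
  have hκη : κ ≤ (N : ℝ) ^ (-(2 * ε')) / 64 := by
    rw [le_div_iff₀ (by norm_num)]
    calc κ * 64 ≤ κ * (N : ℝ) ^ (1 - 4 * ε') := mul_le_mul_of_nonneg_left h64 (by positivity)
      _ = (N : ℝ) ^ (1 - (d : ℝ) - 2 * ε') := by
          rw [hκ, ← Real.rpow_add hNpos]
          congr 1
          ring
      _ ≤ (N : ℝ) ^ (-(2 * ε')) := Real.rpow_le_rpow_of_exponent_le hN1 (by linarith)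
  have h16 : 16 / (N : ℝ) ^ (-(2 * ε')) ≤ N := by
    rw [div_le_iff₀ hηpos]
    calc (16 : ℝ) ≤ (N : ℝ) ^ (1 - 4 * ε') := by linarith
      _ ≤ (N : ℝ) ^ (1 - 2 * ε') := Real.rpow_le_rpow_of_exponent_le hN1 (by linarith)
      _ = N * (N : ℝ) ^ (-(2 * ε')) := by
          nth_rw 2 [← Real.rpow_one (N : ℝ)]
          rw [← Real.rpow_add hNpos]
          congr 1
  obtain ⟨q', a, hq'1, hq'2, hq'3⟩ := vino (q * (d + 1) * α) ((N : ℝ) ^ (-(2 * ε'))) κ N hηpos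
    (Real.rpow_le_one_of_one_le_of_nonpos hN1 (by linarith)) (by positivity) hκη h16 (by
      refine hcardq.trans ?_
      have hsub : H.filter (fun h => Q h = q) ⊆
          (Icc 1 N).filter (fun h : ℕ => nn (q * (d + 1) * α * h) ≤ κ) := by
        intro h hh
        obtain ⟨h1, h2⟩ := Finset.mem_filter.1 hh
        rw [Finset.mem_filter]
        refine ⟨(Finset.mem_filter.1 h1).1, ?_⟩
        have := hQ3 h h1
        rwa [h2] at this
      exact_mod_cast Finset.card_le_card hsub)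
  refine ⟨q' * q * (d + 1), a, ?_, ?_, ?_⟩
  · exact Nat.mul_pos (Nat.mul_pos hq'1 hq1) (Nat.succ_pos d)
  · push_cast
    have h1 : 16 / (N : ℝ) ^ (-(2 * ε')) = 16 * (N : ℝ) ^ (2 * ε') := by
      rw [Real.rpow_neg hNpos.le]
      field_simp
    rw [h1] at hq'2
    calc (q' : ℝ) * q * (d + 1) ≤ (16 * (N : ℝ) ^ (2 * ε')) * (N : ℝ) ^ ε' * (d + 1) := by
          gcongr
      _ = (16 * (d + 1)) * (N : ℝ) ^ (3 * ε') := by
          have : (N : ℝ) ^ (3 * ε') = (N : ℝ) ^ (2 * ε') * (N : ℝ) ^ ε' := by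
            rw [← Real.rpow_add hNpos]; congr 1; ring
          rw [this]; ring
      _ ≤ (N : ℝ) ^ (7 * ε') * (N : ℝ) ^ (3 * ε') :=
          mul_le_mul_of_nonneg_right hL5 (by positivity)
      _ = (N : ℝ) ^ ε := by
          rw [← Real.rpow_add hNpos]
          congr 1
          rw [hε'def]; ring
  · push_cast
    have h1 : (q' : ℝ) * q * (d + 1) * α - a = q' * (q * (d + 1) * α) - a := by ring
    rw [h1]
    refine hq'3.trans ?_
    have h2 : 64 * κ / (((N : ℝ) ^ (-(2 * ε'))) ^ 2 * N) = 64 * (N : ℝ) ^ (-((d : ℝ) + 1) + 6 * ε') := by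
      have h3 : ((N : ℝ) ^ (-(2 * ε'))) ^ 2 * N = (N : ℝ) ^ (1 - 4 * ε') := by
        rw [← Real.rpow_natCast, ← Real.rpow_mul hNpos.le]
        nth_rw 2 [← Real.rpow_one (N : ℝ)]
        rw [← Real.rpow_add hNpos]
        congr 1
        push_cast
        ring
      rw [h3, mul_div_assoc, hκ, ← Real.rpow_sub hNpos]
      congr 2
      ring
    rw [h2]
    calc 64 * (N : ℝ) ^ (-((d : ℝ) + 1) + 6 * ε')
        ≤ (N : ℝ) ^ (4 * ε') * (N : ℝ) ^ (-((d : ℝ) + 1) + 6 * ε') :=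
          mul_le_mul_of_nonneg_right hL4 (by positivity)
      _ = (N : ℝ) ^ (-((d : ℝ) + 1) + ε) := by
          rw [← Real.rpow_add hNpos]
          congr 1
          rw [hε'def]; ring

theorem wp (d : ℕ) (hd : 1 ≤ d) : WP d := by
  induction d, hd using Nat.le_induction with
  | base => exact wp_one
  | succ d hd ih => exact wp_succ d hd ih

end Pool.Agent.BMX
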